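import Mathlib
import Pool.Agent.Lib.MP_1dbab3_gt.WLagB

/-!
# Near `α = 1`: the transforms `∫ ρ^q F K_k(sρ)`
-/

open Real MeasureTheory Set Filter Topology

namespace LpSec

namespace Nr

variable {α : ℝ}

/-- `G = c ρ^α F` -/
noncomputable def cc (α : ℝ) : ℝ := α * mu α ^ α

noncomputable def Tq (α q : ℝ) (k : ℕ) (s : ℝ) : ℝ :=
  ∫ ρ in Ioi (0 : ℝ), ρ ^ q * F α ρ * K k (s * ρ)

noncomputable def Mq (α q : ℝ) : ℝ := ∫ ρ in Ioi (0 : ℝ), ρ ^ q * F α ρ

theorem cc_pos (hα : 1 < α) : 0 < cc α := by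
  have h0 : 0 < α := by linarith
  have := mu_pos h0
  unfold cc
  positivity

theorem G_eq (hα : 1 < α) {t : ℝ} (ht : 0 < t) : G α t = cc α * (t ^ α * F α t) := by
  have h0 : 0 < α := by linarith
  have h := aux_G h0 0 ht
  rw [rpow_zero, one_mul, zero_add] at h
  rw [h]
  unfold cc F
  ring

theorem rpowF_int (hα : 1 < α) {q : ℝ} (hq : -1 < q) :
    IntegrableOn (fun ρ => ρ ^ q * F α ρ) (Ioi 0) := by
  have h0 : 0 < α := by linarith
  have e : (fun ρ => ρ ^ q * F α ρ) =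
      (fun ρ => (DD α)⁻¹ * (ρ ^ q * exp (-(mu α * ρ) ^ α))) := by
    funext t
    simp only [F]
    ring
  rw [e]
  exact (aux_mom h0 hq).1.const_mul (DD α)⁻¹

theorem Tq_int (hα : 1 < α) {q : ℝ} (hq : -1 < q) (k : ℕ) {s : ℝ} (hs : 0 ≤ s) :
    IntegrableOn (fun ρ => ρ ^ q * F α ρ * K k (s * ρ)) (Ioi 0) :=
  phic2_int (rpowF_int hα hq) k hs

theorem T_parts (hα : 1 < α) {q : ℝ} (hq : -1 < q) (k : ℕ) {s : ℝ} (hs : 0 ≤ s) :
    Tq α q k s = (k - q) * Tq α q (k + 1) s + cc α * Tq α (q + α) (k + 1) s := by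
  have h0 : 0 < α := by linarith
  have i1 := Tq_int hα hq k hs
  have i2 := Tq_int hα hq (k + 1) hs
  have i3 := Tq_int hα (q := q + α) (by linarith) (k + 1) hs
  have hder : ∀ t ∈ Ioi (0 : ℝ), HasDerivAt (fun t => t ^ (q + 1) * F α t * K (k + 1) (s * t))
      (t ^ q * F α t * K k (s * t) - (((k : ℝ) - q) * (t ^ q * F α t * K (k + 1) (s * t)) +
        cc α * (t ^ (q + α) * F α t * K (k + 1) (s * t)))) t := by
    intro t ht
    have ht0 : (0 : ℝ) < t := ht
    have h1 : HasDerivAt (fun t => s * t) s t := by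
      simpa using (hasDerivAt_id t).const_mul s
    have h2 : HasDerivAt (fun t => K (k + 1) (s * t)) (-(K (k + 2) (s * t)) * s) t :=
      (K_hasDerivAt (k + 1) (s * t)).comp t h1
    have h3 : HasDerivAt (fun t : ℝ => t ^ (q + 1)) ((q + 1) * t ^ q) t := by
      have := (hasDerivAt_id t).rpow_const (p := q + 1) (Or.inl ht0.ne')
      simpa using this
    have h4 := (h3.mul (aux_F_deriv h0 ht0)).mul h2
    refine h4.congr_deriv ?_
    have h5 := K_rec k (s * t)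
    have h6 : t ^ (q + 1) = t ^ q * t := by rw [rpow_add_one ht0.ne']
    have h7 : t ^ (q + α) = t ^ q * t ^ α := rpow_add ht0 q α
    have h8 := G_eq hα ht0
    simp only [Pi.mul_apply]
    rw [h6, h7, h8]
    have h9 : -(cc α * (t ^ α * F α t)) / t * t = -(cc α * (t ^ α * F α t)) := by
      field_simp
    have h10 : t ^ q * t * F α t * (-K (k + 2) (s * t) * s) =
        -(t ^ q * F α t) * (s * t * K (k + 2) (s * t)) := by ring
    rw [h10, h5]
    have h11 : t ^ q * t * (-(cc α * (t ^ α * F α t)) / t) =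
        t ^ q * (-(cc α * (t ^ α * F α t)) / t * t) := by ring
    rw [h11, h9]
    ring
  have hcont : ContinuousWithinAt (fun t => t ^ (q + 1) * F α t * K (k + 1) (s * t)) (Ici 0) 0 := by
    have h1 : ContinuousWithinAt (F α) (Ici 0) 0 := F_continuousOn h0 0 self_mem_Ici
    have h2 : Continuous (fun t => K (k + 1) (s * t)) :=
      (K_continuous (k + 1)).comp (continuous_const.mul continuous_id)
    have h3 : ContinuousAt (fun t : ℝ => t ^ (q + 1)) 0 :=
      continuousAt_rpow_const 0 (q + 1) (Or.inr (by linarith))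
    exact (h3.continuousWithinAt.mul h1).mul h2.continuousWithinAt
  have hint : IntegrableOn (fun t => t ^ (q + 1) * F α t * K (k + 1) (s * t)) (Ioi 0) :=
    Tq_int hα (q := q + 1) (by linarith) (k + 1) hs
  have j2 : IntegrableOn (fun ρ => ((k : ℝ) - q) * (ρ ^ q * F α ρ * K (k + 1) (s * ρ))) (Ioi 0) :=
    i2.const_mul ((k : ℝ) - q)
  have j3 : IntegrableOn (fun ρ => cc α * (ρ ^ (q + α) * F α ρ * K (k + 1) (s * ρ))) (Ioi 0) :=
    i3.const_mul (cc α)
  have i4 : IntegrableOn (fun ρ => ((k : ℝ) - q) * (ρ ^ q * F α ρ * K (k + 1) (s * ρ)) +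
      cc α * (ρ ^ (q + α) * F α ρ * K (k + 1) (s * ρ))) (Ioi 0) := j2.add j3
  have hlim := tendsto_zero_of_hasDerivAt_of_integrableOn_Ioi hder (i1.sub i4) hint
  have key := integral_Ioi_of_hasDerivAt_of_tendsto hcont hder (i1.sub i4) hlim
  rw [integral_sub i1 i4, integral_add j2 j3, integral_const_mul,
    integral_const_mul, zero_rpow (by linarith)] at key
  unfold Tq
  linarith

theorem T_deriv (hα : 1 < α) {q : ℝ} (hq : -1 < q) (k : ℕ) {s : ℝ} (hs : 0 < s) :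
    HasDerivAt (Tq α q k) (-(Tq α (q + 1) (k + 1) s)) s := by
  have hw := rpowF_int hα hq
  have e : ∀ ρ ∈ Ioi (0 : ℝ), ρ ^ (q + 1) * F α ρ = ρ * (ρ ^ q * F α ρ) := by
    intro ρ hρ
    have h0 : (0 : ℝ) < ρ := hρ
    rw [rpow_add_one h0.ne']
    ring
  have hw1 : IntegrableOn (fun ρ => ρ * (ρ ^ q * F α ρ)) (Ioi 0) :=
    (rpowF_int hα (q := q + 1) (by linarith)).congr_fun e measurableSet_Ioi
  have h := phic2_deriv hw hw1 k hs
  refine h.congr_deriv ?_
  congr 1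
  unfold Tq
  refine setIntegral_congr_fun measurableSet_Ioi fun ρ hρ => ?_
  beta_reduce
  rw [e ρ hρ]

theorem T_continuousOn (hα : 1 < α) {q : ℝ} (hq : -1 < q) (k : ℕ) :
    ContinuousOn (Tq α q k) (Ici 0) := phic2_cont (rpowF_int hα hq) k

theorem T_zero (α q : ℝ) (k : ℕ) : Tq α q k 0 = Mq α q / (k.factorial : ℝ) := by
  unfold Tq Mq
  simp only [zero_mul, K_zero]
  rw [integral_mul_const]
  ring

theorem M_rec (hα : 1 < α) {q : ℝ} (hq : -1 < q) :
    cc α * Mq α (q + α) = (q + 1) * Mq α q := by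
  have h := T_parts hα hq 0 (s := 0) le_rfl
  rw [T_zero, T_zero, T_zero] at h
  norm_num [Nat.factorial] at h
  linarith

theorem M_zero (hα : 1 < α) : Mq α 0 = 1 := by
  unfold Mq
  simp only [rpow_zero, one_mul]
  exact F_integral hα

theorem M_one (hα : 1 < α) : Mq α 1 = 1 := by
  unfold Mq
  simp only [rpow_one]
  exact F_mean hα

theorem M_two (α : ℝ) : Mq α 2 = mom α 2 := by
  unfold Mq mom
  simp only [rpow_two]

theorem T00 (α s : ℝ) : Tq α 0 0 s = Phi α s := by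
  unfold Tq Phi
  simp only [rpow_zero, one_mul]

theorem T11 (α s : ℝ) : Tq α 1 1 s = Phi1 α s := by
  unfold Tq Phi1
  simp only [rpow_one]

theorem T22 (α s : ℝ) : Tq α 2 2 s = Phi2 α s := by
  unfold Tq Phi2
  simp only [rpow_two]

/-- `Phi + 2 Phi' + Phi''` -/
noncomputable def Nn (α s : ℝ) : ℝ := Phi α s - 2 * Phi1 α s + Phi2 α s

noncomputable def BB (α s : ℝ) : ℝ := cc α * Tq α α 2 s

noncomputable def PP (α s : ℝ) : ℝ :=
  cc α ^ 2 * Tq α (2 * α) 2 s - 2 * (cc α * Tq α (1 + α) 2 s) + Tq α 2 2 s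

theorem Nn_eq (hα : 1 < α) {s : ℝ} (hs : 0 ≤ s) : Nn α s = -((α - 1) * BB α s) + PP α s := by
  have h1 := T_parts hα (q := 0) (by norm_num) 0 hs
  have h2 := T_parts hα (q := α) (by linarith) 1 hs
  have h3 := T_parts hα (q := 1) (by norm_num) 1 hs
  rw [T00, zero_add] at h1
  rw [T11] at h3
  rw [← two_mul] at h2
  norm_num at h1 h2 h3
  unfold Nn BB PP
  rw [h1, h3, h2, T22]
  ring

theorem Nn_eq_X (hα : 1 < α) {s : ℝ} (hs : 0 < s) : Nn α s = exp (-s) * Xd α 2 s := by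
  unfold Nn
  rw [Phi_eq_X hα hs.le, Phi1_eq_X hα hs, Phi2_eq_X hα hs]
  ring

theorem X2_eq (hα : 1 < α) {s : ℝ} (hs : 0 < s) : Xd α 2 s = exp s * Nn α s := by
  rw [Nn_eq_X hα hs, ← mul_assoc, ← exp_add, add_neg_cancel, exp_zero, one_mul]

/-- `s² B(s) = ∫_0^s t Φ(t) dt` -/
theorem BB_eq (hα : 1 < α) {s : ℝ} (hs : 0 ≤ s) :
    s ^ 2 * BB α s = ∫ t in (0 : ℝ)..s, t * Phi α t := by
  have hder : ∀ x ∈ Ioo (0 : ℝ) s, HasDerivAt (fun x => x ^ 2 * BB α x) (x * Phi α x) x := by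
    intro x hx
    have h1 := (hasDerivAt_pow 2 x).mul
      ((T_deriv hα (q := α) (by linarith) 2 hx.1).const_mul (cc α))
    refine h1.congr_deriv ?_
    have h2 := T_parts hα (q := 0) (by norm_num) 0 hx.1.le
    rw [T00, zero_add] at h2
    norm_num at h2
    have h3 : x * Tq α (α + 1) 3 x = 2 * Tq α α 2 x - Tq α α 1 x := by
      have i1 := Tq_int hα (q := α) (by linarith) 1 hx.1.le
      have i2 := Tq_int hα (q := α) (by linarith) 2 hx.1.le
      unfold Tq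
      rw [← integral_const_mul, ← integral_const_mul, ← integral_sub (i2.const_mul _) i1]
      refine setIntegral_congr_fun measurableSet_Ioi fun ρ hρ => ?_
      have h0 : (0 : ℝ) < ρ := hρ
      have h4 := K_rec 1 (x * ρ)
      norm_num at h4
      beta_reduce
      rw [rpow_add_one h0.ne']
      linear_combination (ρ ^ α * F α ρ) * h4
    rw [h2]
    simp only [Nat.cast_ofNat, Nat.add_one_sub_one, pow_one]
    linear_combination (-(x * cc α)) * h3
  have hcont : ContinuousOn (fun x => x ^ 2 * BB α x) (Icc 0 s) := by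
    refine (continuousOn_pow 2).mul (ContinuousOn.mul continuousOn_const ?_)
    exact (T_continuousOn hα (by linarith) 2).mono fun x hx => hx.1
  have hi : IntervalIntegrable (fun t => t * Phi α t) volume 0 s := by
    refine ContinuousOn.intervalIntegrable ?_
    rw [uIcc_of_le hs]
    exact continuousOn_id.mul ((Phi_continuousOn hα).mono fun x hx => hx.1)
  have h := intervalIntegral.integral_eq_sub_of_hasDerivAt_of_le hs hcont hder hi
  rw [h]
  simp

theorem PP_int (hα : 1 < α) {s : ℝ} (hs : 0 ≤ s) :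
    IntegrableOn (fun ρ => (ρ - cc α * ρ ^ α) ^ 2 * F α ρ * K 2 (s * ρ)) (Ioi 0) ∧
    PP α s = ∫ ρ in Ioi (0 : ℝ), (ρ - cc α * ρ ^ α) ^ 2 * F α ρ * K 2 (s * ρ) := by
  have i1 := Tq_int hα (q := 2 * α) (by linarith) 2 hs
  have i2 := Tq_int hα (q := 1 + α) (by linarith) 2 hs
  have i3 := Tq_int hα (q := 2) (by linarith) 2 hs
  have e : ∀ ρ ∈ Ioi (0 : ℝ), cc α ^ 2 * (ρ ^ (2 * α) * F α ρ * K 2 (s * ρ)) -
      2 * (cc α * (ρ ^ (1 + α) * F α ρ * K 2 (s * ρ))) + ρ ^ (2 : ℝ) * F α ρ * K 2 (s * ρ) =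
      (ρ - cc α * ρ ^ α) ^ 2 * F α ρ * K 2 (s * ρ) := by
    intro ρ hρ
    have h0 : (0 : ℝ) < ρ := hρ
    rw [two_mul, rpow_add h0, rpow_add h0, rpow_one, rpow_two]
    ring
  have j1 : IntegrableOn (fun ρ => cc α ^ 2 * (ρ ^ (2 * α) * F α ρ * K 2 (s * ρ))) (Ioi 0) :=
    i1.const_mul (cc α ^ 2)
  have j2 : IntegrableOn (fun ρ => 2 * (cc α * (ρ ^ (1 + α) * F α ρ * K 2 (s * ρ)))) (Ioi 0) :=
    (i2.const_mul (cc α)).const_mul 2
  have j12 : IntegrableOn (fun ρ => cc α ^ 2 * (ρ ^ (2 * α) * F α ρ * K 2 (s * ρ)) -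
      2 * (cc α * (ρ ^ (1 + α) * F α ρ * K 2 (s * ρ)))) (Ioi 0) := j1.sub j2
  have j : IntegrableOn (fun ρ => cc α ^ 2 * (ρ ^ (2 * α) * F α ρ * K 2 (s * ρ)) -
      2 * (cc α * (ρ ^ (1 + α) * F α ρ * K 2 (s * ρ))) +
      ρ ^ (2 : ℝ) * F α ρ * K 2 (s * ρ)) (Ioi 0) := j12.add i3
  refine ⟨j.congr_fun e measurableSet_Ioi, ?_⟩
  rw [← setIntegral_congr_fun measurableSet_Ioi e, integral_add j12 i3, integral_sub j1 j2,
    integral_const_mul, integral_const_mul, integral_const_mul]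
  rfl

end Nr

end LpSec
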