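import Mathlib
import Pool.Agent.Lib.MP_1dbab3_gt.WDefs
import Pool.Agent.Lib.MP_1dbab3_gt.Nr.A

/-!
# Near `α = 1`: the facts about `Phi` that are used
-/

open Real MeasureTheory Set Filter Topology

namespace LpSec.Nr

/-- the facts about `Phi` for `1 < α ≤ 10/9` -/
structure Near (α : ℝ) : Prop where
  one_lt : 1 < α
  le : α ≤ 10 / 9
  z4 : 4 < z1 α
  pos : ∀ s, 0 ≤ s → s < z1 α → 0 < Phi α s
  zero : Phi α (z1 α) = 0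
  conc : ConcaveOn ℝ (Ico 0 (z1 α)) (fun s => log (Phi α s) + 0.41 * (α - 1) * s ^ 2 / 2)
  crude : ∀ s, 0 ≤ s → (1 - 0.51 * (α - 1) * (exp s - 1 - s)) * exp (-s) ≤ Phi α s
  le_exp : ∀ s, 0 ≤ s → s ≤ z1 α → Phi α s ≤ exp (-s)
  neg7 : ∀ s, z1 α ≤ s → s ≤ 7 → Phi α s ≤ 0
  e0 : exp (-(z1 α)) ≤ 0.15 * (α - 1)
  env : ∀ s, z1 α ≤ s → |Phi α s| ≤ 0.8 * (α - 1) / s
  env15 : ∀ s, z1 α ≤ s → |Phi α s| ≤ 0.15 * (α - 1)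
  env1 : ∀ s, 7 / 2 ≤ s → |Phi α s - Phi1 α s| ≤ 2 / 3 * (α - 1) / s

end LpSec.Nr
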