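import Mathlib
import Pool.Agent.Lib.MP_1dbab3_gt.Nr.Def

open Real MeasureTheory Set Filter Topology

namespace LpSec.Nr

variable {α : ℝ}

/-! ## ROW nr-5: the gain integral (only `Near`) -/

theorem Near.pow_ge (h : Near α) {n : ℕ} (hn : 4 ≤ n) {s : ℝ} (h0 : 0 ≤ s) (hs : s ≤ 16) :
    Phi α (s / 4) ^ 4 ≤ Phi α (s / n) ^ n := by
  have hz := h.z4
  have hn' : (4 : ℝ) ≤ n := by exact_mod_cast hn
  have hnp : (0 : ℝ) < n := by linarith
  have hl0 : (0 : ℝ) ≤ 4 / n := by positivity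
  have hl1 : (4 : ℝ) / n ≤ 1 := (div_le_one hnp).2 hn'
  have hx1 : s / 4 ∈ Ico 0 (z1 α) := ⟨by positivity, by linarith⟩
  have hx0 : (0 : ℝ) ∈ Ico 0 (z1 α) := ⟨le_rfl, by linarith⟩
  have hc := h.conc.2 hx1 hx0 hl0 (sub_nonneg.2 hl1) (by ring)
  have hP0 : Phi α 0 = 1 := Phi_zero h.one_lt
  have e1 : 4 / (n : ℝ) * (s / 4) = s / n := by field_simp
  simp only [smul_eq_mul, mul_zero, add_zero, hP0, log_one, e1] at hc
  have hp4 : 0 < Phi α (s / 4) := h.pos _ hx1.1 hx1.2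
  have hsn : s / n ≤ s / 4 := div_le_div_of_nonneg_left h0 (by norm_num) hn'
  have hpn : 0 < Phi α (s / n) := h.pos _ (by positivity) (by linarith)
  have hq : 0 ≤ 0.41 * (α - 1) := by
    have := h.one_lt
    nlinarith
  have e2 : (s / n) ^ 2 = (4 / n) ^ 2 * (s / 4) ^ 2 := by rw [← e1]; ring
  have h3 : (4 / n : ℝ) * log (Phi α (s / 4)) ≤ log (Phi α (s / n)) := by
    have h4 : 0 ≤ 0.41 * (α - 1) * ((4 / n : ℝ) * (1 - 4 / n) * (s / 4) ^ 2) := by
      have : 0 ≤ 1 - 4 / (n : ℝ) := sub_nonneg.2 hl1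
      positivity
    rw [e2] at hc
    nlinarith
  have h5 : 4 * log (Phi α (s / 4)) ≤ n * log (Phi α (s / n)) := by
    have := mul_le_mul_of_nonneg_left h3 hnp.le
    have e3 : (n : ℝ) * (4 / n * log (Phi α (s / 4))) = 4 * log (Phi α (s / 4)) := by
      field_simp
    linarith
  have h6 : log (Phi α (s / 4) ^ 4) ≤ log (Phi α (s / n) ^ n) := by
    rw [log_pow, log_pow]
    push_cast
    exact h5
  exact (log_le_log_iff (by positivity) (by positivity)).1 h6

/-- the antiderivative used below -/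
noncomputable def gainF (c k s : ℝ) : ℝ :=
  c * ((1 + k) * (-(exp (-s) * (s ^ 2 + 2 * s + 2)))
    - k * (-(exp (-(3 / 4 * s)) * (4 / 3 * s ^ 2 + 32 / 9 * s + 128 / 27)))
    + k / 4 * (-(exp (-s) * (s ^ 3 + 3 * s ^ 2 + 6 * s + 6))))
  - c ^ 2 / 2 * (-(exp (-s) * (s ^ 4 + 4 * s ^ 3 + 12 * s ^ 2 + 24 * s + 24)))

theorem gainF_deriv (c k s : ℝ) : HasDerivAt (gainF c k)
    (exp (-s) * (1 - k * (exp (s / 4) - 1 - s / 4)) * (c * s ^ 2) -
      exp (-s) * (c * s ^ 2) ^ 2 / 2) s := by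
  have h1 : HasDerivAt (fun s : ℝ => exp (-s)) (-exp (-s)) s := by
    have := (hasDerivAt_id s).neg.exp
    simpa using this
  have h2 : HasDerivAt (fun s : ℝ => exp (-(3 / 4 * s))) (-(3 / 4 * exp (-(3 / 4 * s)))) s := by
    refine (((hasDerivAt_id s).const_mul (3 / 4 : ℝ)).neg.exp).congr_deriv ?_
    simp only [id, Pi.neg_apply]
    ring
  have p1 : HasDerivAt (fun s : ℝ => s) 1 s := hasDerivAt_id s
  have p2 : HasDerivAt (fun s : ℝ => s ^ 2) (2 * s) s := by
    simpa using hasDerivAt_pow 2 s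
  have p3 : HasDerivAt (fun s : ℝ => s ^ 3) (3 * s ^ 2) s := by
    simpa using hasDerivAt_pow 3 s
  have p4 : HasDerivAt (fun s : ℝ => s ^ 4) (4 * s ^ 3) s := by
    simpa using hasDerivAt_pow 4 s
  have a2 := (h1.mul ((p2.add (p1.const_mul 2)).add_const (2 : ℝ))).neg
  have a3 := (h2.mul (((p2.const_mul (4 / 3 : ℝ)).add (p1.const_mul (32 / 9))).add_const
    (128 / 27 : ℝ))).neg
  have a4 := (h1.mul (((p3.add (p2.const_mul 3)).add (p1.const_mul 6)).add_const (6 : ℝ))).neg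
  have a5 := (h1.mul ((((p4.add (p3.const_mul 4)).add (p2.const_mul 12)).add
    (p1.const_mul 24)).add_const (24 : ℝ))).neg
  have a6 := ((((a2.const_mul (1 + k)).sub (a3.const_mul k)).add
    (a4.const_mul (k / 4))).const_mul c).sub (a5.const_mul (c ^ 2 / 2))
  have e : exp (-(3 / 4 * s)) = exp (-s) * exp (s / 4) := by
    rw [← exp_add]; congr 1; ring
  refine (a6.congr_deriv ?_)
  simp only [e, Pi.add_apply]
  ring

theorem exp_third_bounds : 0.7165 < exp (-(1 / 3 : ℝ)) ∧ exp (-(1 / 3 : ℝ)) < 0.7166 := by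
  have h1 : exp (-(1 / 3 : ℝ)) ^ 3 = (exp 1)⁻¹ := by
    rw [← exp_nat_mul, ← exp_neg]; congr 1; norm_num
  have l := exp_one_gt_d9
  have u := exp_one_lt_d9
  have hp : 0 < exp (-(1 / 3 : ℝ)) := exp_pos _
  have b1 : (exp 1)⁻¹ < 0.36788 := by
    rw [inv_lt_comm₀ (exp_pos 1) (by norm_num)]
    refine lt_trans ?_ l
    norm_num
  have b2 : 0.367879 < (exp 1)⁻¹ := by
    rw [lt_inv_comm₀ (by norm_num) (exp_pos 1)]
    refine lt_trans u ?_
    norm_num
  constructor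
  · by_contra hc
    push Not at hc
    have := pow_le_pow_left₀ hp.le hc 3
    rw [h1] at this
    norm_num at this b2
    linarith
  · by_contra hc
    push Not at hc
    have := pow_le_pow_left₀ (by norm_num : (0 : ℝ) ≤ 0.7166) hc 3
    rw [h1] at this
    norm_num at this b1
    linarith

theorem exp_four_bounds : 0.0183 < exp (-4 : ℝ) ∧ exp (-4 : ℝ) < 0.01832 := by
  have h1 : exp (-4 : ℝ) = (exp 1)⁻¹ ^ 4 := by
    rw [← exp_neg, ← exp_nat_mul]; congr 1; norm_num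
  have l := exp_one_gt_d9
  have u := exp_one_lt_d9
  have b1 : (exp 1)⁻¹ < 0.36788 := by
    rw [inv_lt_comm₀ (exp_pos 1) (by norm_num)]
    refine lt_trans ?_ l
    norm_num
  have b2 : 0.367879 < (exp 1)⁻¹ := by
    rw [lt_inv_comm₀ (by norm_num) (exp_pos 1)]
    refine lt_trans u ?_
    norm_num
  rw [h1]
  have hp : (0 : ℝ) < (exp 1)⁻¹ := by positivity
  constructor
  · refine lt_of_lt_of_le ?_ (pow_le_pow_left₀ (by norm_num) b2.le 4)
    norm_num
  · refine lt_of_le_of_lt (pow_le_pow_left₀ hp.le b1.le 4) ?_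
    norm_num

theorem exp_b_bounds : 0.00482 < exp (-(16 / 3) : ℝ) ∧ exp (-(16 / 3) : ℝ) < 0.00484 := by
  obtain ⟨l3, u3⟩ := exp_third_bounds
  obtain ⟨l4, u4⟩ := exp_four_bounds
  have h1 : exp (-(16 / 3) : ℝ) = exp (-4 : ℝ) * exp (-(1 / 3 : ℝ)) ^ 4 := by
    rw [← exp_nat_mul, ← exp_add]; congr 1; norm_num
  rw [h1]
  have q1 : (0.7165 : ℝ) ^ 4 ≤ exp (-(1 / 3 : ℝ)) ^ 4 := pow_le_pow_left₀ (by norm_num) l3.le 4
  have q2 : exp (-(1 / 3 : ℝ)) ^ 4 ≤ (0.7166 : ℝ) ^ 4 := pow_le_pow_left₀ (exp_pos _).le u3.le 4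
  have p4 : 0 < exp (-4 : ℝ) := exp_pos _
  norm_num at q1 q2 l4 u4 ⊢
  constructor <;> nlinarith

theorem gainF_val {c k : ℝ} (hc0 : 0 ≤ c) (hc : c ≤ 0.01595) (hk0 : 0 ≤ k) (hk : k ≤ 0.2267) :
    1.5122 * c ≤ gainF c k (16 / 3) - gainF c k 0 := by
  obtain ⟨l4, u4⟩ := exp_four_bounds
  obtain ⟨lb, ub⟩ := exp_b_bounds
  have e0 : exp (-(0 : ℝ)) = 1 := by simp
  have e1 : exp (-(3 / 4 * 0 : ℝ)) = 1 := by simp
  have e2 : exp (-(3 / 4 * (16 / 3)) : ℝ) = exp (-4) := by norm_num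
  have key : gainF c k (16 / 3) - gainF c k 0 =
      c * ((2 - exp (-(16 / 3)) * (370 / 9)) - k *
        ((128 / 27 - exp (-4) * (1664 / 27)) - (2 - exp (-(16 / 3)) * (370 / 9)) -
          (6 - exp (-(16 / 3)) * (7426 / 27)) / 4)
        - c / 2 * (24 - exp (-(16 / 3)) * (154648 / 81))) := by
    unfold gainF
    rw [e0, e1, e2]
    ring
  rw [key]
  set E := exp (-(16 / 3) : ℝ)
  set F := exp (-4 : ℝ)
  have A1 : 1.80 ≤ 2 - E * (370 / 9) := by norm_num at ub ⊢; linarith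
  have A2 : (128 / 27 - F * (1664 / 27)) - (2 - E * (370 / 9)) - (6 - E * (7426 / 27)) / 4
      ≤ 0.65 := by norm_num at ub l4 ⊢; linarith
  have A3 : 24 - E * (154648 / 81) ≤ 14.9 := by norm_num at lb ⊢; linarith
  have A4 : k * ((128 / 27 - F * (1664 / 27)) - (2 - E * (370 / 9)) - (6 - E * (7426 / 27)) / 4)
      ≤ 0.2267 * 0.65 := by
    calc _ ≤ k * 0.65 := mul_le_mul_of_nonneg_left A2 hk0
      _ ≤ _ := mul_le_mul_of_nonneg_right hk (by norm_num)
  have A5 : c / 2 * (24 - E * (154648 / 81)) ≤ 0.01595 / 2 * 14.9 := by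
    calc _ ≤ c / 2 * 14.9 := mul_le_mul_of_nonneg_left A3 (by linarith)
      _ ≤ _ := mul_le_mul_of_nonneg_right (by linarith) (by norm_num)
  rw [mul_comm]
  refine mul_le_mul_of_nonneg_left ?_ hc0
  norm_num at A1 A4 A5 ⊢
  linarith

theorem one_sub_exp_ge {p : ℝ} (hp : 0 ≤ p) : p - p ^ 2 / 2 ≤ 1 - exp (-p) := by
  have h := quadratic_le_exp_of_nonneg hp
  have h1 : exp (-p) * exp p = 1 := by rw [← exp_add]; simp
  have h2 : 0 < exp (-p) := exp_pos _
  have h3 : exp (-p) * (1 + p + p ^ 2 / 2) ≤ 1 :=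
    (mul_le_mul_of_nonneg_left h h2.le).trans h1.le
  have h4 : 0 < 1 + p + p ^ 2 / 2 := by positivity
  have h5 : 1 ≤ (1 - p + p ^ 2 / 2) * (1 + p + p ^ 2 / 2) := by
    have : (1 - p + p ^ 2 / 2) * (1 + p + p ^ 2 / 2) = 1 + p ^ 4 / 4 := by ring
    rw [this]
    have : 0 ≤ p ^ 4 / 4 := by positivity
    linarith
  have h6 : exp (-p) ≤ 1 - p + p ^ 2 / 2 := le_of_mul_le_mul_right (h3.trans h5) h4
  linarith

theorem Near.gain (h : Near α) {n : ℕ} (hn : 4 ≤ n) {V : ℝ} (hV0 : 0 ≤ V) (hV : V ≤ 0.7) :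
    0.31 * (α - 1) * V ≤ ∫ s in (0 : ℝ)..(16 / 3),
      Phi α (s / n) ^ n * (1 - exp (-(0.41 * (α - 1) * V * s ^ 2 / 2))) := by
  have hα := h.one_lt
  have hle := h.le
  have hn' : (4 : ℝ) ≤ n := by exact_mod_cast hn
  have hnp : (0 : ℝ) < n := by linarith
  set c : ℝ := 0.205 * (α - 1) * V with hcdef
  set k : ℝ := 2.04 * (α - 1) with hkdef
  have hc0 : 0 ≤ c := by
    have : 0 ≤ α - 1 := by linarith
    positivity
  have hc1 : c ≤ 0.01595 := by
    have h1 : (α - 1) * V ≤ 1 / 9 * 0.7 := mul_le_mul (by linarith) hV hV0 (by norm_num)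
    rw [hcdef, mul_assoc]
    linarith
  have hk0 : 0 ≤ k := by rw [hkdef]; nlinarith
  have hk1 : k ≤ 0.2267 := by rw [hkdef]; linarith
  have hv := gainF_val hc0 hc1 hk0 hk1
  have hcont : Continuous fun s : ℝ => exp (-s) * (1 - k * (exp (s / 4) - 1 - s / 4)) * (c * s ^ 2) -
      exp (-s) * (c * s ^ 2) ^ 2 / 2 := by fun_prop
  have hI : ∫ s in (0 : ℝ)..(16 / 3), (exp (-s) * (1 - k * (exp (s / 4) - 1 - s / 4)) * (c * s ^ 2) -
      exp (-s) * (c * s ^ 2) ^ 2 / 2) = gainF c k (16 / 3) - gainF c k 0 :=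
    intervalIntegral.integral_eq_sub_of_hasDerivAt (fun s _ => gainF_deriv c k s)
      (hcont.intervalIntegrable _ _)
  have hmono : ∫ s in (0 : ℝ)..(16 / 3), (exp (-s) * (1 - k * (exp (s / 4) - 1 - s / 4)) * (c * s ^ 2) -
      exp (-s) * (c * s ^ 2) ^ 2 / 2) ≤ ∫ s in (0 : ℝ)..(16 / 3),
      Phi α (s / n) ^ n * (1 - exp (-(0.41 * (α - 1) * V * s ^ 2 / 2))) := by
    refine intervalIntegral.integral_mono_on (by norm_num) (hcont.intervalIntegrable _ _) ?_ ?_
    · refine ContinuousOn.intervalIntegrable ?_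
      rw [uIcc_of_le (by norm_num)]
      refine ContinuousOn.mul (ContinuousOn.pow ?_ n) (by fun_prop)
      refine (Phi_continuousOn hα).comp (by fun_prop) ?_
      intro s hs
      exact div_nonneg hs.1 hnp.le
    · intro s hs
      have hs0 : 0 ≤ s := hs.1
      have hs1 : s ≤ 16 / 3 := hs.2
      set p : ℝ := c * s ^ 2 with hpdef
      have hp0 : 0 ≤ p := by positivity
      have ep : 0.41 * (α - 1) * V * s ^ 2 / 2 = p := by
        rw [hpdef, hcdef]; ring
      rw [ep]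
      have g1 : p - p ^ 2 / 2 ≤ 1 - exp (-p) := one_sub_exp_ge hp0
      have hs2 : s ^ 2 ≤ (16 / 3) ^ 2 := pow_le_pow_left₀ hs0 hs1 2
      have hp1 : p ≤ 1 := by
        calc p = c * s ^ 2 := rfl
          _ ≤ 0.01595 * (16 / 3) ^ 2 := mul_le_mul hc1 hs2 (by positivity) (by norm_num)
          _ ≤ 1 := by norm_num
      have g2 : 0 ≤ p - p ^ 2 / 2 := by nlinarith
      -- the size of `a`
      have hE : exp (s / 4) ≤ 3.8 := by
        have h1 : exp (s / 4) ≤ exp (4 / 3) := exp_le_exp.2 (by linarith)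
        have h2 : exp (4 / 3 : ℝ) = exp 1 * (exp (-(1 / 3 : ℝ)))⁻¹ := by
          rw [← exp_neg, ← exp_add]; congr 1; norm_num
        have h3 := exp_third_bounds.1
        have h4 := exp_one_lt_d9
        have h5 : (exp (-(1 / 3 : ℝ)))⁻¹ ≤ (0.7165 : ℝ)⁻¹ := inv_anti₀ (by norm_num) h3.le
        have h6 : exp 1 * (exp (-(1 / 3 : ℝ)))⁻¹ ≤ 2.7182818286 * (0.7165 : ℝ)⁻¹ :=
          mul_le_mul h4.le h5 (by positivity) (by norm_num)
        rw [h2] at h1
        refine h1.trans (h6.trans ?_)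
        norm_num
      have hE0 : 0 ≤ exp (s / 4) - 1 - s / 4 := by
        have := add_one_le_exp (s / 4)
        linarith
      set a : ℝ := 0.51 * (α - 1) * (exp (s / 4) - 1 - s / 4) with hadef
      have ha0 : 0 ≤ a := by
        have : 0 ≤ α - 1 := by linarith
        positivity
      have ha1 : 4 * a ≤ 1 := by
        have h1 : (α - 1) * (exp (s / 4) - 1 - s / 4) ≤ 1 / 9 * 2.8 :=
          mul_le_mul (by linarith) (by linarith) hE0 (by norm_num)
        rw [hadef, mul_assoc]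
        linarith
      have hcr := h.crude (s / 4) (by positivity)
      have e4 : exp (-(s / 4)) ^ 4 = exp (-s) := by
        rw [← exp_nat_mul]; congr 1; push_cast; ring
      have hb : 1 - 4 * a ≤ (1 - a) ^ 4 := by
        have := one_add_mul_le_pow (a := -a) (by linarith) 4
        have e : (1 + -a) ^ 4 = (1 - a) ^ 4 := by ring
        rw [e] at this
        push_cast at this
        linarith
      have g3 : exp (-s) * (1 - 4 * a) ≤ Phi α (s / n) ^ n := by
        calc exp (-s) * (1 - 4 * a) ≤ exp (-s) * (1 - a) ^ 4 :=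
              mul_le_mul_of_nonneg_left hb (exp_pos _).le
          _ = ((1 - a) * exp (-(s / 4))) ^ 4 := by rw [mul_pow, e4]; ring
          _ ≤ Phi α (s / 4) ^ 4 := by
              refine pow_le_pow_left₀ ?_ hcr 4
              have : 0 ≤ 1 - a := by linarith
              positivity
          _ ≤ Phi α (s / n) ^ n := h.pow_ge hn hs0 (by linarith)
      have ek : k * (exp (s / 4) - 1 - s / 4) = 4 * a := by rw [hkdef, hadef]; ring
      rw [ek]
      have hexp : 0 < exp (-s) := exp_pos _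
      calc exp (-s) * (1 - 4 * a) * p - exp (-s) * p ^ 2 / 2
          ≤ exp (-s) * (1 - 4 * a) * (p - p ^ 2 / 2) := by
            have h7 : 0 ≤ exp (-s) * (4 * a) * (p ^ 2 / 2) := by positivity
            have h8 : exp (-s) * (1 - 4 * a) * (p - p ^ 2 / 2) =
                exp (-s) * (1 - 4 * a) * p - exp (-s) * p ^ 2 / 2 +
                  exp (-s) * (4 * a) * (p ^ 2 / 2) := by ring
            rw [h8]
            exact le_add_of_nonneg_right h7
        _ ≤ Phi α (s / n) ^ n * (1 - exp (-p)) := by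
            have h0 : 0 ≤ exp (-s) * (1 - 4 * a) := mul_nonneg hexp.le (by linarith)
            exact mul_le_mul g3 g1 g2 (h0.trans g3)
  have e5 : 0.31 * (α - 1) * V ≤ 1.5122 * c := by
    have : 0 ≤ (α - 1) * V := mul_nonneg (by linarith) hV0
    rw [hcdef]
    nlinarith
  calc _ ≤ 1.5122 * c := e5
    _ ≤ _ := hv
    _ = _ := hI.symm
    _ ≤ _ := hmono

end LpSec.Nr
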