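import Mathlib
import Pool.Agent.Lib.MP_1dbab3_gt.WBase
import Pool.Agent.Lib.MP_1dbab3_gt.Nr.Def

/-!
# Near `α = 1`: the main piece and the tails of `J`
-/

open Real MeasureTheory Set Filter Topology

namespace LpSec.Nr

variable {α : ℝ}

theorem Near.al (h : Near α) : 0 < α - 1 := by linarith [h.one_lt]

theorem Near.z0 (h : Near α) : 0 < z1 α := by linarith [h.z4]

/-- Jensen on the main lobe -/
theorem Near.jensen (h : Near α) {n : ℕ} (hn : 0 < n) {x : Fin n → ℝ} (hx : ∀ i, 0 ≤ x i)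
    (h1 : ∑ i, x i = 1) {s : ℝ} (hs : 0 ≤ s) (hlt : ∀ i, x i * s < z1 α) :
    ∏ i, Phi α (x i * s) ≤ Phi α (s / n) ^ n *
      exp (-(0.41 * (α - 1) * (∑ i, x i ^ 2 - 1 / n) * s ^ 2 / 2)) := by
  have hn0 : (0 : ℝ) < n := by exact_mod_cast hn
  have hpos : ∀ i, 0 < Phi α (x i * s) := fun i => h.pos _ (mul_nonneg (hx i) hs) (hlt i)
  have hsum : ∑ i : Fin n, (1 / (n : ℝ)) * (x i * s) = s / n := by
    rw [← Finset.mul_sum, ← Finset.sum_mul, h1]
    ring
  have hsn : s / n < z1 α := by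
    rw [← hsum]
    have hlt' : ∑ i : Fin n, (1 / (n : ℝ)) * (x i * s) < ∑ _i : Fin n, (1 / (n : ℝ)) * z1 α := by
      have : Nonempty (Fin n) := ⟨⟨0, hn⟩⟩
      refine Finset.sum_lt_sum_of_nonempty Finset.univ_nonempty fun i _ => ?_
      exact mul_lt_mul_of_pos_left (hlt i) (by positivity)
    refine lt_of_lt_of_eq hlt' ?_
    rw [Finset.sum_const, Finset.card_univ, Fintype.card_fin, nsmul_eq_mul]
    field_simp
  have hPn : 0 < Phi α (s / n) := h.pos _ (by positivity) hsn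
  have hJ := h.conc.le_map_sum (t := Finset.univ) (w := fun _ : Fin n => 1 / (n : ℝ))
    (p := fun i => x i * s) (fun _ _ => by positivity)
    (by rw [Finset.sum_const, Finset.card_univ, Fintype.card_fin, nsmul_eq_mul]; field_simp)
    (fun i _ => ⟨mul_nonneg (hx i) hs, hlt i⟩)
  simp only [smul_eq_mul] at hJ
  rw [hsum, ← Finset.mul_sum, Finset.sum_add_distrib] at hJ
  have hsq : ∑ i, 0.41 * (α - 1) * (x i * s) ^ 2 / 2 =
      0.41 * (α - 1) * s ^ 2 / 2 * ∑ i, x i ^ 2 := by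
    rw [Finset.mul_sum]
    refine Finset.sum_congr rfl fun i _ => ?_
    ring
  rw [hsq] at hJ
  have hlog : ∑ i, log (Phi α (x i * s)) ≤ n * log (Phi α (s / n)) +
      -(0.41 * (α - 1) * (∑ i, x i ^ 2 - 1 / n) * s ^ 2 / 2) := by
    have h3 := mul_le_mul_of_nonneg_left hJ hn0.le
    rw [← mul_assoc, mul_one_div_cancel hn0.ne', one_mul] at h3
    have h4 : (n : ℝ) * (log (Phi α (s / n)) + 0.41 * (α - 1) * (s / n) ^ 2 / 2) =
        n * log (Phi α (s / n)) + 0.41 * (α - 1) * s ^ 2 / 2 * (1 / n) := by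
      field_simp
    rw [h4] at h3
    linarith
  have h5 : ∏ i, Phi α (x i * s) = exp (∑ i, log (Phi α (x i * s))) := by
    rw [exp_sum]
    exact Finset.prod_congr rfl fun i _ => (exp_log (hpos i)).symm
  rw [h5]
  refine (exp_le_exp.2 hlog).trans (le_of_eq ?_)
  rw [exp_add, ← exp_log hPn, ← exp_nat_mul, exp_log hPn]

theorem flat_int (hα : 1 < α) {n : ℕ} (hn : 2 ≤ n) :
    IntegrableOn (fun s => Phi α (s / n) ^ n) (Ioi 0) ∧
    vv α n = ∫ s in Ioi (0 : ℝ), Phi α (s / n) ^ n := by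
  have hn0 : (0 : ℝ) < n := by
    have : 0 < n := by omega
    exact_mod_cast this
  have hn1 : (1 : ℝ) < n := by
    have : 1 < n := by omega
    exact_mod_cast this
  have e : (fun s : ℝ => ∏ _i : Fin n, Phi α (1 / (n : ℝ) * s)) = fun s => Phi α (s / n) ^ n := by
    funext s
    rw [Finset.prod_const, Finset.card_univ, Fintype.card_fin]
    congr 2
    ring
  constructor
  · rw [← e]
    refine J_integrable hα (x := fun _ : Fin n => 1 / (n : ℝ)) (fun _ => by positivity) ?_ ?_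
    · rw [Finset.sum_const, Finset.card_univ, Fintype.card_fin, nsmul_eq_mul]
      field_simp
    · intro _
      rw [div_lt_one hn0]
      exact hn1
  · rw [← e]
    rfl

/-- factors on the tail -/
theorem Near.abs_le_exp_min (h : Near α) {s : ℝ} (hs : 0 ≤ s) :
    |Phi α s| ≤ exp (-min s 4) := by
  rcases le_total s (z1 α) with hz | hz
  · have h1 : 0 ≤ Phi α s := by
      rcases eq_or_lt_of_le hz with h2 | h2
      · rw [h2, h.zero]
      · exact (h.pos s hs h2).le
    rw [abs_of_nonneg h1]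
    refine (h.le_exp s hs hz).trans (exp_le_exp.2 ?_)
    have := min_le_left s 4
    linarith
  · refine (h.env15 s hz).trans ?_
    have h3 : min s 4 = 4 := min_eq_right (h.z4.le.trans hz)
    rw [h3, exp_neg, ← one_div, le_div_iff₀ (exp_pos 4)]
    have h4 : exp 4 ≤ 60 := by
      have h5 : exp (4 : ℝ) = exp 1 ^ 4 := by rw [← exp_nat_mul]; norm_num
      rw [h5]
      have h6 : exp (1 : ℝ) ≤ 2.72 := by
        have := Real.exp_one_lt_d9
        norm_num at this ⊢
        linarith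
      refine (pow_le_pow_left₀ (exp_pos 1).le h6 4).trans ?_
      norm_num
    have h7 := h.le
    have h8 := h.al
    calc 0.15 * (α - 1) * exp 4 ≤ 0.15 * (1 / 9) * 60 := by
          gcongr
          linarith
      _ ≤ 1 := by norm_num

/-- the product of all factors except `i`, `j` -/
theorem Near.rest_le (h : Near α) {n : ℕ} {x : Fin n → ℝ} (hx : ∀ i, 0 ≤ x i)
    (h1 : ∑ i, x i = 1) {i j : Fin n} (hij : i ≠ j) (hz0 : 0 < x j)
    (hk : ∀ k, k ≠ i → x k ≤ x j) {s : ℝ} (hs : 4 / x j ≤ s) :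
    ∏ k ∈ (Finset.univ.erase i).erase j, |Phi α (x k * s)| ≤
      exp (-(4 * (1 - x i - x j) / x j)) := by
  have hs0 : 0 ≤ s := le_trans (by positivity) hs
  have hsum : ∑ k ∈ (Finset.univ.erase i).erase j, x k = 1 - x i - x j := by
    have h2 := Finset.add_sum_erase Finset.univ x (Finset.mem_univ i)
    have h3 := Finset.add_sum_erase (Finset.univ.erase i) x
      (Finset.mem_erase.2 ⟨hij.symm, Finset.mem_univ j⟩)
    linarith
  have h4 : exp (-(4 * (1 - x i - x j) / x j)) =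
      ∏ k ∈ (Finset.univ.erase i).erase j, exp (-(4 * x k / x j)) := by
    rw [← exp_sum, ← hsum]
    congr 1
    rw [Finset.sum_neg_distrib, ← Finset.sum_div, ← Finset.mul_sum]
  rw [h4]
  refine Finset.prod_le_prod (fun k _ => abs_nonneg _) fun k hkm => ?_
  have hki : k ≠ i := (Finset.mem_erase.1 (Finset.mem_erase.1 hkm).2).1
  refine (h.abs_le_exp_min (mul_nonneg (hx k) hs0)).trans (exp_le_exp.2 (neg_le_neg ?_))
  refine le_min ?_ ?_
  · calc 4 * x k / x j = x k * (4 / x j) := by ring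
      _ ≤ x k * s := mul_le_mul_of_nonneg_left hs (hx k)
  · rw [div_le_iff₀ hz0]
    have := hk k hki
    linarith

/-- the product of all factors except `i` before the first zero of the second largest -/
theorem Near.rest_bounds (h : Near α) {n : ℕ} {x : Fin n → ℝ} (hx : ∀ i, 0 ≤ x i)
    (h1 : ∑ i, x i = 1) {i : Fin n} {s : ℝ} (hs : 0 ≤ s)
    (hk : ∀ k, k ≠ i → x k * s ≤ z1 α) :
    0 ≤ ∏ k ∈ Finset.univ.erase i, Phi α (x k * s) ∧
    ∏ k ∈ Finset.univ.erase i, Phi α (x k * s) ≤ exp (-((1 - x i) * s)) := by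
  have hnn : ∀ k ∈ Finset.univ.erase i, 0 ≤ Phi α (x k * s) := by
    intro k hkm
    have hki : k ≠ i := (Finset.mem_erase.1 hkm).1
    rcases eq_or_lt_of_le (hk k hki) with h2 | h2
    · rw [h2, h.zero]
    · exact (h.pos _ (mul_nonneg (hx k) hs) h2).le
  refine ⟨Finset.prod_nonneg hnn, ?_⟩
  have h4 : exp (-((1 - x i) * s)) = ∏ k ∈ Finset.univ.erase i, exp (-(x k * s)) := by
    rw [← exp_sum]
    congr 1
    have h2 := Finset.add_sum_erase Finset.univ x (Finset.mem_univ i)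
    rw [Finset.sum_neg_distrib, ← Finset.sum_mul]
    congr 2
    linarith
  rw [h4]
  exact Finset.prod_le_prod hnn fun k hkm =>
    h.le_exp _ (mul_nonneg (hx k) hs) (hk k (Finset.mem_erase.1 hkm).1)

/-- pointwise bound past `z1 / x j` -/
theorem Near.tail_pt (h : Near α) {n : ℕ} {x : Fin n → ℝ} (hx : ∀ i, 0 ≤ x i)
    (h1 : ∑ i, x i = 1) {i j : Fin n} (hij : i ≠ j) (hz0 : 0 < x j) (hji : x j ≤ x i)
    (hk : ∀ k, k ≠ i → x k ≤ x j) {s : ℝ} (hs : z1 α / x j ≤ s) :
    |∏ k, Phi α (x k * s)| ≤ 0.64 * (α - 1) ^ 2 / (x i * x j) *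
      exp (-(4 * (1 - x i - x j) / x j)) * s ^ (-2 : ℝ) := by
  have hy0 : 0 < x i := hz0.trans_le hji
  have hs4 : 4 / x j ≤ s := (div_le_div_of_nonneg_right h.z4.le hz0.le).trans hs
  have hs0 : 0 < s := lt_of_lt_of_le (by positivity) hs4
  have hal := h.al
  have hzj : z1 α ≤ x j * s := by
    rw [div_le_iff₀ hz0] at hs
    linarith
  have hzi : z1 α ≤ x i * s := hzj.trans (mul_le_mul_of_nonneg_right hji hs0.le)
  rw [Finset.abs_prod, ← Finset.mul_prod_erase Finset.univ (fun k => |Phi α (x k * s)|)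
      (Finset.mem_univ i), ← Finset.mul_prod_erase (Finset.univ.erase i)
      (fun k => |Phi α (x k * s)|) (Finset.mem_erase.2 ⟨hij.symm, Finset.mem_univ j⟩)]
  have e1 := h.env _ hzi
  have e2 := h.env _ hzj
  have e3 := h.rest_le hx h1 hij hz0 hk hs4
  have e4 : |Phi α (x j * s)| * ∏ k ∈ (Finset.univ.erase i).erase j, |Phi α (x k * s)| ≤
      0.8 * (α - 1) / (x j * s) * exp (-(4 * (1 - x i - x j) / x j)) :=
    mul_le_mul e2 e3 (Finset.prod_nonneg fun k _ => abs_nonneg _) (by positivity)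
  have e5 := mul_le_mul e1 e4
    (mul_nonneg (abs_nonneg _) (Finset.prod_nonneg fun k _ => abs_nonneg _))
    (by positivity : 0 ≤ 0.8 * (α - 1) / (x i * s))
  refine e5.trans (le_of_eq ?_)
  rw [rpow_neg hs0.le, rpow_two]
  field_simp
  ring

/-- integral over the last piece -/
theorem Near.tail_int (h : Near α) {n : ℕ} {x : Fin n → ℝ} (hx : ∀ i, 0 ≤ x i)
    (h1 : ∑ i, x i = 1) {i j : Fin n} (hij : i ≠ j) (hz0 : 0 < x j) (hji : x j ≤ x i)
    (hk : ∀ k, k ≠ i → x k ≤ x j) :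
    ∫ s in Ioi (z1 α / x j), ∏ k, Phi α (x k * s) ≤ 0.16 * (α - 1) ^ 2 / x i *
      exp (-(4 * (1 - x i - x j) / x j)) := by
  have hy0 : 0 < x i := hz0.trans_le hji
  have hal := h.al
  have hz := h.z0
  have hS : 0 < z1 α / x j := by positivity
  set c := 0.64 * (α - 1) ^ 2 / (x i * x j) * exp (-(4 * (1 - x i - x j) / x j)) with hc
  have hc0 : 0 ≤ c := by rw [hc]; positivity
  have hint : IntegrableOn (fun s : ℝ => c * s ^ (-2 : ℝ)) (Ioi (z1 α / x j)) :=
    (integrableOn_Ioi_rpow_of_lt (by norm_num) hS).const_mul c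
  have h3 : ∫ s in Ioi (z1 α / x j), ∏ k, Phi α (x k * s) ≤
      ∫ s in Ioi (z1 α / x j), c * s ^ (-2 : ℝ) := by
    refine setIntegral_mono_on ?_ hint measurableSet_Ioi fun s hs => ?_
    · exact (prod_integrable_pair h.one_lt hx hij hy0 hz0).mono_set (Ioi_subset_Ioi hS.le)
    · exact (le_abs_self _).trans (h.tail_pt hx h1 hij hz0 hji hk (le_of_lt hs))
  refine h3.trans ?_
  rw [integral_const_mul, integral_Ioi_rpow_of_lt (by norm_num) hS]
  have e : -(z1 α / x j) ^ ((-2 : ℝ) + 1) / ((-2 : ℝ) + 1) = x j / z1 α := by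
    have : ((-2 : ℝ) + 1) = -1 := by norm_num
    rw [this, rpow_neg_one, neg_div_neg_eq, div_one, inv_div]
  rw [e]
  have h4 : x j / z1 α ≤ x j / 4 := div_le_div_of_nonneg_left hz0.le (by norm_num) h.z4.le
  refine (mul_le_mul_of_nonneg_left h4 hc0).trans (le_of_eq ?_)
  rw [hc]
  field_simp
  norm_num

/-- the piece between the zeros of the two largest -/
theorem Near.mid_int (h : Near α) {n : ℕ} {x : Fin n → ℝ} (hx : ∀ i, 0 ≤ x i)
    (h1 : ∑ i, x i = 1) {i j : Fin n} (hij : i ≠ j) (hz0 : 0 < x j) (hji : x j ≤ x i)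
    (hk : ∀ k, k ≠ i → x k ≤ x j) (hy1 : x i < 1) :
    ∫ s in (z1 α / x i)..(z1 α / x j), ∏ k, Phi α (x k * s) ≤
      0.8 * (α - 1) / 7 * exp (-(7 * (1 / x i - 1))) / (1 - x i) := by
  have hy0 : 0 < x i := hz0.trans_le hji
  have hal := h.al
  have hz := h.z0
  have hS : z1 α / x i ≤ z1 α / x j := div_le_div_of_nonneg_left hz.le hz0 hji
  have hS0 : 0 < z1 α / x i := by positivity
  have hb : 0 < 1 - x i := by linarith
  set G : ℝ → ℝ := (Ioi (7 / x i)).indicator (fun s => 0.8 * (α - 1) / 7 *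
    exp (-(1 - x i) * s)) with hG
  have hE : IntegrableOn (fun s => 0.8 * (α - 1) / 7 * exp (-(1 - x i) * s)) (Ioi (7 / x i)) :=
    (integrableOn_exp_mul_Ioi (by linarith) _).const_mul _
  have hGi : Integrable G := (integrable_indicator_iff measurableSet_Ioi).2 hE
  have hG0 : ∀ s, 0 ≤ G s := fun s => indicator_nonneg (fun s _ => by positivity) s
  have hpt : ∀ s ∈ Ioc (z1 α / x i) (z1 α / x j), ∏ k, Phi α (x k * s) ≤ G s := by
    intro s hs
    have hs0 : 0 < s := hS0.trans hs.1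
    have hzi : z1 α ≤ x i * s := by
      have := (div_lt_iff₀ hy0).1 hs.1
      linarith
    have hzj : x j * s ≤ z1 α := by
      have := (le_div_iff₀ hz0).1 hs.2
      linarith
    obtain ⟨r0, r1⟩ := h.rest_bounds hx h1 (i := i) hs0.le (fun k hki =>
      (mul_le_mul_of_nonneg_right (hk k hki) hs0.le).trans hzj)
    rw [← Finset.mul_prod_erase Finset.univ (fun k => Phi α (x k * s)) (Finset.mem_univ i)]
    by_cases h7 : x i * s ≤ 7
    · exact (mul_nonpos_of_nonpos_of_nonneg (h.neg7 _ hzi h7) r0).trans (hG0 s)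
    · push Not at h7
      have hmem : s ∈ Ioi (7 / x i) := by
        rw [mem_Ioi, div_lt_iff₀ hy0]
        linarith
      rw [hG, indicator_of_mem hmem]
      have e1 : Phi α (x i * s) ≤ 0.8 * (α - 1) / 7 :=
        (le_abs_self _).trans ((h.env _ hzi).trans
          (div_le_div_of_nonneg_left (by positivity) (by norm_num) h7.le))
      have e2 : -(1 - x i) * s = -((1 - x i) * s) := by ring
      rw [e2]
      calc Phi α (x i * s) * ∏ k ∈ Finset.univ.erase i, Phi α (x k * s)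
          ≤ 0.8 * (α - 1) / 7 * ∏ k ∈ Finset.univ.erase i, Phi α (x k * s) :=
            mul_le_mul_of_nonneg_right e1 r0
        _ ≤ _ := mul_le_mul_of_nonneg_left r1 (by positivity)
  rw [intervalIntegral.integral_of_le hS]
  have hfi : IntegrableOn (fun s => ∏ k, Phi α (x k * s)) (Ioc (z1 α / x i) (z1 α / x j)) :=
    (prod_integrable_pair h.one_lt hx hij hy0 hz0).mono_set
      (fun s hs => hS0.trans hs.1)
  calc ∫ s in Ioc (z1 α / x i) (z1 α / x j), ∏ k, Phi α (x k * s)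
      ≤ ∫ s in Ioc (z1 α / x i) (z1 α / x j), G s :=
        setIntegral_mono_on hfi hGi.integrableOn measurableSet_Ioc hpt
    _ ≤ ∫ s, G s := setIntegral_le_integral hGi (Eventually.of_forall hG0)
    _ = ∫ s in Ioi (7 / x i), 0.8 * (α - 1) / 7 * exp (-(1 - x i) * s) :=
        integral_indicator measurableSet_Ioi
    _ = _ := by
        rw [integral_const_mul, integral_exp_mul_Ioi (by linarith)]
        have e3 : -(1 - x i) * (7 / x i) = -(7 * (1 / x i - 1)) := by
          field_simp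
        rw [e3, neg_div_neg_eq]
        ring

/-- the main piece -/
theorem Near.main_int (h : Near α) {n : ℕ} (hn : 0 < n) {x : Fin n → ℝ} (hx : ∀ i, 0 ≤ x i)
    (h1 : ∑ i, x i = 1) {S : ℝ} (hS : 0 ≤ S) (hlt : ∀ s, 0 ≤ s → s < S → ∀ i, x i * s < z1 α) :
    ∫ s in (0 : ℝ)..S, ∏ k, Phi α (x k * s) ≤
      ∫ s in (0 : ℝ)..S, Phi α (s / n) ^ n *
        exp (-(0.41 * (α - 1) * (∑ i, x i ^ 2 - 1 / n) * s ^ 2 / 2)) := by
  have c1 : ContinuousOn (fun s => ∏ k, Phi α (x k * s)) (Icc 0 S) :=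
    (prod_continuousOn h.one_lt hx).mono fun s hs => hs.1
  have c2 : ContinuousOn (fun s => Phi α (s / n) ^ n *
        exp (-(0.41 * (α - 1) * (∑ i, x i ^ 2 - 1 / n) * s ^ 2 / 2))) (Icc 0 S) := by
    refine ContinuousOn.mul (ContinuousOn.pow ?_ n) (by fun_prop)
    refine (Phi_continuousOn h.one_lt).comp (by fun_prop) fun s hs => ?_
    have : (0 : ℝ) ≤ s / n := div_nonneg hs.1 (Nat.cast_nonneg n)
    exact this
  refine intervalIntegral.integral_mono_on_of_le_Ioo hS
    (by rw [← uIcc_of_le hS] at c1; exact c1.intervalIntegrable)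
    (by rw [← uIcc_of_le hS] at c2; exact c2.intervalIntegrable) fun s hs => ?_
  exact h.jensen hn hx h1 hs.1.le (hlt s hs.1.le hs.2)

theorem flat_cont (hα : 1 < α) (n : ℕ) : ContinuousOn (fun s => Phi α (s / n) ^ n) (Ici 0) := by
  refine ContinuousOn.pow ?_ n
  refine (Phi_continuousOn hα).comp (by fun_prop) fun s hs => ?_
  have h0 : (0 : ℝ) ≤ s := hs
  have : (0 : ℝ) ≤ s / n := div_nonneg h0 (Nat.cast_nonneg n)
  exact this

theorem Near.flat_nonneg (h : Near α) {n : ℕ} (hn : 0 < n) {s : ℝ} (h0 : 0 ≤ s)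
    (hs : s ≤ n * z1 α) : 0 ≤ Phi α (s / n) ^ n := by
  have hn0 : (0 : ℝ) < n := by exact_mod_cast hn
  refine pow_nonneg ?_ n
  have h2 : s / n ≤ z1 α := by
    rw [div_le_iff₀ hn0]
    linarith
  rcases eq_or_lt_of_le h2 with h3 | h3
  · rw [h3, h.zero]
  · exact (h.pos _ (by positivity) h3).le

/-- the value at the flat point from its main part -/
theorem Near.vv_lob (h : Near α) {n : ℕ} (hn : 4 ≤ n) {S : ℝ} (hS0 : 0 ≤ S)
    (hS : S ≤ n * z1 α) : (∫ s in (0 : ℝ)..S, Phi α (s / n) ^ n) - (α - 1) *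
      (if Even n then 0 else 0.8 * n / (n - 1) * (0.2 * (α - 1)) ^ (n - 1)) ≤ vv α n := by
  have hn0 : (0 : ℝ) < n := by
    have : 0 < n := by omega
    exact_mod_cast this
  have hn4 : (4 : ℝ) ≤ n := by exact_mod_cast hn
  have hz := h.z0
  have hal := h.al
  obtain ⟨hi, hv⟩ := flat_int h.one_lt (n := n) (by omega)
  have hT : 0 < n * z1 α := by positivity
  have e1 := intervalIntegral.integral_interval_add_Ioi hi (hi.mono_set (Ioi_subset_Ioi hT.le))
  have hii : ∀ a b : ℝ, 0 ≤ a → 0 ≤ b →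
      IntervalIntegrable (fun s => Phi α (s / n) ^ n) volume a b := fun a b ha hb =>
    ((flat_cont h.one_lt n).mono fun s hs => (le_min ha hb).trans hs.1).intervalIntegrable
  have e2 := intervalIntegral.integral_add_adjacent_intervals (hii 0 S le_rfl hS0)
    (hii S (n * z1 α) hS0 hT.le)
  have e3 : 0 ≤ ∫ s in S..(n * z1 α), Phi α (s / n) ^ n :=
    intervalIntegral.integral_nonneg hS fun s hs =>
      h.flat_nonneg (by omega) (hS0.trans hs.1) hs.2
  have e4 : -((α - 1) * (if Even n then 0 else 0.8 * n / (n - 1) * (0.2 * (α - 1)) ^ (n - 1))) ≤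
      ∫ s in Ioi (n * z1 α), Phi α (s / n) ^ n := by
    split_ifs with he
    · rw [mul_zero, neg_zero]
      exact setIntegral_nonneg measurableSet_Ioi fun s _ => he.pow_nonneg _
    · have hint : IntegrableOn (fun s : ℝ => -((0.8 * (α - 1) * n) ^ n * s ^ (-(n : ℝ))))
          (Ioi (n * z1 α)) :=
        ((integrableOn_Ioi_rpow_of_lt (by linarith) hT).const_mul _).neg
      have h3 : ∫ s in Ioi (n * z1 α), -((0.8 * (α - 1) * n) ^ n * s ^ (-(n : ℝ))) ≤
          ∫ s in Ioi (n * z1 α), Phi α (s / n) ^ n := by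
        refine setIntegral_mono_on hint (hi.mono_set (Ioi_subset_Ioi hT.le)) measurableSet_Ioi
          fun s hs => ?_
        have hs0 : 0 < s := hT.trans hs
        have hzs : z1 α ≤ s / n := by
          rw [le_div_iff₀ hn0]
          rw [mem_Ioi] at hs
          linarith
        have h4 := h.env _ hzs
        have h5 : |Phi α (s / n) ^ n| ≤ (0.8 * (α - 1) * n) ^ n * s ^ (-(n : ℝ)) := by
          rw [abs_pow, rpow_neg hs0.le, rpow_natCast, ← div_eq_mul_inv, ← div_pow]
          refine pow_le_pow_left₀ (abs_nonneg _) (h4.trans (le_of_eq ?_)) n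
          field_simp
        exact (abs_le.1 h5).1
      refine le_trans ?_ h3
      rw [integral_neg, integral_const_mul, integral_Ioi_rpow_of_lt (by linarith) hT]
      refine neg_le_neg ?_
      obtain ⟨m, rfl⟩ : ∃ m, n = m + 1 := ⟨n - 1, by omega⟩
      rw [Nat.add_sub_cancel]
      have e5 : (-((m + 1 : ℕ) : ℝ) + 1) = -(m : ℝ) := by push_cast; ring
      rw [e5, neg_div_neg_eq, rpow_neg hT.le, rpow_natCast]
      have hm0 : (0 : ℝ) < m := by
        have : 0 < m := by omega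
        exact_mod_cast this
      have e6 : (((m + 1 : ℕ) : ℝ) - 1) = m := by push_cast; ring
      rw [e6]
      have h6 : (((m + 1 : ℕ) : ℝ) * z1 α) ^ m ≥ (((m + 1 : ℕ) : ℝ) * 4) ^ m :=
        pow_le_pow_left₀ (by positivity) (mul_le_mul_of_nonneg_left h.z4.le (by positivity)) m
      have h7 : ((((m + 1 : ℕ) : ℝ) * z1 α) ^ m)⁻¹ ≤ ((((m + 1 : ℕ) : ℝ) * 4) ^ m)⁻¹ :=
        inv_anti₀ (by positivity) h6
      calc (0.8 * (α - 1) * ((m + 1 : ℕ) : ℝ)) ^ (m + 1) * (((((m + 1 : ℕ) : ℝ) * z1 α) ^ m)⁻¹ / m)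
          ≤ (0.8 * (α - 1) * ((m + 1 : ℕ) : ℝ)) ^ (m + 1) *
            (((((m + 1 : ℕ) : ℝ) * 4) ^ m)⁻¹ / m) := by gcongr
        _ = (α - 1) * (0.8 * ((m + 1 : ℕ) : ℝ) / m * (0.2 * (α - 1)) ^ m) := by
            have e7 : (0.2 : ℝ) * (α - 1) = 0.8 * (α - 1) * ((m + 1 : ℕ) : ℝ) /
                (((m + 1 : ℕ) : ℝ) * 4) := by
              have : (0 : ℝ) < ((m + 1 : ℕ) : ℝ) := by positivity
              field_simp
              norm_num
            rw [e7, div_pow, pow_succ]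
            field_simp
  rw [hv]
  linarith

end LpSec.Nr
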