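import Mathlib

/-!
# Near `α = 1`: the numerical inequality away from the flat point
-/

open Real

namespace LpSec.Nr

theorem fn_exp_le {x c : ℝ} (h0 : 0 ≤ x) (N : ℕ) (hc : 0 < c)
    (h : 1 ≤ c * ∑ k ∈ Finset.range N, x ^ k / k.factorial) : exp (-x) ≤ c := by
  have h1 := Real.sum_le_exp_of_nonneg h0 N
  have h2 : 1 ≤ c * exp x := h.trans (mul_le_mul_of_nonneg_left h1 hc.le)
  rw [exp_neg, ← one_div, div_le_iff₀ (exp_pos x)]
  exact h2

theorem fn_V_two {n : ℝ} (hn : 4 ≤ n) {y z : ℝ} :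
    (y - z) ^ 2 / 2 ≤ y ^ 2 + z ^ 2 + (1 - y - z) ^ 2 / (n - 2) - 1 / n := by
  have h1 : (0 : ℝ) < n - 2 := by linarith
  have h2 : (0 : ℝ) < n := by linarith
  have e : y ^ 2 + z ^ 2 + (1 - y - z) ^ 2 / (n - 2) - 1 / n - (y - z) ^ 2 / 2 =
      ((1 - y - z) * n - (n - 2)) ^ 2 / (2 * n * (n - 2)) := by
    field_simp
    ring
  have : 0 ≤ ((1 - y - z) * n - (n - 2)) ^ 2 / (2 * n * (n - 2)) := by positivity
  linarith

theorem fn_V_one {n : ℝ} (hn : 4 ≤ n) {y z : ℝ} :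
    (y - 1 / n) ^ 2 ≤ y ^ 2 + z ^ 2 + (1 - y - z) ^ 2 / (n - 2) - 1 / n := by
  have h1 : (0 : ℝ) < n - 2 := by linarith
  have h2 : (0 : ℝ) < n := by linarith
  have h3 : (0 : ℝ) < n - 1 := by linarith
  have e : y ^ 2 + z ^ 2 + (1 - y - z) ^ 2 / (n - 2) - 1 / n =
      (y - 1 / n) ^ 2 + (y - 1 / n) ^ 2 / (n - 1) +
      ((n - 2) * z - (1 - y - z)) ^ 2 / ((n - 1) * (n - 2)) := by
    field_simp
    ring
  have i1 : 0 ≤ (y - 1 / n) ^ 2 / (n - 1) := by positivity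
  have i2 : 0 ≤ ((n - 2) * z - (1 - y - z)) ^ 2 / ((n - 1) * (n - 2)) := by positivity
  linarith

theorem fn_V_four {n : ℝ} (hn : 4 ≤ n) {y z : ℝ} (hyz : y + z ≤ 1) (h : 1 / 2 ≤ y + z) :
    4 / 3 * (y - 1 / 4) ^ 2 + 3 / 2 * (z - (1 - y) / 3) ^ 2 ≤
      y ^ 2 + z ^ 2 + (1 - y - z) ^ 2 / (n - 2) - 1 / n := by
  have h1 : (0 : ℝ) < n - 2 := by linarith
  have h2 : (0 : ℝ) < n := by linarith
  have hw : (1 - y - z) ^ 2 ≤ 1 / 4 := by nlinarith
  have e : y ^ 2 + z ^ 2 + (1 - y - z) ^ 2 / (n - 2) - 1 / n -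
      (4 / 3 * (y - 1 / 4) ^ 2 + 3 / 2 * (z - (1 - y) / 3) ^ 2) =
      (n - 4) * (n * (1 - 4 * (1 - y - z) ^ 2) + (n - 4)) / (8 * n * (n - 2)) +
      (n - 4) * (1 - 4 * (1 - y - z) ^ 2) * 0 := by
    field_simp
    ring
  have i1 : 0 ≤ (n - 4) * (n * (1 - 4 * (1 - y - z) ^ 2) + (n - 4)) / (8 * n * (n - 2)) := by
    have : 0 ≤ 1 - 4 * (1 - y - z) ^ 2 := by linarith
    have : 0 ≤ n - 4 := by linarith
    positivity
  linarith

/-! ## the two exponential terms -/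

theorem fn_T2 {y b c : ℝ} (h0 : 0 < y) (hyb : y ≤ b) (hb : b < 1) (N : ℕ) (hc : 0 < c)
    (h : 1 ≤ c * ∑ k ∈ Finset.range N, (7 * (1 / b - 1)) ^ k / k.factorial) :
    0.8 / 7 * exp (-(7 * (1 / y - 1))) / (1 - y) ≤ 0.8 / 7 * c / (1 - b) := by
  have hb0 : 0 < b := h0.trans_le hyb
  have h1 : 1 / b ≤ 1 / y := one_div_le_one_div_of_le h0 hyb
  have h2 : 1 ≤ 1 / b := by rw [le_div_iff₀ hb0]; linarith
  have h3 : exp (-(7 * (1 / y - 1))) ≤ exp (-(7 * (1 / b - 1))) := exp_le_exp.2 (by linarith)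
  have h4 := fn_exp_le (x := 7 * (1 / b - 1)) (by linarith) N hc h
  have h5 : 0 < 1 - b := by linarith
  have h6 := exp_pos (-(7 * (1 / y - 1)))
  calc 0.8 / 7 * exp (-(7 * (1 / y - 1))) / (1 - y)
      ≤ 0.8 / 7 * c / (1 - y) := by
        have : 0 < 1 - y := by linarith
        have h7 := h3.trans h4
        gcongr
    _ ≤ _ := by
        refine div_le_div_of_nonneg_left (by positivity) h5 (by linarith)

theorem fn_G {y z a : ℝ} (ha : 0 < a) (hay : a ≤ y) (hz : 0 < z) (hyz : y + z ≤ 1) :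
    0.0178 / y * exp (-(4 * (1 - y - z) / z)) ≤ 0.0178 / a * (z / (4 * (1 - y) - 3 * z)) := by
  have hy : 0 < y := ha.trans_le hay
  have h1 : 0 ≤ 4 * (1 - y - z) / z := by
    have : 0 ≤ 1 - y - z := by linarith
    positivity
  have h2 : exp (-(4 * (1 - y - z) / z)) ≤ z / (4 * (1 - y) - 3 * z) := by
    have h3 := add_one_le_exp (4 * (1 - y - z) / z)
    have h4 : 0 < 4 * (1 - y) - 3 * z := by linarith
    rw [exp_neg, ← one_div, div_le_div_iff₀ (exp_pos _) h4]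
    have h5 : z * (4 * (1 - y - z) / z + 1) = 4 * (1 - y) - 3 * z := by
      field_simp
      ring
    have h6 := mul_le_mul_of_nonneg_left h3 hz.le
    linarith
  have h7 : 0.0178 / y ≤ 0.0178 / a := div_le_div_of_nonneg_left (by norm_num) ha hay
  exact mul_le_mul h7 h2 (exp_pos _).le (by positivity)

theorem fn_frac {y z : ℝ} (hz : 0 < z) (hyz : y + z ≤ 1) :
    z / (4 * (1 - y) - 3 * z) ≤ 1 := by
  have h4 : 0 < 4 * (1 - y) - 3 * z := by linarith
  rw [div_le_one h4]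
  linarith

/-- the two terms for `y ≤ 2/5` -/
theorem fn_small {y z : ℝ} (hy0 : 0 < y) (hy : y ≤ 2 / 5) (hz : 0 < z) (hzy : z ≤ y) :
    0.0178 / y * exp (-(4 * (1 - y - z) / z)) + 0.8 / 7 * exp (-(7 * (1 / y - 1))) / (1 - y) ≤
      0.01784 * (1 / y * exp (-(4 * (1 / y) - 8))) := by
  have hu : 5 / 2 ≤ 1 / y := by rw [le_div_iff₀ hy0]; linarith
  have h1 : 4 * (1 / y) - 8 ≤ 4 * (1 - y - z) / z := by
    rw [le_div_iff₀ hz]
    have e : (4 * (1 / y) - 8) * y = 4 - 8 * y := by field_simp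
    have h2 : 0 ≤ 4 * (1 / y) - 8 := by linarith
    have h3 := mul_le_mul_of_nonneg_left hzy h2
    linarith
  have h2 : exp (-(4 * (1 - y - z) / z)) ≤ exp (-(4 * (1 / y) - 8)) :=
    exp_le_exp.2 (neg_le_neg h1)
  have h3 : 0.0178 / y * exp (-(4 * (1 - y - z) / z)) ≤
      0.0178 * (1 / y * exp (-(4 * (1 / y) - 8))) := by
    have : 0.0178 * (1 / y * exp (-(4 * (1 / y) - 8))) =
        0.0178 / y * exp (-(4 * (1 / y) - 8)) := by ring
    rw [this]
    exact mul_le_mul_of_nonneg_left h2 (by positivity)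
  have h4 : exp (-(7 * (1 / y - 1))) = exp (-(4 * (1 / y) - 8)) * exp (-(3 * (1 / y) + 1)) := by
    rw [← exp_add]
    congr 1
    ring
  have h5 : exp (-(3 * (1 / y) + 1)) ≤ 21 / 100000 := by
    have h6 : exp (-(3 * (1 / y) + 1)) ≤ exp (-(17 / 2)) := exp_le_exp.2 (by linarith)
    refine h6.trans (fn_exp_le (by norm_num) 22 (by norm_num) ?_)
    norm_num [Finset.sum_range_succ, Nat.factorial]
  have h6 : 0.8 / 7 * exp (-(7 * (1 / y - 1))) / (1 - y) ≤
      0.00004 * (1 / y * exp (-(4 * (1 / y) - 8))) := by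
    rw [h4]
    have h7 := exp_pos (-(4 * (1 / y) - 8))
    have h8 : 0 < 1 - y := by linarith
    rw [div_le_iff₀ h8]
    have h9 : 0.8 / 7 * exp (-(3 * (1 / y) + 1)) ≤ 0.00004 * (1 / y) * (1 - y) := by
      have e : 0.00004 * (1 / y) * (1 - y) = 4 / 100000 * (1 / y - 1) := by
        field_simp
        norm_num
      rw [e]
      have e2 : (0.8 : ℝ) / 7 = 4 / 35 := by norm_num
      rw [e2]
      linarith
    have h10 := mul_le_mul_of_nonneg_left h9 h7.le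
    linarith
  linarith

theorem fn_mono {y b : ℝ} (h0 : 0 < y) (hyb : y ≤ b) (hb : b ≤ 4) :
    1 / y * exp (-(4 * (1 / y) - 8)) ≤ 1 / b * exp (-(4 * (1 / b) - 8)) := by
  have hb0 : 0 < b := h0.trans_le hyb
  set u := 1 / y with hu
  set u0 := 1 / b with hu0
  have h1 : u0 ≤ u := one_div_le_one_div_of_le h0 hyb
  have h2 : 1 / 4 ≤ u0 := by
    rw [hu0]
    exact one_div_le_one_div_of_le hb0 hb
  have h3 := add_one_le_exp (4 * (u - u0))
  have e : exp (-(4 * u0 - 8)) = exp (-(4 * u - 8)) * exp (4 * (u - u0)) := by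
    rw [← exp_add]
    congr 1
    ring
  rw [e]
  have h4 := exp_pos (-(4 * u - 8))
  have h5 : u ≤ u0 * exp (4 * (u - u0)) := by nlinarith
  calc u * exp (-(4 * u - 8)) ≤ u0 * exp (4 * (u - u0)) * exp (-(4 * u - 8)) :=
        mul_le_mul_of_nonneg_right h5 h4.le
    _ = _ := by ring

/-- value of the majorant at the right end of a cell -/
theorem fn_cell {y b c : ℝ} (h0 : 0 < y) (hyb : y ≤ b) (hb : b ≤ 2 / 5) (N : ℕ) (hc : 0 < c)
    (h : 1 ≤ c * ∑ k ∈ Finset.range N, (4 * (1 / b) - 8) ^ k / k.factorial) :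
    1 / y * exp (-(4 * (1 / y) - 8)) ≤ 1 / b * c := by
  have hb0 : 0 < b := h0.trans_le hyb
  refine (fn_mono h0 hyb (by linarith)).trans ?_
  have hu : 5 / 2 ≤ 1 / b := by rw [le_div_iff₀ hb0]; linarith
  exact mul_le_mul_of_nonneg_left (fn_exp_le (by linarith) N hc h) (by positivity)

theorem fn_cube {y : ℝ} (h0 : 0 < y) (hy : y ≤ 1 / 4) :
    1 / y * exp (-(4 * (1 / y) - 8)) ≤ 0.0219 * y ^ 2 := by
  have hu : 4 ≤ 1 / y := by rw [le_div_iff₀ h0]; linarith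
  obtain ⟨u, hu'⟩ : ∃ u, u = 1 / y := ⟨_, rfl⟩
  rw [← hu'] at hu ⊢
  have hy2 : y ^ 2 = 1 / u ^ 2 := by rw [hu']; field_simp
  have hu0 : 0 < u := by linarith
  rw [hy2]
  have h3 : u / 4 ≤ exp (4 / 3 * (u - 4)) := by
    have := add_one_le_exp (4 / 3 * (u - 4))
    linarith
  have h4 : (u / 4) ^ 3 ≤ exp (4 * (u - 4)) := by
    have h5 := pow_le_pow_left₀ (by positivity) h3 3
    rw [← exp_nat_mul] at h5
    refine h5.trans (le_of_eq ?_)
    congr 1
    push_cast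
    ring
  have h5 : exp (-8) ≤ 0.000342 := by
    refine fn_exp_le (by norm_num) 22 (by norm_num) ?_
    norm_num [Finset.sum_range_succ, Nat.factorial]
  have e : exp (-(4 * u - 8)) * exp (4 * (u - 4)) = exp (-8) := by
    rw [← exp_add]
    congr 1
    ring
  have h6 := exp_pos (-(4 * u - 8))
  have h7 : (u / 4) ^ 3 * exp (-(4 * u - 8)) ≤ 0.000342 := by
    calc (u / 4) ^ 3 * exp (-(4 * u - 8)) ≤ exp (4 * (u - 4)) * exp (-(4 * u - 8)) :=
          mul_le_mul_of_nonneg_right h4 h6.le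
      _ = exp (-8) := by rw [mul_comm, e]
      _ ≤ _ := h5
  rw [← mul_div_assoc, mul_one, le_div_iff₀ (by positivity)]
  have e2 : u * exp (-(4 * u - 8)) * u ^ 2 = 64 * ((u / 4) ^ 3 * exp (-(4 * u - 8))) := by ring
  rw [e2]
  norm_num at h7 ⊢
  linarith

/-- `y ≤ 2/5`, `n = 4` -/
theorem fn_four {y z V : ℝ} (hy0 : 0 < y) (hy : y ≤ 2 / 5) (hz : 0 < z) (hzy : z ≤ y)
    (hV : 4 / 3 * (y - 1 / 4) ^ 2 ≤ V) (hV2 : 0.0003 ≤ V) :
    0.0178 / y * exp (-(4 * (1 - y - z) / z)) + 0.8 / 7 * exp (-(7 * (1 / y - 1))) / (1 - y) ≤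
      0.3068 * V := by
  refine (fn_small hy0 hy hz hzy).trans ?_
  rcases le_total y (27 / 100) with hb0 | hb0
  · have h5 := fn_cell hy0 hb0 (by norm_num) 26 (show (0 : ℝ) < 0.0011 by norm_num)
      (by norm_num [Finset.sum_range_succ, Nat.factorial])
    norm_num at h5 hV2 ⊢
    linarith
  rcases le_total y (28 / 100) with hb1 | hb1
  · have h5 := fn_cell hy0 hb1 (by norm_num) 26 (show (0 : ℝ) < 0.00187 by norm_num)
      (by norm_num [Finset.sum_range_succ, Nat.factorial])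
    have h6 : (27 / 100 - 1 / 4 : ℝ) ^ 2 ≤ (y - 1 / 4) ^ 2 :=
      pow_le_pow_left₀ (by norm_num) (by linarith) 2
    norm_num at h5 h6 hV ⊢
    linarith
  rcases le_total y (295 / 1000) with hb2 | hb2
  · have h5 := fn_cell hy0 hb2 (by norm_num) 26 (show (0 : ℝ) < 0.00386 by norm_num)
      (by norm_num [Finset.sum_range_succ, Nat.factorial])
    have h6 : (28 / 100 - 1 / 4 : ℝ) ^ 2 ≤ (y - 1 / 4) ^ 2 :=
      pow_le_pow_left₀ (by norm_num) (by linarith) 2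
    norm_num at h5 h6 hV ⊢
    linarith
  rcases le_total y (315 / 1000) with hb3 | hb3
  · have h5 := fn_cell hy0 hb3 (by norm_num) 26 (show (0 : ℝ) < 0.00912 by norm_num)
      (by norm_num [Finset.sum_range_succ, Nat.factorial])
    have h6 : (295 / 1000 - 1 / 4 : ℝ) ^ 2 ≤ (y - 1 / 4) ^ 2 :=
      pow_le_pow_left₀ (by norm_num) (by linarith) 2
    norm_num at h5 h6 hV ⊢
    linarith
  rcases le_total y (34 / 100) with hb4 | hb4
  · have h5 := fn_cell hy0 hb4 (by norm_num) 26 (show (0 : ℝ) < 0.0232 by norm_num)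
      (by norm_num [Finset.sum_range_succ, Nat.factorial])
    have h6 : (315 / 1000 - 1 / 4 : ℝ) ^ 2 ≤ (y - 1 / 4) ^ 2 :=
      pow_le_pow_left₀ (by norm_num) (by linarith) 2
    norm_num at h5 h6 hV ⊢
    linarith
  rcases le_total y (37 / 100) with hb5 | hb5
  · have h5 := fn_cell hy0 hb5 (by norm_num) 26 (show (0 : ℝ) < 0.0602 by norm_num)
      (by norm_num [Finset.sum_range_succ, Nat.factorial])
    have h6 : (34 / 100 - 1 / 4 : ℝ) ^ 2 ≤ (y - 1 / 4) ^ 2 :=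
      pow_le_pow_left₀ (by norm_num) (by linarith) 2
    norm_num at h5 h6 hV ⊢
    linarith
  rcases le_total y (385 / 1000) with hb6 | hb6
  · have h5 := fn_cell hy0 hb6 (by norm_num) 26 (show (0 : ℝ) < 0.0917 by norm_num)
      (by norm_num [Finset.sum_range_succ, Nat.factorial])
    have h6 : (37 / 100 - 1 / 4 : ℝ) ^ 2 ≤ (y - 1 / 4) ^ 2 :=
      pow_le_pow_left₀ (by norm_num) (by linarith) 2
    norm_num at h5 h6 hV ⊢
    linarith
  have h5 := fn_cell hy0 hy (by norm_num) 26 (show (0 : ℝ) < 0.1354 by norm_num)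
    (by norm_num [Finset.sum_range_succ, Nat.factorial])
  have h6 : (385 / 1000 - 1 / 4 : ℝ) ^ 2 ≤ (y - 1 / 4) ^ 2 :=
    pow_le_pow_left₀ (by norm_num) (by linarith) 2
  norm_num at h5 h6 hV ⊢
  linarith

/-- `1/4 ≤ y ≤ 2/5`, `n ≥ 5` -/
theorem fn_five {y z V : ℝ} (hq : 1 / 4 ≤ y) (hy : y ≤ 2 / 5) (hz : 0 < z) (hzy : z ≤ y)
    (hV : (y - 1 / 5) ^ 2 ≤ V) :
    0.0178 / y * exp (-(4 * (1 - y - z) / z)) + 0.8 / 7 * exp (-(7 * (1 / y - 1))) / (1 - y) ≤
      0.3068 * V := by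
  have hy0 : 0 < y := by linarith
  refine (fn_small hy0 hy hz hzy).trans ?_
  rcases le_total y (3 / 10) with hb0 | hb0
  · have h5 := fn_cell hy0 hb0 (by norm_num) 26 (show (0 : ℝ) < 0.00483 by norm_num)
      (by norm_num [Finset.sum_range_succ, Nat.factorial])
    have h6 : (1 / 4 - 1 / 5 : ℝ) ^ 2 ≤ (y - 1 / 5) ^ 2 :=
      pow_le_pow_left₀ (by norm_num) (by linarith) 2
    norm_num at h5 h6 hV ⊢
    linarith
  rcases le_total y (35 / 100) with hb1 | hb1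
  · have h5 := fn_cell hy0 hb1 (by norm_num) 26 (show (0 : ℝ) < 0.0325 by norm_num)
      (by norm_num [Finset.sum_range_succ, Nat.factorial])
    have h6 : (3 / 10 - 1 / 5 : ℝ) ^ 2 ≤ (y - 1 / 5) ^ 2 :=
      pow_le_pow_left₀ (by norm_num) (by linarith) 2
    norm_num at h5 h6 hV ⊢
    linarith
  rcases le_total y (375 / 1000) with hb2 | hb2
  · have h5 := fn_cell hy0 hb2 (by norm_num) 26 (show (0 : ℝ) < 0.0695 by norm_num)
      (by norm_num [Finset.sum_range_succ, Nat.factorial])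
    have h6 : (35 / 100 - 1 / 5 : ℝ) ^ 2 ≤ (y - 1 / 5) ^ 2 :=
      pow_le_pow_left₀ (by norm_num) (by linarith) 2
    norm_num at h5 h6 hV ⊢
    linarith
  have h5 := fn_cell hy0 hy (by norm_num) 26 (show (0 : ℝ) < 0.1354 by norm_num)
    (by norm_num [Finset.sum_range_succ, Nat.factorial])
  have h6 : (375 / 1000 - 1 / 5 : ℝ) ^ 2 ≤ (y - 1 / 5) ^ 2 :=
    pow_le_pow_left₀ (by norm_num) (by linarith) 2
  norm_num at h5 h6 hV ⊢
  linarith

/-- `y ≤ 1/4`, `n ≥ 5` -/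
theorem fn_low {n : ℝ} (hn : 5 ≤ n) {y z V : ℝ} (hy0 : 0 < y) (hy : y ≤ 1 / 4) (hz : 0 < z)
    (hzy : z ≤ y) (hV : (y - 1 / n) ^ 2 ≤ V) (hV2 : 0.0036 / (n * (n - 1)) ≤ V) :
    0.0178 / y * exp (-(4 * (1 - y - z) / z)) + 0.8 / 7 * exp (-(7 * (1 / y - 1))) / (1 - y) ≤
      0.3068 * V := by
  refine (fn_small hy0 (by linarith) hz hzy).trans ?_
  have h1 := fn_cube hy0 hy
  have hn0 : 0 < n := by linarith
  have h2 : 0.0032 * y ^ 2 ≤ V := by
    rcases le_total (n * y) 1.06 with h | h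
    · refine le_trans ?_ hV2
      have hn1 : 0 < n - 1 := by linarith
      rw [le_div_iff₀ (by positivity)]
      have h3 : (n * y) ^ 2 ≤ 1.06 ^ 2 := pow_le_pow_left₀ (by positivity) h 2
      have h4 : y ^ 2 * (n * (n - 1)) ≤ (n * y) ^ 2 := by
        have e : (n * y) ^ 2 - y ^ 2 * (n * (n - 1)) = y ^ 2 * n := by ring
        have : 0 ≤ y ^ 2 * n := by positivity
        linarith
      norm_num at h3 ⊢
      linarith
    · refine le_trans ?_ hV
      have h3 : 1 / n ≤ y / 1.06 := by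
        rw [div_le_div_iff₀ hn0 (by norm_num)]
        linarith
      have h4 : 0.0566 * y ≤ y - 1 / n := by
        norm_num at h3 ⊢
        linarith
      have h5 := pow_le_pow_left₀ (by positivity) h4 2
      refine le_trans ?_ h5
      have : 0 ≤ y ^ 2 := sq_nonneg y
      rw [mul_pow]
      norm_num
      linarith
  have h3 : 0 ≤ y ^ 2 := sq_nonneg y
  norm_num at h1 h2 ⊢
  linarith

/-- `y ≥ 2/5` -/
theorem fn_big {y z V : ℝ} (hy1 : 2 / 5 ≤ y) (hy : y ≤ 3 / 4) (hz : 0 < z) (hzy : z ≤ y)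
    (hyz : y + z ≤ 1) (hV : (y - z) ^ 2 / 2 ≤ V)
    (hV4 : 1 / 2 ≤ y + z → 4 / 3 * (y - 1 / 4) ^ 2 + 3 / 2 * (z - (1 - y) / 3) ^ 2 ≤ V) :
    0.0178 / y * exp (-(4 * (1 - y - z) / z)) + 0.8 / 7 * exp (-(7 * (1 / y - 1))) / (1 - y) ≤
      0.3068 * V := by
  have hy0 : 0 < y := by linarith
  have hc : 0 < 1 - y := by linarith
  have hfr := fn_frac hz hyz
  rcases lt_or_ge (y + z) (1 / 2) with h | h
  · have g := fn_G (by norm_num) hy1 hz hyz
    have t := fn_T2 hy0 (show y ≤ 1 / 2 by linarith) (by norm_num) 26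
      (show (0 : ℝ) < 0.00092 by norm_num) (by norm_num [Finset.sum_range_succ, Nat.factorial])
    have h2 : z / (4 * (1 - y) - 3 * z) ≤ 0.06 := by
      rw [div_le_iff₀ (by linarith)]
      norm_num
      linarith
    have h3 : (3 / 10 : ℝ) ^ 2 ≤ (y - z) ^ 2 :=
      pow_le_pow_left₀ (by norm_num) (by linarith) 2
    norm_num at g t h2 h3 hV ⊢
    linarith
  · have h4 := hV4 h
    obtain ⟨t, ht⟩ : ∃ t, z = t * (1 - y) := ⟨z / (1 - y), by field_simp⟩
    have ht0 : 0 < t := by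
      by_contra hcon
      push Not at hcon
      have : t * (1 - y) ≤ 0 := mul_nonpos_of_nonpos_of_nonneg hcon hc.le
      linarith
    have ht1 : t ≤ 1 := by
      by_contra hcon
      push Not at hcon
      have : 1 * (1 - y) < t * (1 - y) := mul_lt_mul_of_pos_right hcon hc
      linarith
    have hA : z / (4 * (1 - y) - 3 * z) = t / (4 - 3 * t) := by
      rw [ht]
      have e : 4 * (1 - y) - 3 * (t * (1 - y)) = (4 - 3 * t) * (1 - y) := by ring
      rw [e, mul_div_mul_right _ _ hc.ne']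
    have hsq : (z - (1 - y) / 3) ^ 2 = (1 - y) ^ 2 * (t - 1 / 3) ^ 2 := by
      rw [ht]
      ring
    rw [hsq] at h4
    have h43 : 0 < 4 - 3 * t := by linarith
    rcases le_total y (1 / 2) with c1 | c1
    · have g := fn_G (by norm_num) hy1 hz hyz
      rw [hA] at g
      have t2 := fn_T2 hy0 c1 (by norm_num) 26
        (show (0 : ℝ) < 0.00092 by norm_num) (by norm_num [Finset.sum_range_succ, Nat.factorial])
      have k1 : (3 / 20 : ℝ) ^ 2 ≤ (y - 1 / 4) ^ 2 :=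
        pow_le_pow_left₀ (by norm_num) (by linarith) 2
      have k2 : (1 / 4 : ℝ) * (t - 1 / 3) ^ 2 ≤ (1 - y) ^ 2 * (t - 1 / 3) ^ 2 := by
        refine mul_le_mul_of_nonneg_right ?_ (sq_nonneg _)
        nlinarith
      have k3 : t / (4 - 3 * t) ≤ (0.0092 + 0.115 * (t - 1 / 3) ^ 2 - 0.00022) / 0.0445 := by
        rw [div_le_div_iff₀ h43 (by norm_num)]
        norm_num
        nlinarith [mul_nonneg ht0.le (sq_nonneg (t - 1 / 2)), sq_nonneg (t - 1 / 2), mul_nonneg (sub_nonneg.2 ht1) (sq_nonneg (t - 1 / 2)), mul_nonneg (sub_nonneg.2 ht1) ht0.le]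
      have k4 := sq_nonneg (t - 1 / 3)
      norm_num at g t2 k1 k2 k3 h4 ⊢
      linarith
    rcases le_total y (3 / 5) with c2 | c2
    · have g := fn_G (by norm_num) c1 hz hyz
      rw [hA] at g
      have t2 := fn_T2 hy0 c2 (by norm_num) 26
        (show (0 : ℝ) < 0.00941 by norm_num) (by norm_num [Finset.sum_range_succ, Nat.factorial])
      have k1 : (1 / 4 : ℝ) ^ 2 ≤ (y - 1 / 4) ^ 2 :=
        pow_le_pow_left₀ (by norm_num) (by linarith) 2
      have k2 : (4 / 25 : ℝ) * (t - 1 / 3) ^ 2 ≤ (1 - y) ^ 2 * (t - 1 / 3) ^ 2 := by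
        refine mul_le_mul_of_nonneg_right ?_ (sq_nonneg _)
        nlinarith
      have k3 : t / (4 - 3 * t) ≤ (0.0255 + 0.0736 * (t - 1 / 3) ^ 2 - 0.0027) / 0.0356 := by
        rw [div_le_div_iff₀ h43 (by norm_num)]
        norm_num
        nlinarith [mul_nonneg ht0.le (sq_nonneg (t - 1 / 2)), sq_nonneg (t - 1 / 2), mul_nonneg (sub_nonneg.2 ht1) (sq_nonneg (t - 1 / 2)), mul_nonneg (sub_nonneg.2 ht1) ht0.le]
      have k4 := sq_nonneg (t - 1 / 3)
      norm_num at g t2 k1 k2 k3 h4 ⊢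
      linarith
    have hsq0 : 0 ≤ (1 - y) ^ 2 * (t - 1 / 3) ^ 2 := by positivity
    rcases le_total y (13 / 20) with c3 | c3
    · have g := fn_G (by norm_num) c2 hz hyz
      have t2 := fn_T2 hy0 c3 (by norm_num) 26
        (show (0 : ℝ) < 0.0231 by norm_num) (by norm_num [Finset.sum_range_succ, Nat.factorial])
      have k1 : (7 / 20 : ℝ) ^ 2 ≤ (y - 1 / 4) ^ 2 :=
        pow_le_pow_left₀ (by norm_num) (by linarith) 2
      norm_num at g t2 k1 h4 hfr ⊢
      linarith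
    rcases le_total y (7 / 10) with c4 | c4
    · have g := fn_G (by norm_num) c3 hz hyz
      have t2 := fn_T2 hy0 c4 (by norm_num) 26
        (show (0 : ℝ) < 0.0499 by norm_num) (by norm_num [Finset.sum_range_succ, Nat.factorial])
      have k1 : (2 / 5 : ℝ) ^ 2 ≤ (y - 1 / 4) ^ 2 :=
        pow_le_pow_left₀ (by norm_num) (by linarith) 2
      norm_num at g t2 k1 h4 hfr ⊢
      linarith
    · have g := fn_G (by norm_num) c4 hz hyz
      have t2 := fn_T2 hy0 hy (by norm_num) 26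
        (show (0 : ℝ) < 0.097 by norm_num) (by norm_num [Finset.sum_range_succ, Nat.factorial])
      have k1 : (9 / 20 : ℝ) ^ 2 ≤ (y - 1 / 4) ^ 2 :=
        pow_le_pow_left₀ (by norm_num) (by linarith) 2
      norm_num at g t2 k1 h4 hfr ⊢
      linarith

/-- the term for odd `n` -/
theorem fn_L {n : ℕ} (hn : 5 ≤ n) {δ V : ℝ} (hδ0 : 0 < δ) (hδ : δ ≤ 1 / 9)
    (hV2 : 0.0036 / ((n : ℝ) * (n - 1)) ≤ V) :
    0.8 * n / ((n : ℝ) - 1) * (0.2 * δ) ^ (n - 1) ≤ 0.0031 * V := by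
  obtain ⟨k, rfl⟩ : ∃ k, n = k + 5 := ⟨n - 5, by omega⟩
  have e1 : k + 5 - 1 = k + 4 := by omega
  rw [e1]
  have hk : (((k + 5 : ℕ) : ℝ) - 1) = (k : ℝ) + 4 := by push_cast; ring
  have hk' : ((k + 5 : ℕ) : ℝ) = (k : ℝ) + 5 := by push_cast; ring
  rw [hk'] at hV2 ⊢
  have hk'' : ((k : ℝ) + 5 - 1) = (k : ℝ) + 4 := by ring
  rw [hk''] at hV2 ⊢
  have h0 : (0 : ℝ) ≤ k := Nat.cast_nonneg k
  have h1 : (0.2 * δ) ^ (k + 4) ≤ (1 / 45) ^ (k + 4) :=
    pow_le_pow_left₀ (by positivity) (by norm_num; linarith) _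
  have h2 : ((k : ℝ) + 5) * (k + 5) ≤ 25 * 2 ^ k := by
    clear h1 hV2
    induction k with
    | zero => norm_num
    | succ m ih =>
      have hm : (0 : ℝ) ≤ m := Nat.cast_nonneg m
      have ih' := ih (by omega) (by omega) (by push_cast; ring) (by push_cast; ring) (by ring) hm
      push_cast
      rw [pow_succ]
      nlinarith
  refine le_trans ?_ (mul_le_mul_of_nonneg_left hV2 (by norm_num))
  have h3 : 0.8 * ((k : ℝ) + 5) / (k + 4) * (0.2 * δ) ^ (k + 4) ≤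
      0.8 * ((k : ℝ) + 5) / (k + 4) * (1 / 45) ^ (k + 4) :=
    mul_le_mul_of_nonneg_left h1 (by positivity)
  refine h3.trans ?_
  have h4 : (1 / 45 : ℝ) ^ (k + 4) = 1 / (4100625 * 45 ^ k) := by
    rw [one_div_pow, pow_add]
    norm_num
    ring
  rw [h4]
  have h5 : (2 : ℝ) ^ k ≤ 45 ^ k := pow_le_pow_left₀ (by norm_num) (by norm_num) k
  have e5 : 0.8 * ((k : ℝ) + 5) / (k + 4) * (1 / (4100625 * 45 ^ k)) =
      0.8 * ((k + 5) * (k + 5)) / (((k : ℝ) + 5) * (k + 4) * (4100625 * 45 ^ k)) := by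
    field_simp
  have e6 : 0.0031 * (0.0036 / (((k : ℝ) + 5) * (k + 4))) =
      0.00001116 * (4100625 * 45 ^ k) / (((k : ℝ) + 5) * (k + 4) * (4100625 * 45 ^ k)) := by
    field_simp
    norm_num
  rw [e5, e6]
  refine div_le_div_of_nonneg_right ?_ (by positivity)
  have h6 : (0 : ℝ) < 45 ^ k := by positivity
  norm_num
  linarith

theorem far_numeric {n : ℕ} (hn : 4 ≤ n) {y z V δ : ℝ} (hδ0 : 0 < δ) (hδ : δ ≤ 1 / 9)
    (hy : 1 ≤ n * y) (hy2 : y ≤ 3 / 4) (hz0 : 0 < z) (hzy : z ≤ y) (hyz : y + z ≤ 1)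
    (hrest : 1 - y ≤ (n - 1) * z)
    (hV : y ^ 2 + z ^ 2 + (1 - y - z) ^ 2 / (n - 2) - 1 / n ≤ V)
    (hnf : 0.0036 / (n * (n - 1)) ≤ V) :
    0.16 * δ / y * exp (-(4 * (1 - y - z) / z)) + 0.8 / 7 * exp (-(7 * (1 / y - 1))) / (1 - y) +
      (if Even n then 0 else 0.8 * n / (n - 1) * (0.2 * δ) ^ (n - 1)) < 0.31 * V := by
  have hn4 : (4 : ℝ) ≤ n := by exact_mod_cast hn
  have hn0 : (0 : ℝ) < n := by linarith
  have hn1 : (0 : ℝ) < n - 1 := by linarith
  have hy0 : 0 < y := hz0.trans_le hzy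
  have hV0 : 0 < V := lt_of_lt_of_le (by positivity) hnf
  have hG : 0.16 * δ / y * exp (-(4 * (1 - y - z) / z)) ≤
      0.0178 / y * exp (-(4 * (1 - y - z) / z)) := by
    refine mul_le_mul_of_nonneg_right ?_ (exp_pos _).le
    refine div_le_div_of_nonneg_right ?_ hy0.le
    norm_num
    linarith
  have hL : (if Even n then 0 else 0.8 * (n : ℝ) / (n - 1) * (0.2 * δ) ^ (n - 1)) ≤
      0.0031 * V := by
    split_ifs with he
    · positivity
    · have h5 : 5 ≤ n := by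
        rcases Nat.lt_or_ge n 5 with h | h
        · have : n = 4 := by omega
          rw [this] at he
          exact absurd (by decide) he
        · exact h
      exact fn_L h5 hδ0 hδ hnf
  have hmain : 0.0178 / y * exp (-(4 * (1 - y - z) / z)) +
      0.8 / 7 * exp (-(7 * (1 / y - 1))) / (1 - y) ≤ 0.3068 * V := by
    rcases le_total (2 / 5) y with h | h
    · exact fn_big h hy2 hz0 hzy hyz ((fn_V_two hn4).trans hV)
        (fun h' => (fn_V_four hn4 hyz h').trans hV)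
    · rcases Nat.lt_or_ge n 5 with h5 | h5
      · have h4 : n = 4 := by omega
        rw [h4] at hy hrest hnf
        norm_num at hy hrest hnf
        have hV4 := (fn_V_four hn4 hyz (by linarith)).trans hV
        refine fn_four hy0 h hz0 hzy ?_ (by norm_num; linarith)
        have : 0 ≤ 3 / 2 * (z - (1 - y) / 3) ^ 2 := by positivity
        linarith
      · have hn5 : (5 : ℝ) ≤ n := by exact_mod_cast h5
        have hV1 := (fn_V_one (y := y) (z := z) hn4).trans hV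
        rcases le_total y (1 / 4) with h6 | h6
        · exact fn_low hn5 hy0 h6 hz0 hzy hV1 hnf
        · refine fn_five h6 h hz0 hzy ?_
          refine le_trans ?_ hV1
          have h7 : 1 / (n : ℝ) ≤ 1 / 5 := one_div_le_one_div_of_le (by norm_num) hn5
          exact pow_le_pow_left₀ (by linarith) (by linarith) 2
  have e3 : (0.31 : ℝ) * V = 0.3068 * V + 0.0031 * V + 0.0001 * V := by ring
  rw [e3]
  have : 0 < 0.0001 * V := by positivity
  linarith

end LpSec.Nr
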