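import Mathlib
import Pool.Agent.Lib.MP_1dbab3_gt.Nr.ML
import Pool.Agent.Lib.MP_1dbab3_gt.Nr.Gain
import Pool.Agent.Lib.MP_1dbab3_gt.Nr.Num

/-!
# Near `α = 1`: away from the flat point, largest entry at most `3/4`
-/

open Real MeasureTheory Set Filter Topology

namespace LpSec.Nr

variable {α : ℝ}

/-! ## elementary facts on the simplex -/

theorem sum_erase1 {n : ℕ} {x : Fin n → ℝ} (h1 : ∑ i, x i = 1) (i : Fin n) :
    ∑ k ∈ Finset.univ.erase i, x k = 1 - x i := by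
  have h2 := Finset.add_sum_erase Finset.univ x (Finset.mem_univ i)
  linarith

theorem sum_erase2 {n : ℕ} {x : Fin n → ℝ} (h1 : ∑ i, x i = 1) {i j : Fin n} (hij : i ≠ j) :
    ∑ k ∈ (Finset.univ.erase i).erase j, x k = 1 - x i - x j := by
  have h3 := Finset.add_sum_erase (Finset.univ.erase i) x
    (Finset.mem_erase.2 ⟨hij.symm, Finset.mem_univ j⟩)
  have h4 := sum_erase1 h1 i
  linarith

theorem card_erase1 {n : ℕ} (i : Fin n) : ((Finset.univ.erase i).card : ℝ) = n - 1 := by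
  rw [Finset.card_erase_of_mem (Finset.mem_univ i), Finset.card_univ, Fintype.card_fin]
  have : 1 ≤ n := by have := i.2; omega
  push_cast [Nat.cast_sub this]
  ring

theorem card_erase2 {n : ℕ} {i j : Fin n} (hij : i ≠ j) :
    (((Finset.univ.erase i).erase j).card : ℝ) = n - 2 := by
  rw [Finset.card_erase_of_mem (Finset.mem_erase.2 ⟨hij.symm, Finset.mem_univ j⟩),
    Finset.card_erase_of_mem (Finset.mem_univ i), Finset.card_univ, Fintype.card_fin]
  have h2 : 2 ≤ n := by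
    have h1 := i.2
    have h3 := j.2
    have h4 : (i : ℕ) ≠ j := fun h => hij (Fin.ext h)
    omega
  have e : n - 1 - 1 = n - 2 := by omega
  rw [e]
  push_cast [Nat.cast_sub h2]
  ring

theorem V_ge_two {n : ℕ} (hn : 4 ≤ n) {x : Fin n → ℝ} (h1 : ∑ i, x i = 1) {i j : Fin n}
    (hij : i ≠ j) : x i ^ 2 + x j ^ 2 + (1 - x i - x j) ^ 2 / (n - 2) - 1 / n ≤
      ∑ k, x k ^ 2 - 1 / n := by
  have hn4 : (4 : ℝ) ≤ n := by exact_mod_cast hn
  have h2 := Finset.add_sum_erase Finset.univ (fun k => x k ^ 2) (Finset.mem_univ i)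
  have h3 := Finset.add_sum_erase (Finset.univ.erase i) (fun k => x k ^ 2)
    (Finset.mem_erase.2 ⟨hij.symm, Finset.mem_univ j⟩)
  have h4 := sq_sum_le_card_mul_sum_sq (s := (Finset.univ.erase i).erase j) (f := x)
  rw [sum_erase2 h1 hij, card_erase2 hij] at h4
  have h5 : (1 - x i - x j) ^ 2 / (n - 2) ≤ ∑ k ∈ (Finset.univ.erase i).erase j, x k ^ 2 := by
    rw [div_le_iff₀ (by linarith)]
    linarith
  linarith

theorem V_ge_dev {n : ℕ} (hn : 4 ≤ n) {x : Fin n → ℝ} (h1 : ∑ i, x i = 1)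
    (hnf : ¬ ∀ k, |x k - 1 / n| ≤ 0.06 / n) :
    0.0036 / (n * (n - 1)) ≤ ∑ k, x k ^ 2 - 1 / (n : ℝ) := by
  have hn4 : (4 : ℝ) ≤ n := by exact_mod_cast hn
  push Not at hnf
  obtain ⟨i, hi⟩ := hnf
  have h2 := Finset.add_sum_erase Finset.univ (fun k => x k ^ 2) (Finset.mem_univ i)
  have h4 := sq_sum_le_card_mul_sum_sq (s := Finset.univ.erase i) (f := x)
  rw [sum_erase1 h1 i, card_erase1 i] at h4
  have h5 : (1 - x i) ^ 2 / (n - 1) ≤ ∑ k ∈ Finset.univ.erase i, x k ^ 2 := by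
    rw [div_le_iff₀ (by linarith)]
    linarith
  have h6 : x i ^ 2 + (1 - x i) ^ 2 / (n - 1) - 1 / n = (x i - 1 / n) ^ 2 * n / (n - 1) := by
    have : (n : ℝ) - 1 ≠ 0 := by linarith
    have : (n : ℝ) ≠ 0 := by linarith
    field_simp
    ring
  have h7 : (0.06 / (n : ℝ)) ^ 2 ≤ (x i - 1 / n) ^ 2 := by
    rw [← sq_abs (x i - 1 / n)]
    exact pow_le_pow_left₀ (by positivity) hi.le 2
  have h8 : 0.0036 / ((n : ℝ) * (n - 1)) = (0.06 / (n : ℝ)) ^ 2 * n / (n - 1) := by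
    have : (n : ℝ) - 1 ≠ 0 := by linarith
    field_simp
    norm_num
  have h9 : (0.06 / (n : ℝ)) ^ 2 * n / (n - 1) ≤ (x i - 1 / n) ^ 2 * n / (n - 1) := by
    have : (0 : ℝ) < n - 1 := by linarith
    gcongr
  rw [h8]
  linarith

theorem V_le {n : ℕ} {x : Fin n → ℝ} (hx : ∀ i, 0 ≤ x i) (h1 : ∑ i, x i = 1)
    {i : Fin n} (hi : ∀ k, x k ≤ x i) (hy : x i ≤ 3 / 4) :
    ∑ k, x k ^ 2 - 1 / (n : ℝ) ≤ 0.7 := by
  have h0 : (0 : ℝ) ≤ 1 / (n : ℝ) := by positivity
  have key : ∑ k, x k ^ 2 ≤ 0.7 := by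
    rcases le_total (x i) (1 / 2) with h | h
    · have h3 : ∑ k, x k ^ 2 ≤ ∑ k, x i * x k := Finset.sum_le_sum fun k _ => by
        rw [sq]
        exact mul_le_mul_of_nonneg_right (hi k) (hx k)
      rw [← Finset.mul_sum, h1, mul_one] at h3
      refine h3.trans (h.trans (by norm_num))
    · have h2 := Finset.add_sum_erase Finset.univ (fun k => x k ^ 2) (Finset.mem_univ i)
      have h4 : ∑ k ∈ Finset.univ.erase i, x k ^ 2 ≤ (∑ k ∈ Finset.univ.erase i, x k) ^ 2 :=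
        Finset.sum_sq_le_sq_sum_of_nonneg fun k _ => hx k
      rw [sum_erase1 h1 i] at h4
      norm_num
      nlinarith
  linarith

/-- the gain on `[0, S]` -/
theorem Near.gain_S (h : Near α) {n : ℕ} (hn : 4 ≤ n) {V : ℝ} (hV0 : 0 ≤ V) (hV : V ≤ 0.7)
    {S : ℝ} (hS1 : 16 / 3 ≤ S) (hS2 : S ≤ n * z1 α) :
    0.31 * (α - 1) * V ≤ (∫ s in (0 : ℝ)..S, Phi α (s / n) ^ n) -
      ∫ s in (0 : ℝ)..S, Phi α (s / n) ^ n * exp (-(0.41 * (α - 1) * V * s ^ 2 / 2)) := by
  have hS0 : 0 ≤ S := by linarith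
  have c1 : ContinuousOn (fun s => Phi α (s / n) ^ n) (Ici 0) := flat_cont h.one_lt n
  have c2 : ContinuousOn (fun s => Phi α (s / n) ^ n *
      exp (-(0.41 * (α - 1) * V * s ^ 2 / 2))) (Ici 0) := c1.mul (by fun_prop)
  have hal := h.al
  have hii : ∀ {f : ℝ → ℝ} (a b : ℝ), ContinuousOn f (Ici 0) → 0 ≤ a → 0 ≤ b →
      IntervalIntegrable f volume a b := fun a b hf ha hb =>
    (hf.mono fun s hs => (le_min ha hb).trans hs.1).intervalIntegrable
  rw [← intervalIntegral.integral_sub (hii 0 S c1 le_rfl hS0) (hii 0 S c2 le_rfl hS0)]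
  have e : ∀ s : ℝ, Phi α (s / n) ^ n - Phi α (s / n) ^ n *
      exp (-(0.41 * (α - 1) * V * s ^ 2 / 2)) =
      Phi α (s / n) ^ n * (1 - exp (-(0.41 * (α - 1) * V * s ^ 2 / 2))) := fun s => by ring
  simp only [e]
  have c3 : ContinuousOn (fun s => Phi α (s / n) ^ n *
      (1 - exp (-(0.41 * (α - 1) * V * s ^ 2 / 2)))) (Ici 0) := c1.mul (by fun_prop)
  rw [← intervalIntegral.integral_add_adjacent_intervals
    (hii 0 (16 / 3) c3 le_rfl (by norm_num)) (hii (16 / 3) S c3 (by norm_num) hS0)]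
  have h3 := h.gain hn hV0 hV
  have h4 : 0 ≤ ∫ s in (16 / 3 : ℝ)..S, Phi α (s / n) ^ n *
      (1 - exp (-(0.41 * (α - 1) * V * s ^ 2 / 2))) := by
    refine intervalIntegral.integral_nonneg hS1 fun s hs => ?_
    have hs0 : 0 ≤ s := by linarith [hs.1]
    refine mul_nonneg (h.flat_nonneg (by omega) hs0 (hs.2.trans hS2)) ?_
    rw [sub_nonneg, exp_le_one_iff, neg_nonpos]
    positivity
  linarith

/-- away from the flat point, largest entry at most `3/4` -/
theorem Near.far_lt (h : Near α) {n : ℕ} (hn : 4 ≤ n) {x : Fin n → ℝ} (hx : ∀ i, 0 ≤ x i)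
    (h1 : ∑ i, x i = 1) {i j : Fin n} (hij : i ≠ j) (hz0 : 0 < x j) (hji : x j ≤ x i)
    (hk : ∀ k, k ≠ i → x k ≤ x j) (hy : x i ≤ 3 / 4)
    (hnf : ¬ ∀ k, |x k - 1 / n| ≤ 0.06 / n) : J α x < vv α n := by
  have hn4 : (4 : ℝ) ≤ n := by exact_mod_cast hn
  have hn0 : (0 : ℝ) < n := by linarith
  have hy0 : 0 < x i := hz0.trans_le hji
  have hal := h.al
  have hz := h.z0
  have hz4 := h.z4
  have hki : ∀ k, x k ≤ x i := fun k => by
    rcases eq_or_ne k i with e | e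
    · rw [e]
    · exact (hk k e).trans hji
  have hny : 1 ≤ n * x i := by
    have h3 : ∑ k, x k ≤ ∑ _k : Fin n, x i := Finset.sum_le_sum fun k _ => hki k
    rw [h1, Finset.sum_const, Finset.card_univ, Fintype.card_fin, nsmul_eq_mul] at h3
    exact h3
  have hyz : x i + x j ≤ 1 := by
    have h3 := sum_erase2 h1 hij
    have h4 : 0 ≤ ∑ k ∈ (Finset.univ.erase i).erase j, x k := Finset.sum_nonneg fun k _ => hx k
    linarith
  have hrest : 1 - x i ≤ (n - 1) * x j := by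
    have h3 : ∑ k ∈ Finset.univ.erase i, x k ≤ ∑ _k ∈ Finset.univ.erase i, x j :=
      Finset.sum_le_sum fun k hkm => hk k (Finset.mem_erase.1 hkm).1
    rw [sum_erase1 h1 i, Finset.sum_const, nsmul_eq_mul, card_erase1 i] at h3
    exact h3
  set V := ∑ k, x k ^ 2 - 1 / (n : ℝ) with hV
  have hV2 := V_ge_two hn h1 hij
  have hVd := V_ge_dev hn h1 hnf
  have hV7 := V_le hx h1 hki hy
  rw [← hV] at hV2 hVd hV7
  have hV0 : 0 ≤ V := by
    refine le_trans ?_ hVd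
    have : (0 : ℝ) < n - 1 := by linarith
    positivity
  have hnum := far_numeric hn hal (by linarith [h.le] : α - 1 ≤ 1 / 9) hny hy hz0 hji hyz hrest
    hV2 hVd
  set S := z1 α / x i with hS
  have hS1 : 16 / 3 ≤ S := by
    rw [hS, le_div_iff₀ hy0]
    linarith
  have hS0 : 0 ≤ S := by linarith
  have hS2 : S ≤ n * z1 α := by
    rw [hS, div_le_iff₀ hy0]
    have := mul_le_mul_of_nonneg_left hny hz.le
    linarith
  have hSS : S ≤ z1 α / x j := div_le_div_of_nonneg_left hz.le hz0 hji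
  have hS20 : 0 ≤ z1 α / x j := by positivity
  have hfi := prod_integrable_pair h.one_lt hx hij hy0 hz0
  have e1 := intervalIntegral.integral_interval_add_Ioi hfi (hfi.mono_set (Ioi_subset_Ioi hS20))
  have hii : ∀ a b : ℝ, 0 ≤ a → 0 ≤ b →
      IntervalIntegrable (fun s => ∏ k, Phi α (x k * s)) volume a b := fun a b ha hb =>
    ((prod_continuousOn h.one_lt hx).mono fun s hs => (le_min ha hb).trans hs.1).intervalIntegrable
  have e2 := intervalIntegral.integral_add_adjacent_intervals (hii 0 S le_rfl hS0)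
    (hii S (z1 α / x j) hS0 hS20)
  have m1 := h.main_int (by omega) hx h1 hS0 (fun s h0 hs k => by
    have h3 : x k * s ≤ x i * s := mul_le_mul_of_nonneg_right (hki k) h0
    have h4 : x i * s < z1 α := by
      have := (lt_div_iff₀ hy0).1 hs
      linarith
    exact lt_of_le_of_lt h3 h4)
  have m2 := h.mid_int hx h1 hij hz0 hji hk (by linarith)
  have m3 := h.tail_int hx h1 hij hz0 hji hk
  have g1 := h.gain_S hn hV0 hV7 hS1 hS2
  have g2 := h.vv_lob hn hS0 hS2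
  rw [← hV] at m1
  rw [← hS] at m2
  have hJ : J α x = ∫ s in Ioi (0 : ℝ), ∏ k, Phi α (x k * s) := rfl
  rw [hJ]
  have f1 := mul_lt_mul_of_pos_left hnum hal
  have e3 : (α - 1) * (0.16 * (α - 1) / x i * exp (-(4 * (1 - x i - x j) / x j)) +
      0.8 / 7 * exp (-(7 * (1 / x i - 1))) / (1 - x i) +
      (if Even n then 0 else 0.8 * n / (n - 1) * (0.2 * (α - 1)) ^ (n - 1))) =
      0.16 * (α - 1) ^ 2 / x i * exp (-(4 * (1 - x i - x j) / x j)) +
      0.8 * (α - 1) / 7 * exp (-(7 * (1 / x i - 1))) / (1 - x i) + (α - 1) *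
      (if Even n then 0 else 0.8 * n / (n - 1) * (0.2 * (α - 1)) ^ (n - 1)) := by
    ring
  rw [e3] at f1
  linarith

end LpSec.Nr
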