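import Mathlib
import Pool.Agent.Lib.MP_1dbab3_gt.Base

open Real MeasureTheory Set Filter Topology

namespace LpSec.Nr

/-! ## ROW nr-4 (needs Base.lean): Laplace transform of `K 2` -/

private theorem nr4_exp_int {κ : ℝ} (hκ : 0 < κ) :
    IntegrableOn (fun t => exp (-(κ * t))) (Ioi 0) := by
  have h := exp_neg_integrableOn_Ioi 0 hκ
  simpa only [neg_mul] using h

private theorem nr4_abs {κ ρ t : ℝ} (hρ : 0 < ρ) (ht : 0 < t) :
    ‖exp (-(κ * t)) * K 2 (t * ρ)‖ ≤ exp (-(κ * t)) := by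
  rw [norm_mul, Real.norm_of_nonneg (exp_pos _).le, Real.norm_eq_abs]
  have h := K_abs_le 2 (mul_pos ht hρ).le
  have h2 : (1 : ℝ) / ((2 : ℕ).factorial : ℝ) ≤ 1 := by
    norm_num [Nat.factorial]
  have h3 := exp_pos (-(κ * t))
  nlinarith [h.trans h2]

theorem lapK2_int {κ ρ : ℝ} (hκ : 0 < κ) (hρ : 0 < ρ) :
    IntegrableOn (fun t => exp (-(κ * t)) * K 2 (t * ρ)) (Ioi 0) := by
  refine Integrable.mono' (nr4_exp_int hκ) ?_ ?_
  · apply Continuous.aestronglyMeasurable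
    have := K_continuous 2
    fun_prop
  · refine (ae_restrict_iff' measurableSet_Ioi).mpr (Eventually.of_forall fun t ht => ?_)
    exact nr4_abs hρ ht

private theorem nr4_pow_int {κ : ℝ} (hκ : 0 < κ) (j : ℕ) :
    ∫ t in Ioi (0 : ℝ), exp (-(κ * t)) * t ^ j = (j.factorial : ℝ) / κ ^ (j + 1) := by
  have h := Real.integral_rpow_mul_exp_neg_mul_Ioi (a := (j : ℝ) + 1) (r := κ) (by positivity) hκ
  rw [Real.Gamma_nat_eq_factorial] at h
  have e1 : ∫ t in Ioi (0 : ℝ), exp (-(κ * t)) * t ^ j =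
      ∫ t in Ioi (0 : ℝ), t ^ ((j : ℝ) + 1 - 1) * exp (-(κ * t)) := by
    refine setIntegral_congr_fun measurableSet_Ioi fun t ht => ?_
    rw [add_sub_cancel_right, Real.rpow_natCast, mul_comm]
  rw [e1, h]
  have : (1 / κ : ℝ) ^ ((j : ℝ) + 1) = 1 / κ ^ (j + 1) := by
    rw [show (j : ℝ) + 1 = ((j + 1 : ℕ) : ℝ) by push_cast; ring, Real.rpow_natCast, one_div_pow]
  rw [this]
  ring

private theorem nr4_pow_integrable {κ : ℝ} (hκ : 0 < κ) (j : ℕ) :
    IntegrableOn (fun t => exp (-(κ * t)) * t ^ j) (Ioi 0) := by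
  by_contra h
  have h1 := integral_undef h
  rw [nr4_pow_int hκ j] at h1
  have : (0 : ℝ) < (j.factorial : ℝ) / κ ^ (j + 1) := by positivity
  linarith

theorem lapK2 {κ ρ : ℝ} (hκ : 0 < κ) (hρ : 0 < ρ) :
    ∫ t in Ioi (0 : ℝ), exp (-(κ * t)) * K 2 (t * ρ) =
      (exp (-(ρ / κ)) - 1 + ρ / κ) * κ / ρ ^ 2 := by
  set f : ℕ → ℝ → ℝ := fun j t => exp (-(κ * t)) *
    ((-(t * ρ)) ^ j / ((j.factorial : ℝ) * ((j + 2).factorial : ℝ))) with hf
  have hfe : ∀ j t, f j t = ((-ρ) ^ j / ((j.factorial : ℝ) * ((j + 2).factorial : ℝ))) *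
      (exp (-(κ * t)) * t ^ j) := by
    intro j t
    simp only [hf]
    rw [show -(t * ρ) = (-ρ) * t by ring, mul_pow]
    ring
  have hint : ∀ j, Integrable (f j) (volume.restrict (Ioi 0)) := by
    intro j
    have h := (nr4_pow_integrable hκ j).const_mul
      ((-ρ) ^ j / ((j.factorial : ℝ) * ((j + 2).factorial : ℝ)))
    exact h.congr (Eventually.of_forall fun t => (hfe j t).symm)
  have hnorm : ∀ j, ∫ t in Ioi (0 : ℝ), ‖f j t‖ = ρ ^ j / (((j + 2).factorial : ℝ) * κ ^ (j + 1)) := by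
    intro j
    have e : ∫ t in Ioi (0 : ℝ), ‖f j t‖ = ∫ t in Ioi (0 : ℝ),
        (ρ ^ j / ((j.factorial : ℝ) * ((j + 2).factorial : ℝ))) * (exp (-(κ * t)) * t ^ j) := by
      refine setIntegral_congr_fun measurableSet_Ioi fun t ht => ?_
      rw [hfe, norm_mul, norm_div, norm_pow, norm_neg, Real.norm_of_nonneg hρ.le,
        Real.norm_of_nonneg (by positivity : (0 : ℝ) ≤ (j.factorial : ℝ) * ((j + 2).factorial : ℝ)),
        Real.norm_of_nonneg (mul_nonneg (exp_pos _).le (pow_nonneg (le_of_lt ht) j))]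
    rw [e, integral_const_mul, nr4_pow_int hκ]
    have h4 : (j.factorial : ℝ) ≠ 0 := by exact_mod_cast Nat.factorial_ne_zero _
    have h5 : ((j + 2).factorial : ℝ) ≠ 0 := by exact_mod_cast Nat.factorial_ne_zero _
    field_simp
  have hsum : Summable fun j => ∫ t in Ioi (0 : ℝ), ‖f j t‖ := by
    simp only [hnorm]
    have h0 := Real.summable_pow_div_factorial (ρ / κ)
    have h1 := (summable_nat_add_iff 2).mpr h0
    have h2 := h1.mul_left (κ / ρ ^ 2)
    refine h2.congr fun j => ?_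
    have h5 : ((j + 2).factorial : ℝ) ≠ 0 := by exact_mod_cast Nat.factorial_ne_zero _
    rw [div_pow]
    field_simp
    ring
  have key := hasSum_integral_of_summable_integral_norm hint hsum
  have e2 : ∫ t in Ioi (0 : ℝ), ∑' j, f j t =
      ∫ t in Ioi (0 : ℝ), exp (-(κ * t)) * K 2 (t * ρ) := by
    refine setIntegral_congr_fun measurableSet_Ioi fun t ht => ?_
    exact ((K_hasSum 2 (t * ρ)).mul_left (exp (-(κ * t)))).tsum_eq
  rw [e2] at key
  refine key.unique ?_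
  have h1 : HasSum (fun n : ℕ => (-(ρ / κ)) ^ n / (n.factorial : ℝ)) (exp (-(ρ / κ))) := by
    rw [Real.exp_eq_exp_ℝ]
    exact NormedSpace.expSeries_div_hasSum_exp (-(ρ / κ))
  have h2 := ((hasSum_nat_add_iff' 2).mpr h1).mul_left (κ / ρ ^ 2)
  have e3 : (exp (-(ρ / κ)) - 1 + ρ / κ) * κ / ρ ^ 2 =
      κ / ρ ^ 2 * (exp (-(ρ / κ)) - ∑ i ∈ Finset.range 2, (-(ρ / κ)) ^ i / (i.factorial : ℝ)) := by
    rw [Finset.sum_range_succ, Finset.sum_range_one]
    simp
    ring
  rw [e3]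
  have e4 : (fun j => ∫ t in Ioi (0 : ℝ), f j t) =
      fun j : ℕ => κ / ρ ^ 2 * ((-(ρ / κ)) ^ (j + 2) / ((j + 2).factorial : ℝ)) := by
    funext j
    have e : ∫ t in Ioi (0 : ℝ), f j t = ∫ t in Ioi (0 : ℝ),
        ((-ρ) ^ j / ((j.factorial : ℝ) * ((j + 2).factorial : ℝ))) * (exp (-(κ * t)) * t ^ j) := by
      refine setIntegral_congr_fun measurableSet_Ioi fun t ht => ?_
      exact hfe j t
    rw [e, integral_const_mul, nr4_pow_int hκ]
    have h4 : (j.factorial : ℝ) ≠ 0 := by exact_mod_cast Nat.factorial_ne_zero _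
    have h5 : ((j + 2).factorial : ℝ) ≠ 0 := by exact_mod_cast Nat.factorial_ne_zero _
    rw [show -(ρ / κ) = (-ρ) / κ by ring, div_pow, pow_add (-ρ) j 2, neg_sq]
    field_simp
    ring
  rw [e4]
  exact h2

/-- Fubini for an integrable weight -/
theorem lap_weight {κ : ℝ} (hκ : 0 < κ) {w : ℝ → ℝ} (hw : IntegrableOn w (Ioi 0)) :
    IntegrableOn (fun t => exp (-(κ * t)) * ∫ ρ in Ioi (0 : ℝ), w ρ * K 2 (t * ρ)) (Ioi 0) ∧
    ∫ t in Ioi (0 : ℝ), exp (-(κ * t)) * ∫ ρ in Ioi (0 : ℝ), w ρ * K 2 (t * ρ) =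
      ∫ ρ in Ioi (0 : ℝ), w ρ * ((exp (-(ρ / κ)) - 1 + ρ / κ) * κ / ρ ^ 2) := by
  have hprod : Integrable (fun p : ℝ × ℝ => exp (-(κ * p.1)) * (w p.2 * K 2 (p.1 * p.2)))
      ((volume.restrict (Ioi (0 : ℝ))).prod (volume.restrict (Ioi (0 : ℝ)))) := by
    have h1 := (nr4_exp_int hκ).mul_prod hw
    refine Integrable.mono' h1.norm ?_ ?_
    · have h2 : AEStronglyMeasurable (fun p : ℝ × ℝ => K 2 (p.1 * p.2))
          ((volume.restrict (Ioi (0 : ℝ))).prod (volume.restrict (Ioi (0 : ℝ)))) := by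
        apply Continuous.aestronglyMeasurable
        have := K_continuous 2
        fun_prop
      have h3 := h1.aestronglyMeasurable.mul h2
      refine h3.congr (Eventually.of_forall fun p => ?_)
      simp only [Pi.mul_apply]
      ring
    · rw [Measure.prod_restrict]
      refine (ae_restrict_iff' (measurableSet_Ioi.prod measurableSet_Ioi)).mpr
        (Eventually.of_forall fun p hp => ?_)
      have hp1 : 0 < p.1 := hp.1
      have hp2 : 0 < p.2 := hp.2
      have h := K_abs_le 2 (mul_pos hp1 hp2).le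
      have h2 : (1 : ℝ) / ((2 : ℕ).factorial : ℝ) ≤ 1 := by
        norm_num [Nat.factorial]
      rw [norm_mul, norm_mul, norm_mul]
      refine mul_le_mul_of_nonneg_left ?_ (norm_nonneg _)
      calc ‖w p.2‖ * ‖K 2 (p.1 * p.2)‖ ≤ ‖w p.2‖ * 1 :=
            mul_le_mul_of_nonneg_left (h.trans h2) (norm_nonneg _)
        _ = _ := mul_one _
  constructor
  · have h := hprod.integral_prod_left
    refine h.congr (Eventually.of_forall fun t => ?_)
    exact integral_const_mul (exp (-(κ * t))) (fun ρ => w ρ * K 2 (t * ρ))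
  · have h := integral_integral_swap (f := fun t ρ => exp (-(κ * t)) * (w ρ * K 2 (t * ρ))) hprod
    calc _ = ∫ t in Ioi (0 : ℝ), ∫ ρ in Ioi (0 : ℝ), exp (-(κ * t)) * (w ρ * K 2 (t * ρ)) := by
          refine integral_congr_ae (Eventually.of_forall fun t => ?_)
          exact (integral_const_mul _ _).symm
      _ = ∫ ρ in Ioi (0 : ℝ), ∫ t in Ioi (0 : ℝ), exp (-(κ * t)) * (w ρ * K 2 (t * ρ)) := h
      _ = _ := by
          refine setIntegral_congr_fun measurableSet_Ioi fun ρ hρ => ?_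
          have e : (fun t => exp (-(κ * t)) * (w ρ * K 2 (t * ρ))) =
              fun t => w ρ * (exp (-(κ * t)) * K 2 (t * ρ)) := by
            funext t
            ring
          rw [e, integral_const_mul, lapK2 hκ hρ]

end LpSec.Nr
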