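import Mathlib
import Pool.Agent.Lib.MP_1dbab3_gt.Base

/-!
# Row nr-1: Bessel bounds for `K 2`
-/

open Real MeasureTheory Set Filter Topology

namespace LpSec.Nr

private theorem n1_le4 {v : ℝ} (h0 : 0 ≤ v) (h : v ≤ 24) :
    K 2 v ≤ 1 / 2 - v / 6 + v ^ 2 / 48 - v ^ 3 / 720 + v ^ 4 / 17280 := by
  have h1 := (abs_le.1 (K_trunc 2 3 h0 (by norm_num; linarith))).2
  norm_num [Finset.sum_range_succ, Nat.factorial] at h1
  linarith

private theorem n1_le2 {v : ℝ} (h0 : 0 ≤ v) (h : v ≤ 8) :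
    K 2 v ≤ 1 / 2 - v / 6 + v ^ 2 / 48 := by
  have h1 := (abs_le.1 (K_trunc 2 1 h0 (by norm_num; linarith))).2
  norm_num [Finset.sum_range_succ, Nat.factorial] at h1
  linarith

private theorem n1_q {v : ℝ} (h0 : 0 ≤ v) (h : v ≤ 13 / 2) :
    0 ≤ 1 / 2 - v / 2 + v ^ 2 / 6 - v ^ 3 / 48 + v ^ 4 / 720 - v ^ 5 / 17280 := by
  rcases le_total v 2 with h1 | h1
  · have a := h0
    have b : 0 ≤ 2 - v := by linarith
    have t0 : 0 ≤ (2 - v) ^ 5 := by positivity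
    have t1 : 0 ≤ v * (2 - v) ^ 4 := by positivity
    have t2 : 0 ≤ v ^ 2 * (2 - v) ^ 3 := by positivity
    have t3 : 0 ≤ v ^ 3 * (2 - v) ^ 2 := by positivity
    have t4 : 0 ≤ v ^ 4 * (2 - v) := by positivity
    have t5 : 0 ≤ v ^ 5 := by positivity
    nlinarith
  rcases le_total v 3 with h2 | h2
  · have a : 0 ≤ v - 2 := by linarith
    have b : 0 ≤ 3 - v := by linarith
    have t0 : 0 ≤ (3 - v) ^ 5 := by positivity
    have t1 : 0 ≤ (v - 2) * (3 - v) ^ 4 := by positivity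
    have t2 : 0 ≤ (v - 2) ^ 2 * (3 - v) ^ 3 := by positivity
    have t3 : 0 ≤ (v - 2) ^ 3 * (3 - v) ^ 2 := by positivity
    have t4 : 0 ≤ (v - 2) ^ 4 * (3 - v) := by positivity
    have t5 : 0 ≤ (v - 2) ^ 5 := by positivity
    nlinarith
  · have a : 0 ≤ v - 3 := by linarith
    have b : 0 ≤ 13 / 2 - v := by linarith
    have t0 : 0 ≤ (13 / 2 - v) ^ 5 := by positivity
    have t1 : 0 ≤ (v - 3) * (13 / 2 - v) ^ 4 := by positivity
    have t2 : 0 ≤ (v - 3) ^ 2 * (13 / 2 - v) ^ 3 := by positivity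
    have t3 : 0 ≤ (v - 3) ^ 3 * (13 / 2 - v) ^ 2 := by positivity
    have t4 : 0 ≤ (v - 3) ^ 4 * (13 / 2 - v) := by positivity
    have t5 : 0 ≤ (v - 3) ^ 5 := by positivity
    nlinarith

private noncomputable def n1M (v : ℝ) : ℝ :=
  v ^ 2 * K 2 v ^ 2 + 3 / 2 * v * K 2 v ^ 2 - 3 * v ^ 2 * (K 2 v * K 3 v) + v ^ 3 * K 3 v ^ 2

private theorem n1M_deriv (v : ℝ) : HasDerivAt n1M ((3 / 2 - v) * K 2 v ^ 2) v := by
  have h2 : HasDerivAt (K 2) (-(K 3 v)) v := K_hasDerivAt 2 v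
  have h3 : HasDerivAt (K 3) (-(K 4 v)) v := K_hasDerivAt 3 v
  have hv2 : HasDerivAt (fun v : ℝ => v ^ 2) (2 * v) v := by
    simpa using hasDerivAt_pow 2 v
  have hv3 : HasDerivAt (fun v : ℝ => v ^ 3) (3 * v ^ 2) v := by
    simpa using hasDerivAt_pow 3 v
  have h22 : HasDerivAt (fun v => K 2 v ^ 2) (2 * K 2 v * -(K 3 v)) v := by
    refine (h2.fun_pow 2).congr_deriv ?_
    norm_num
  have h33 : HasDerivAt (fun v => K 3 v ^ 2) (2 * K 3 v * -(K 4 v)) v := by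
    refine (h3.fun_pow 2).congr_deriv ?_
    norm_num
  have hlin : HasDerivAt (fun v : ℝ => 3 / 2 * v) (3 / 2) v := by
    simpa using (hasDerivAt_id v).const_mul (3 / 2 : ℝ)
  have h := (((hv2.mul h22).add (hlin.mul h22)).sub ((hv2.const_mul 3).mul (h2.mul h3))).add
    (hv3.mul h33)
  have hrec := K_rec 2 v
  norm_num at hrec
  refine h.congr_deriv ?_
  simp only [Pi.mul_apply]
  have e1 : v * K 4 v = 3 * K 3 v - K 2 v := by linarith
  have e2 : 3 * v ^ 2 * (K 2 v * -(K 4 v)) = -(3 * v * K 2 v * (v * K 4 v)) := by ring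
  have e3 : v ^ 3 * (2 * K 3 v * -(K 4 v)) = -(2 * v ^ 2 * K 3 v * (v * K 4 v)) := by ring
  have e4 : 3 * v ^ 2 * (-(K 3 v) * K 3 v + K 2 v * -(K 4 v)) =
      -(3 * v ^ 2 * K 3 v ^ 2) + 3 * v ^ 2 * (K 2 v * -(K 4 v)) := by ring
  rw [e4, e3, e2, e1]
  ring

private theorem n1M_anti {v : ℝ} (h : 13 / 2 ≤ v) : n1M v ≤ n1M (13 / 2) := by
  have hanti : AntitoneOn n1M (Ici (13 / 2)) := by
    refine antitoneOn_of_deriv_nonpos (convex_Ici _)
      (fun x _ => (n1M_deriv x).continuousAt.continuousWithinAt)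
      (fun x _ => (n1M_deriv x).differentiableAt.differentiableWithinAt) fun x hx => ?_
    rw [interior_Ici, mem_Ioi] at hx
    rw [(n1M_deriv x).deriv]
    have := sq_nonneg (K 2 x)
    nlinarith
  exact hanti (mem_Ici.2 le_rfl) (mem_Ici.2 h) h

private theorem n1M_65 : n1M (13 / 2) ≤ 0.1165 := by
  have h2 := kn_K2_65
  have h3 := kn_K3_65
  obtain ⟨a1, a2⟩ := h2
  obtain ⟨b1, b2⟩ := h3
  unfold n1M
  set a := K 2 (13 / 2)
  set b := K 3 (13 / 2)
  have ha : a ^ 2 ≤ 0.00192 ^ 2 := pow_le_pow_left₀ (by linarith) a2 2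
  have hb : b ^ 2 ≤ 0.02093 ^ 2 := pow_le_pow_left₀ (by linarith) b2 2
  have hab : 0.0019 * 0.02092 ≤ a * b := mul_le_mul a1 b1 (by norm_num) (by linarith)
  norm_num at ha hb hab ⊢
  linarith

theorem K2_mul_abs {v : ℝ} (hv : 0 ≤ v) : |v * K 2 v| ≤ 1 / 2 := by
  rcases le_total v (13 / 2) with h | h
  · have h1 := K2_nonneg hv h
    rw [abs_of_nonneg (mul_nonneg hv h1)]
    have h2 := mul_le_mul_of_nonneg_left (n1_le4 hv (by linarith)) hv
    have h3 := n1_q hv h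
    linarith
  · have h1 := (n1M_anti h).trans n1M_65
    have h2 : 0 ≤ v * (3 / 2 * K 2 v - v * K 3 v) ^ 2 := by positivity
    have h3 : v * (3 / 2 * K 2 v - v * K 3 v) ^ 2 =
        n1M v - (v ^ 2 * K 2 v ^ 2 - 3 / 4 * (v * K 2 v ^ 2)) := by
      unfold n1M
      ring
    have h4 : v * K 2 v ^ 2 ≤ 2 / 13 * (v ^ 2 * K 2 v ^ 2) := by
      have h5 : 0 ≤ v * K 2 v ^ 2 := by positivity
      have h6 := mul_le_mul_of_nonneg_right h h5
      have h7 : v * (v * K 2 v ^ 2) = v ^ 2 * K 2 v ^ 2 := by ring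
      linarith
    have h5 : (v * K 2 v) ^ 2 ≤ (1 / 2) ^ 2 := by
      have h6 : (v * K 2 v) ^ 2 = v ^ 2 * K 2 v ^ 2 := by ring
      rw [h6]
      norm_num at h1 ⊢
      linarith
    exact abs_le_of_sq_le_sq h5 (by norm_num)

theorem K2_lower {v : ℝ} (hv : 0 ≤ v) : -0.0535 ≤ K 2 v := by
  rcases le_total v (13 / 2) with h | h
  · have := K2_nonneg hv h
    linarith
  · have := (abs_le.1 (kn_K2_abs_65 h)).1
    linarith

theorem K2_le_rat {v : ℝ} (hv : 0 ≤ v) : K 2 v ≤ 1 / (2 + 2 * v / 3) := by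
  have hpos : 0 < 2 + 2 * v / 3 := by positivity
  rw [le_div_iff₀ hpos]
  rcases le_total v (3 / 2) with h | h
  · have h1 := n1_le2 hv (by linarith)
    have h2 := mul_le_mul_of_nonneg_right h1 hpos.le
    have h3 : 0 ≤ v ^ 2 * (5 - v) := mul_nonneg (sq_nonneg v) (by linarith)
    nlinarith
  · have h1 := (abs_le.1 (K2_mul_abs hv)).2
    have h2 : 0 < v := by linarith
    rcases le_total 0 (K 2 v) with h3 | h3
    · have h4 := mul_le_mul_of_nonneg_left (show 2 + 2 * v / 3 ≤ 2 * v by linarith) h3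
      linarith
    · have := mul_nonneg (neg_nonneg.2 h3) hpos.le
      linarith

theorem K2_le_quad {v : ℝ} (hv : 0 ≤ v) : K 2 v ≤ 1 / 2 - v / 6 + v ^ 2 / 48 := by
  rcases le_total v 8 with h | h
  · exact n1_le2 hv h
  · have h1 := (abs_le.1 (kn_K2_abs_65 (show 13 / 2 ≤ v by linarith))).2
    nlinarith [sq_nonneg (v - 4)]

end LpSec.Nr
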