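import Mathlib
import Pool.Agent.Lib.MP_1dbab3_gt.WBox

open Real MeasureTheory Set Filter Topology

namespace LpSec.Nr

variable {α : ℝ}

/-! ## ROW nr-2 (needs WBox, W/Chord): second moment near `α = 1` -/

private theorem nr2_tangent {f : ℝ → ℝ} {f' a x y : ℝ} (hf : ConvexOn ℝ (Set.Ici a) f) (hy : a ≤ y)
    (hyx : y < x) (hd : HasDerivAt f f' x) : f x + f' * (y - x) ≤ f y := by
  have h := hf.slope_le_of_hasDerivAt (show y ∈ Set.Ici a from hy)
    (show x ∈ Set.Ici a from hy.trans hyx.le) hyx hd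
  rw [slope_def_field, div_le_iff₀ (by linarith)] at h
  linarith

/-- the general second order bound -/
private theorem nr2_big {x y : ℝ} (hy : 0 ≤ y) (hyx : y < x) :
    W.phk 2 y ≤ W.phk 2 x - W.phk1 2 x * (x - y) + (x - y) ^ 2 := by
  have hx : 0 ≤ x := hy.trans hyx.le
  have h := nr2_tangent (W.phk_upper_cx (κ := 2) (by norm_num)) hy hyx
    (f' := (2 ^ 2 - 2) / 2 * (2 * x) - W.phk1 2 x) (by
      refine ((((hasDerivAt_pow 2 x).const_mul ((2 ^ 2 - 2) / 2 : ℝ)).sub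
        (W.phk_hasDerivAt (κ := 2) (by norm_num) hx))).congr_deriv ?_
      simp only [Nat.cast_ofNat, Nat.add_one_sub_one, pow_one])
  nlinarith

private theorem nr2_phk2_nonpos {x : ℝ} (hx : 0.3 ≤ x) : W.phk2 2 x ≤ 0 := by
  unfold W.phk2
  have p1 : 0 < 1 + (2 + 1) * x := by linarith
  have p2 : 0 < 1 + 2 * x := by linarith
  have p3 : 0 < 1 + x := by linarith
  rw [sub_nonpos, div_add_div _ _ (by positivity) (by positivity), div_le_div_iff₀ (by positivity)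
    (by positivity)]
  have e : 4 * 2 * ((1 + (2 + 1) * x) ^ 2 * (1 + x) ^ 2) -
      ((2 + 1) ^ 2 * (1 + x) ^ 2 + (1 + (2 + 1) * x) ^ 2 * (2 - 1)) * (1 + 2 * x) ^ 2 =
      24 * x ^ 3 + 22 * x ^ 2 - 2 := by ring
  have h2 : 0.09 ≤ x ^ 2 := by nlinarith
  have h3 : 0.027 ≤ x ^ 3 := by nlinarith
  linarith

private theorem nr2_cx : ConvexOn ℝ (Set.Ici 0.3) (fun x => - W.phk 2 x) := by
  refine convexOn_of_hasDerivWithinAt2_nonneg (convex_Ici 0.3)
    (f' := fun x => - W.phk1 2 x) (f'' := fun x => - W.phk2 2 x) ?_ ?_ ?_ ?_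
  · intro x hx
    have hx0 : (0 : ℝ) ≤ x := le_trans (by norm_num) (show (0.3 : ℝ) ≤ x from hx)
    exact (W.phk_hasDerivAt (κ := 2) (by norm_num) hx0).neg.continuousAt.continuousWithinAt
  · intro x hx
    rw [interior_Ici] at hx
    have hx0 : (0 : ℝ) ≤ x := le_trans (by norm_num) (le_of_lt (show (0.3 : ℝ) < x from hx))
    exact (W.phk_hasDerivAt (κ := 2) (by norm_num) hx0).neg.hasDerivWithinAt
  · intro x hx
    rw [interior_Ici] at hx
    have hx0 : (0 : ℝ) ≤ x := le_trans (by norm_num) (le_of_lt (show (0.3 : ℝ) < x from hx))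
    exact (W.phk1_hasDerivAt (κ := 2) (by norm_num) hx0).neg.hasDerivWithinAt
  · intro x hx
    rw [interior_Ici] at hx
    have := nr2_phk2_nonpos (le_of_lt (show (0.3 : ℝ) < x from hx))
    linarith

/-- first order bound on `[3/10, ∞)` -/
private theorem nr2_small {x y : ℝ} (hy : 0.3 ≤ y) (hyx : y < x) :
    W.phk 2 y ≤ W.phk 2 x - W.phk1 2 x * (x - y) := by
  have hx : 0 ≤ x := by linarith
  have h := nr2_tangent nr2_cx hy hyx
    (W.phk_hasDerivAt (κ := 2) (by norm_num) hx).neg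
  nlinarith

/-- the telescoping sum of the slopes -/
private theorem nr2_slope : HasSum (fun i : ℕ => 1 / (((0 : ℕ) : ℝ) + 1 + i) *
    W.phk1 2 (1 / (((0 : ℕ) : ℝ) + 1 + i))) (1 / 2) := by
  have hnn : ∀ i : ℕ, 0 ≤ 1 / (((0 : ℕ) : ℝ) + 1 + i) * W.phk1 2 (1 / (((0 : ℕ) : ℝ) + 1 + i)) := by
    intro i
    have p : (0 : ℝ) < ((0 : ℕ) : ℝ) + 1 + i := by positivity
    exact mul_nonneg (by positivity) (W.phk1_nonneg (by norm_num) (by positivity))
  rw [hasSum_iff_tendsto_nat_of_nonneg hnn]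
  have e : ∀ i : ℕ, 1 / (((0 : ℕ) : ℝ) + 1 + i) * W.phk1 2 (1 / (((0 : ℕ) : ℝ) + 1 + i)) =
      (fun j : ℕ => 3 / ((j : ℝ) + 3) - 1 / ((j : ℝ) + 2)) i -
      (fun j : ℕ => 3 / ((j : ℝ) + 3) - 1 / ((j : ℝ) + 2)) (i + 1) := by
    intro i
    have p : (0 : ℝ) ≤ i := Nat.cast_nonneg i
    unfold W.phk1
    push_cast
    have q1 : (0 : ℝ) + 1 + i ≠ 0 := by positivity
    have q2 : 1 + (2 + 1) * (1 / ((0 : ℝ) + 1 + i)) ≠ 0 := by positivity
    have q3 : 1 + (1 / ((0 : ℝ) + 1 + i)) ≠ 0 := by positivity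
    have q4 : 1 + 2 * (1 / ((0 : ℝ) + 1 + i)) ≠ 0 := by positivity
    have q5 : (i : ℝ) + 3 ≠ 0 := by positivity
    have q6 : (i : ℝ) + 2 ≠ 0 := by positivity
    have q7 : (i : ℝ) + 1 + 3 ≠ 0 := by positivity
    have q8 : (i : ℝ) + 1 + 2 ≠ 0 := by positivity
    have r1 : (2 + 1) * (1 / ((0 : ℝ) + 1 + i)) / (1 + (2 + 1) * (1 / ((0 : ℝ) + 1 + i))) =
        3 / (i + 1 + 3) := by
      rw [div_eq_div_iff q2 q7]; field_simp; ring
    have r2 : (1 / ((0 : ℝ) + 1 + i)) / (1 + (1 / ((0 : ℝ) + 1 + i))) = 1 / (i + 2) := by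
      rw [div_eq_div_iff q3 q6]; field_simp; ring
    have r3 : 2 * (1 / ((0 : ℝ) + 1 + i)) / (1 + 2 * (1 / ((0 : ℝ) + 1 + i))) = 2 / (i + 1 + 2) := by
      rw [div_eq_div_iff q4 q8]; field_simp; ring
    rw [r1, r2, r3]
    have q9 : (i : ℝ) + 1 ≠ 0 := by positivity
    rw [show (0 : ℝ) + 1 + i = i + 1 by ring]
    field_simp
    ring
  have e2 : (fun n : ℕ => ∑ i ∈ Finset.range n, 1 / (((0 : ℕ) : ℝ) + 1 + i) *
      W.phk1 2 (1 / (((0 : ℕ) : ℝ) + 1 + i))) = fun n : ℕ =>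
      1 / 2 - (3 / ((n : ℝ) + 3) - 1 / ((n : ℝ) + 2)) := by
    funext n
    rw [Finset.sum_congr rfl (fun i _ => e i), Finset.sum_range_sub']
    norm_num
  rw [e2]
  have t1 : Tendsto (fun n : ℕ => 3 / ((n : ℝ) + 3)) atTop (𝓝 0) :=
    tendsto_const_nhds.div_atTop (tendsto_atTop_add_const_right _ _ tendsto_natCast_atTop_atTop)
  have t2 : Tendsto (fun n : ℕ => 1 / ((n : ℝ) + 2)) atTop (𝓝 0) :=
    tendsto_const_nhds.div_atTop (tendsto_atTop_add_const_right _ _ tendsto_natCast_atTop_atTop)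
  have t3 := (tendsto_const_nhds (x := (1 / 2 : ℝ)) (f := (atTop : Filter ℕ))).sub (t1.sub t2)
  simpa using t3

private theorem nr2_tail : HasSum (fun i : ℕ => if i < 3 then (0 : ℝ) else
    1 / (((0 : ℕ) : ℝ) + 1 + i) ^ 2) (W.SS 3 2) := by
  have h : HasSum (fun i : ℕ => 1 / (((3 : ℕ) : ℝ) + 1 + i) ^ 2) (W.SS 3 2) :=
    (W.SS_summable 3 (le_refl 2)).hasSum
  have e : (fun i : ℕ => 1 / (((3 : ℕ) : ℝ) + 1 + i) ^ 2) = fun i : ℕ =>
      (fun i : ℕ => if i < 3 then (0 : ℝ) else 1 / (((0 : ℕ) : ℝ) + 1 + i) ^ 2) (i + 3) := by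
    funext i
    simp only
    rw [if_neg (by omega)]
    push_cast
    ring_nf
  rw [e] at h
  have h2 := (hasSum_nat_add_iff (f := fun i : ℕ => if i < 3 then (0 : ℝ) else
    1 / (((0 : ℕ) : ℝ) + 1 + i) ^ 2) 3 (g := W.SS 3 2)).1 h
  have e3 : ∑ i ∈ Finset.range 3, (if i < 3 then (0 : ℝ) else 1 / (((0 : ℕ) : ℝ) + 1 + i) ^ 2) = 0 :=
    Finset.sum_eq_zero fun i hi => if_pos (Finset.mem_range.1 hi)
  rw [e3, add_zero] at h2
  exact h2

private theorem nr2_th {v : ℝ} (hv : 0 < v) (hv1 : v ≤ 1 / 10) :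
    W.th 0 2 (1 - v) ≤ W.th 0 2 1 - v / 2 + 2 / 7 * v ^ 2 := by
  have h1 := W.th_hasSum 0 (k := 2) (by norm_num) (u := 1 - v) (by linarith)
  have h2 := W.th_hasSum 0 (k := 2) (by norm_num) (u := 1) (by norm_num)
  have h3 := nr2_slope.mul_left v
  have h4 := nr2_tail.mul_left (v ^ 2)
  have h5 := hasSum_le (fun i => ?_) h1 ((h2.sub h3).add h4)
  · refine h5.trans ?_
    have h6 := W.SS2_le 3
    have h7 : (1 : ℝ) / (((3 : ℕ) : ℝ) + 1 / 2) = 2 / 7 := by norm_num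
    rw [h7] at h6
    have h8 := mul_le_mul_of_nonneg_left h6 (sq_nonneg v)
    linarith
  · have p : (0 : ℝ) < ((0 : ℕ) : ℝ) + 1 + i := by positivity
    set n : ℝ := ((0 : ℕ) : ℝ) + 1 + i with hn
    have hlt : (1 - v) / n < 1 / n := div_lt_div_of_pos_right (by linarith) p
    have e1 : 1 / n - (1 - v) / n = v / n := by ring
    simp only [Nat.cast_ofNat]
    by_cases hi : i < 3
    · rw [if_pos hi]
      have hi3 : (i : ℝ) ≤ 2 := by
        have : i ≤ 2 := by omega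
        exact_mod_cast this
      have hn3 : n ≤ 3 := by rw [hn]; push_cast; linarith
      have hy : 0.3 ≤ (1 - v) / n := by
        rw [le_div_iff₀ p]
        nlinarith
      have h6 := nr2_small hy hlt
      rw [e1] at h6
      refine h6.trans (le_of_eq ?_)
      ring
    · rw [if_neg hi]
      have hy : 0 ≤ (1 - v) / n := div_nonneg (by linarith) p.le
      have h6 := nr2_big hy hlt
      rw [e1] at h6
      refine h6.trans (le_of_eq ?_)
      ring_nf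

theorem mom_two_le (h1 : 1 < α) (h2 : α ≤ 10 / 9) :
    mom α 2 ≤ 2 - (1 - 1 / α) + 0.83 * (1 - 1 / α) ^ 2 := by
  have hα0 : 0 < α := by linarith
  set v : ℝ := 1 - 1 / α with hv
  have hv0 : 0 < v := by
    rw [hv, sub_pos, div_lt_one hα0]
    exact h1
  have hv1 : v ≤ 1 / 10 := by
    have : 9 / 10 ≤ 1 / α := by
      rw [div_le_div_iff₀ (by norm_num) hα0]
      linarith
    linarith
  have hu : 1 / α = 1 - v := by rw [hv]; ring
  rw [mom_eq_mm h1 (by norm_num : 1 ≤ 2), hu, W.mm_exp (k := 2) (by norm_num) (by linarith)]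
  have h3 := nr2_th hv0 hv1
  have h4 : (2 : ℝ) ^ 2 / (((2 : ℕ) : ℝ) + 1) * exp (W.th 0 2 1) = 2 := by
    have h5 := W.mm_one 2
    rw [W.mm_exp (k := 2) (by norm_num) (by norm_num)] at h5
    rw [h5]
    norm_num [Nat.factorial]
  set x : ℝ := v / 2 - 2 / 7 * v ^ 2 with hx
  have hx0 : 0 ≤ x := by nlinarith
  have h5 : exp (W.th 0 2 (1 - v)) ≤ exp (W.th 0 2 1) * exp (-x) := by
    rw [← Real.exp_add]
    refine Real.exp_le_exp.2 ?_
    linarith
  have h6 : exp (-x) ≤ 1 - x + x ^ 2 / 2 := by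
    have h7 := Real.quadratic_le_exp_of_nonneg hx0
    have h8 : (1 + x + x ^ 2 / 2) * (1 - x + x ^ 2 / 2) = 1 + x ^ 4 / 4 := by ring
    have h9 : 0 < 1 - x + x ^ 2 / 2 := by nlinarith [sq_nonneg (1 - x)]
    rw [Real.exp_neg, inv_le_comm₀ (Real.exp_pos _) h9]
    refine le_trans ?_ h7
    rw [inv_le_iff_one_le_mul₀ h9, h8]
    have : 0 ≤ x ^ 4 := by positivity
    linarith
  have h10 : (2 : ℝ) ^ 2 / (((2 : ℕ) : ℝ) + 1) * exp (W.th 0 2 (1 - v)) ≤ 2 * (1 - x + x ^ 2 / 2) := by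
    calc (2 : ℝ) ^ 2 / (((2 : ℕ) : ℝ) + 1) * exp (W.th 0 2 (1 - v))
        ≤ (2 : ℝ) ^ 2 / (((2 : ℕ) : ℝ) + 1) * (exp (W.th 0 2 1) * exp (-x)) :=
          mul_le_mul_of_nonneg_left h5 (by positivity)
      _ = 2 * exp (-x) := by rw [← mul_assoc, h4]
      _ ≤ 2 * (1 - x + x ^ 2 / 2) := mul_le_mul_of_nonneg_left h6 (by norm_num)
  refine h10.trans ?_
  have e : 2 * (1 - x + x ^ 2 / 2) = 2 - v + 4 / 7 * v ^ 2 + x ^ 2 := by rw [hx]; ring
  rw [e]
  have h11 : x ^ 2 ≤ v ^ 2 / 4 := by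
    have : x ≤ v / 2 := by nlinarith [sq_nonneg v]
    nlinarith
  nlinarith [sq_nonneg v]

end LpSec.Nr
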