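import Mathlib
import Pool.Agent.Lib.MP_1dbab3_gt.Nr.A
import Pool.Agent.Lib.MP_1dbab3_gt.Nr.K2
import Pool.Agent.Lib.MP_1dbab3_gt.Nr.M2
import Pool.Agent.Lib.MP_1dbab3_gt.GamX

/-!
# Near `α = 1`: bounds for `BB`, `PP`, `Nn`
-/

open Real MeasureTheory Set Filter Topology

namespace LpSec.Nr

variable {α : ℝ}

/-- the weight of `PP` -/
noncomputable def hh (α ρ : ℝ) : ℝ := (ρ - cc α * ρ ^ α) ^ 2 * F α ρ

noncomputable def q2 (α : ℝ) : ℝ := mom α 2 - 2 + (α - 1)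

noncomputable def p1 (α : ℝ) : ℝ := α / DD α - 1

theorem hh_nonneg (hα : 1 < α) (ρ : ℝ) : 0 ≤ hh α ρ :=
  mul_nonneg (sq_nonneg _) (F_pos (by linarith) ρ).le

theorem cM_add (hα : 1 < α) : cc α * Mq α (1 + α) = 2 := by
  rw [M_rec hα (by norm_num), M_one hα]; norm_num

theorem cM_al (hα : 1 < α) : cc α * Mq α α = 1 := by
  have h := M_rec hα (q := 0) (by norm_num)
  rw [zero_add, M_zero hα] at h
  linarith

theorem ccM_two (hα : 1 < α) : cc α ^ 2 * Mq α (2 * α) = 1 + α := by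
  have h := M_rec hα (q := α) (by linarith)
  rw [← two_mul] at h
  have h1 := cM_al hα
  calc cc α ^ 2 * Mq α (2 * α) = cc α * (cc α * Mq α (2 * α)) := by ring
    _ = (α + 1) * (cc α * Mq α α) := by rw [h]; ring
    _ = _ := by rw [h1]; ring

theorem hh_int (hα : 1 < α) :
    IntegrableOn (hh α) (Ioi 0) ∧ ∫ ρ in Ioi (0 : ℝ), hh α ρ = q2 α := by
  obtain ⟨h1, h2⟩ := PP_int hα (s := 0) le_rfl
  have e : (fun ρ => (ρ - cc α * ρ ^ α) ^ 2 * F α ρ * K 2 (0 * ρ)) =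
      fun ρ => (1 / 2 : ℝ) * hh α ρ := by
    funext ρ
    rw [zero_mul, K_zero]
    unfold hh
    norm_num [Nat.factorial]
    ring
  rw [e] at h1 h2
  have h3 : IntegrableOn (fun ρ => (2 : ℝ) * ((1 / 2 : ℝ) * hh α ρ)) (Ioi 0) := h1.const_mul 2
  have e2 : (fun ρ => (2 : ℝ) * ((1 / 2 : ℝ) * hh α ρ)) = hh α := by
    funext ρ; ring
  rw [e2] at h3
  refine ⟨h3, ?_⟩
  rw [integral_const_mul] at h2
  unfold PP at h2
  rw [T_zero, T_zero, T_zero, M_two] at h2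
  norm_num [Nat.factorial] at h2
  have h4 := cM_add hα
  have h5 := ccM_two hα
  unfold q2
  linarith

theorem cM_sub (hα : 1 < α) : cc α * Mq α (α - 1) = (DD α)⁻¹ := by
  rw [← G_inv hα]
  unfold Mq
  rw [← integral_const_mul]
  refine setIntegral_congr_fun measurableSet_Ioi fun ρ hρ => ?_
  have h0 : (0 : ℝ) < ρ := hρ
  beta_reduce
  rw [G_eq hα h0, rpow_sub_one h0.ne']
  ring

theorem hh_div (hα : 1 < α) : IntegrableOn (fun ρ => hh α ρ / ρ) (Ioi 0) ∧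
    ∫ ρ in Ioi (0 : ℝ), hh α ρ / ρ = p1 α := by
  have i1 := rpowF_int hα (q := 1) (by norm_num)
  have i2 := rpowF_int hα (q := α) (by linarith)
  have i3 := rpowF_int hα (q := 2 * α - 1) (by linarith)
  have e : ∀ ρ ∈ Ioi (0 : ℝ), ρ ^ (1 : ℝ) * F α ρ - 2 * cc α * (ρ ^ α * F α ρ) +
      cc α ^ 2 * (ρ ^ (2 * α - 1) * F α ρ) = hh α ρ / ρ := by
    intro ρ hρ
    have h0 : (0 : ℝ) < ρ := hρ
    have e3 : ρ ^ (2 * α) = ρ ^ α * ρ ^ α := by rw [two_mul, rpow_add h0]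
    unfold hh
    rw [rpow_one, rpow_sub_one h0.ne', e3]
    field_simp
    ring
  have j2 : IntegrableOn (fun ρ => 2 * cc α * (ρ ^ α * F α ρ)) (Ioi 0) := i2.const_mul _
  have j3 : IntegrableOn (fun ρ => cc α ^ 2 * (ρ ^ (2 * α - 1) * F α ρ)) (Ioi 0) :=
    i3.const_mul _
  have j12 : IntegrableOn (fun ρ => ρ ^ (1 : ℝ) * F α ρ - 2 * cc α * (ρ ^ α * F α ρ)) (Ioi 0) :=
    i1.sub j2
  refine ⟨(j12.add j3).congr_fun e measurableSet_Ioi, ?_⟩
  rw [← setIntegral_congr_fun measurableSet_Ioi e, integral_add j12 j3, integral_sub i1 j2,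
    integral_const_mul, integral_const_mul]
  have h1 := M_one hα
  have h2 := cM_al hα
  have h3 := M_rec hα (q := α - 1) (by linarith)
  have h4 := cM_sub hα
  have e1 : α - 1 + α = 2 * α - 1 := by ring
  rw [e1] at h3
  unfold Mq at h1 h2 h3 h4
  unfold p1
  set A1 := ∫ ρ in Ioi (0 : ℝ), ρ ^ (1 : ℝ) * F α ρ with hA1
  set A2 := ∫ ρ in Ioi (0 : ℝ), ρ ^ α * F α ρ with hA2
  set A3 := ∫ ρ in Ioi (0 : ℝ), ρ ^ (2 * α - 1) * F α ρ with hA3
  set A4 := ∫ ρ in Ioi (0 : ℝ), ρ ^ (α - 1) * F α ρ with hA4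
  have e2 : cc α ^ 2 * A3 = α * (cc α * A4) := by
    calc cc α ^ 2 * A3 = cc α * (cc α * A3) := by ring
      _ = _ := by rw [h3]; ring
  rw [e2, h4, h1]
  have e3 : 2 * cc α * A2 = 2 * (cc α * A2) := by ring
  rw [e3, h2]
  ring

theorem PP_eq (hα : 1 < α) {s : ℝ} (hs : 0 ≤ s) :
    IntegrableOn (fun ρ => hh α ρ * K 2 (s * ρ)) (Ioi 0) ∧
    PP α s = ∫ ρ in Ioi (0 : ℝ), hh α ρ * K 2 (s * ρ) := PP_int hα hs

theorem q2_nonneg (hα : 1 < α) : 0 ≤ q2 α := by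
  rw [← (hh_int hα).2]
  exact setIntegral_nonneg measurableSet_Ioi fun ρ _ => hh_nonneg hα ρ

theorem p1_nonneg (hα : 1 < α) : 0 ≤ p1 α := by
  rw [← (hh_div hα).2]
  exact setIntegral_nonneg measurableSet_Ioi fun ρ hρ => div_nonneg (hh_nonneg hα ρ) (le_of_lt hρ)

theorem PP_le_half (hα : 1 < α) {s : ℝ} (hs : 0 ≤ s) : PP α s ≤ q2 α / 2 := by
  obtain ⟨h1, h2⟩ := PP_eq hα hs
  obtain ⟨h3, h4⟩ := hh_int hα
  rw [h2, ← h4, ← integral_div]
  refine setIntegral_mono_on h1 (h3.div_const 2) measurableSet_Ioi fun ρ hρ => ?_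
  have h5 := K_abs_le 2 (mul_nonneg hs (le_of_lt hρ))
  norm_num [Nat.factorial] at h5
  have h6 := (abs_le.1 h5).2
  have := hh_nonneg hα ρ
  nlinarith

theorem PP_ge (hα : 1 < α) {s : ℝ} (hs : 0 ≤ s) : -(0.0535 * q2 α) ≤ PP α s := by
  obtain ⟨h1, h2⟩ := PP_eq hα hs
  obtain ⟨h3, h4⟩ := hh_int hα
  rw [h2, ← h4, ← neg_mul, ← integral_const_mul]
  refine setIntegral_mono_on (h3.const_mul _) h1 measurableSet_Ioi fun ρ hρ => ?_
  have h5 := K2_lower (mul_nonneg hs (le_of_lt hρ))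
  have := hh_nonneg hα ρ
  nlinarith

theorem PP_abs (hα : 1 < α) {s : ℝ} (hs : 0 < s) : |PP α s| ≤ p1 α / (2 * s) := by
  obtain ⟨h1, h2⟩ := PP_eq hα hs.le
  obtain ⟨h3, h4⟩ := hh_div hα
  rw [h2, ← h4, ← integral_div, ← Real.norm_eq_abs]
  refine (norm_integral_le_integral_norm _).trans ?_
  refine setIntegral_mono_on h1.norm (h3.div_const _) measurableSet_Ioi fun ρ hρ => ?_
  have h0 : (0 : ℝ) < ρ := hρ
  have h5 := K2_mul_abs (mul_nonneg hs.le h0.le)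
  rw [norm_eq_abs, abs_mul, abs_of_nonneg (hh_nonneg hα ρ)]
  rw [abs_mul, abs_of_pos (mul_pos hs h0)] at h5
  have h6 := hh_nonneg hα ρ
  rw [div_div, le_div_iff₀ (by positivity)]
  nlinarith

theorem PP_rat (hα : 1 < α) {s : ℝ} (hs : 0 ≤ s) :
    PP α s ≤ (q2 α / 4 + s / 3 * p1 α) / (2 * (1 / 2 + s / 3) ^ 2) := by
  obtain ⟨h1, h2⟩ := PP_eq hα hs
  obtain ⟨h3, h4⟩ := hh_int hα
  obtain ⟨h5, h6⟩ := hh_div hα
  rw [h2, ← h4, ← h6, ← integral_div, ← integral_const_mul, ← integral_add (h3.div_const 4)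
    (h5.const_mul (s / 3)), ← integral_div]
  refine setIntegral_mono_on h1 (((h3.div_const 4).add (h5.const_mul (s / 3))).div_const _)
    measurableSet_Ioi fun ρ hρ => ?_
  have h0 : (0 : ℝ) < ρ := hρ
  have h7 := K2_le_rat (mul_nonneg hs h0.le)
  have h8 := hh_nonneg hα ρ
  refine (mul_le_mul_of_nonneg_left h7 h8).trans ?_
  have h9 : 1 / (2 + 2 * (s * ρ) / 3) ≤ (1 / 4 + s / 3 / ρ) / (2 * (1 / 2 + s / 3) ^ 2) := by
    have h10 : 0 < 2 + 2 * (s * ρ) / 3 := by positivity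
    rw [div_le_div_iff₀ h10 (by positivity)]
    have e : (1 / 4 + s / 3 / ρ) * (2 + 2 * (s * ρ) / 3) - 1 * (2 * (1 / 2 + s / 3) ^ 2) =
        s / 6 * (ρ - 2) ^ 2 / ρ := by
      field_simp
      ring
    have : 0 ≤ s / 6 * (ρ - 2) ^ 2 / ρ := by positivity
    linarith
  calc hh α ρ * (1 / (2 + 2 * (s * ρ) / 3)) ≤
      hh α ρ * ((1 / 4 + s / 3 / ρ) / (2 * (1 / 2 + s / 3) ^ 2)) :=
        mul_le_mul_of_nonneg_left h9 h8
    _ = _ := by
      field_simp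

theorem BB_int (hα : 1 < α) {s : ℝ} (hs : 0 ≤ s) :
    IntegrableOn (fun ρ => G α ρ * K 2 (s * ρ)) (Ioi 0) ∧
    BB α s = ∫ ρ in Ioi (0 : ℝ), G α ρ * K 2 (s * ρ) := by
  have i1 : IntegrableOn (fun ρ => cc α * (ρ ^ α * F α ρ * K 2 (s * ρ))) (Ioi 0) :=
    (Tq_int hα (q := α) (by linarith) 2 hs).const_mul (cc α)
  have e : ∀ ρ ∈ Ioi (0 : ℝ), cc α * (ρ ^ α * F α ρ * K 2 (s * ρ)) = G α ρ * K 2 (s * ρ) := by
    intro ρ hρ
    rw [G_eq hα hρ]; ring
  refine ⟨i1.congr_fun e measurableSet_Ioi, ?_⟩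
  rw [← setIntegral_congr_fun measurableSet_Ioi e, integral_const_mul]
  rfl

theorem BB_abs_half (hα : 1 < α) {s : ℝ} (hs : 0 ≤ s) : |BB α s| ≤ 1 / 2 := by
  obtain ⟨h1, h2⟩ := BB_int hα hs
  have h3 := G_integrable hα
  have h4 := G_integral hα
  have e : (1 / 2 : ℝ) = ∫ ρ in Ioi (0 : ℝ), G α ρ / 2 := by rw [integral_div, h4]
  rw [h2, e, ← Real.norm_eq_abs]
  refine (norm_integral_le_integral_norm _).trans ?_
  refine setIntegral_mono_on h1.norm (h3.div_const _) measurableSet_Ioi fun ρ hρ => ?_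
  have h5 := K_abs_le 2 (mul_nonneg hs (le_of_lt hρ))
  norm_num [Nat.factorial] at h5
  have h6 := G_nonneg (by linarith : 0 < α) hρ
  rw [norm_eq_abs, abs_mul, abs_of_nonneg h6]
  nlinarith

theorem BB_abs (hα : 1 < α) {s : ℝ} (hs : 0 < s) : |BB α s| ≤ (DD α)⁻¹ / (2 * s) := by
  obtain ⟨h1, h2⟩ := BB_int hα hs.le
  have h3 := G_div_integrable hα
  have h4 := G_inv hα
  rw [h2, ← h4, ← integral_div, ← Real.norm_eq_abs]
  refine (norm_integral_le_integral_norm _).trans ?_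
  refine setIntegral_mono_on h1.norm (h3.div_const _) measurableSet_Ioi fun ρ hρ => ?_
  have h0 : (0 : ℝ) < ρ := hρ
  have h5 := K2_mul_abs (mul_nonneg hs.le h0.le)
  have h6 := G_nonneg (by linarith : 0 < α) hρ
  rw [norm_eq_abs, abs_mul, abs_of_nonneg h6]
  rw [abs_mul, abs_of_pos (mul_pos hs h0)] at h5
  rw [div_div, le_div_iff₀ (by positivity)]
  nlinarith

/-! ## scalars for `α ≤ 10/9` -/

theorem vpos (hα : 1 < α) : 0 < 1 - 1 / α := by
  rw [sub_pos, div_lt_one (by linarith)]; exact hα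

theorem vle (hα : 1 < α) (h2 : α ≤ 10 / 9) : 1 - 1 / α ≤ 1 / 10 := by
  have : 9 / 10 ≤ 1 / α := by
    rw [le_div_iff₀ (by linarith)]; linarith
  linarith

theorem al_eq (hα : 1 < α) : α - 1 = (1 - 1 / α) * α := by
  field_simp

theorem q2_le (hα : 1 < α) (h2 : α ≤ 10 / 9) : q2 α ≤ 0.175 * (α - 1) := by
  have h1 := mom_two_le hα h2
  have h3 := vpos hα
  have h4 := vle hα h2
  have h5 := al_eq hα
  have h6 : α * (1 - (1 - 1 / α)) = 1 := by field_simp; ring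
  set v := 1 - 1 / α with hv
  unfold q2
  have h7 : mom α 2 - 2 + (α - 1) ≤ -v + 0.83 * v ^ 2 + (α - 1) := by linarith
  refine h7.trans ?_
  -- α - 1 = v α, α = 1 + v α
  have h8 : α - 1 = v * α := h5
  have h9 : 0 < α := by linarith
  -- -v + .83 v^2 + v α ≤ .175 v α  <=> -1 + .83 v + .825 α ≤ 0
  have h10 : -1 + 0.83 * v + 0.825 * α ≤ 0 := by
    norm_num at h2 ⊢
    linarith
  have h11 : -v + 0.83 * v ^ 2 + v * α - 0.175 * (v * α) = v * (-1 + 0.83 * v + 0.825 * α) := by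
    ring
  have h12 : v * (-1 + 0.83 * v + 0.825 * α) ≤ 0 :=
    mul_nonpos_of_nonneg_of_nonpos h3.le h10
  rw [h8]
  linarith

theorem DD_ge (hα : 1 < α) (h2 : α ≤ 10 / 9) :
    exp ((1 - 1 / α) - 0.25 * (1 - 1 / α) ^ 2) ≤ DD α := by
  have h0 := DD_pos (by linarith : 0 < α)
  have h := log_DD_near_one hα ((vle hα h2).trans (by norm_num))
  calc _ ≤ exp (log (DD α)) := exp_le_exp.2 h
    _ = DD α := exp_log h0

theorem DD_ge_lin (hα : 1 < α) (h2 : α ≤ 10 / 9) : 1 + (1 - 1 / α) ≤ DD α := by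
  have h3 := vpos hα
  have h4 := vle hα h2
  refine le_trans ?_ (DD_ge hα h2)
  set v := 1 - 1 / α with hv
  have h5 : 0 ≤ v - 0.25 * v ^ 2 := by nlinarith
  have h6 := Real.quadratic_le_exp_of_nonneg h5
  refine le_trans ?_ h6
  nlinarith [mul_nonneg h3.le (sq_nonneg v)]

theorem p1_le (hα : 1 < α) (h2 : α ≤ 10 / 9) : p1 α ≤ 0.8 * (1 - 1 / α) ^ 2 := by
  have h3 := vpos hα
  have h4 := vle hα h2
  have h0 : 0 < α := by linarith
  have hD := DD_ge hα h2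
  have hDp := DD_pos h0
  have h6 : α * (1 - (1 - 1 / α)) = 1 := by field_simp; ring
  set v := 1 - 1 / α with hv
  set x := v - 0.25 * v ^ 2 with hx
  have hx0 : 0 ≤ x := by rw [hx]; norm_num; nlinarith
  have hx1 : x ≤ v := by rw [hx]; norm_num; nlinarith
  have hb := Real.exp_bound (x := -x) (by rw [abs_neg, abs_of_nonneg hx0]; linarith)
    (n := 4) (by norm_num)
  rw [abs_neg, abs_of_nonneg hx0] at hb
  norm_num [Finset.sum_range_succ, Nat.factorial] at hb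
  have hb2 := (abs_le.1 hb).2
  have key : exp (-x) ≤ (1 - v) * (1 + 0.8 * v ^ 2) := by
    have h7 : exp (-x) ≤ 1 - x + x ^ 2 / 2 - x ^ 3 / 6 + 5 / 96 * x ^ 4 := by
      linarith
    refine h7.trans ?_
    have h8 : x ^ 4 ≤ v ^ 4 := pow_le_pow_left₀ hx0 hx1 4
    have h9 : x ^ 2 = v ^ 2 - 0.5 * v ^ 3 + 0.0625 * v ^ 4 := by rw [hx]; norm_num; ring
    have h10 : v ^ 3 - 0.75 * v ^ 4 ≤ x ^ 3 := by
      have e : x ^ 3 = v ^ 3 - 0.75 * v ^ 4 + 0.1875 * v ^ 5 - 0.015625 * v ^ 6 := by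
        rw [hx]; norm_num; ring
      rw [e]
      have : 0 ≤ v ^ 5 * (0.1875 - 0.015625 * v) := by
        refine mul_nonneg (by positivity) ?_
        norm_num; linarith
      linarith
    rw [h9, hx]
    have h11 : 0 ≤ v ^ 2 * (0.05 - 0.39 * v - 0.25 * v ^ 2) := by
      refine mul_nonneg (by positivity) ?_
      norm_num
      nlinarith
    have h12 : 0 ≤ v ^ 3 := by positivity
    have h13 : 0 ≤ v ^ 4 := by positivity
    norm_num at h11 h10 ⊢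
    nlinarith
  unfold p1
  rw [sub_le_iff_le_add, div_le_iff₀ hDp]
  have h14 : 1 ≤ DD α * exp (-x) := by
    calc (1 : ℝ) = exp x * exp (-x) := by rw [← exp_add, add_neg_cancel, exp_zero]
      _ ≤ _ := by gcongr
  have h15 : 1 ≤ DD α * ((1 - v) * (1 + 0.8 * v ^ 2)) :=
    h14.trans (mul_le_mul_of_nonneg_left key hDp.le)
  calc α ≤ α * (DD α * ((1 - v) * (1 + 0.8 * v ^ 2))) := by
        nlinarith
    _ = (α * (1 - v)) * (DD α * (1 + 0.8 * v ^ 2)) := by ring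
    _ = _ := by rw [h6]; ring

theorem p1_le' (hα : 1 < α) (h2 : α ≤ 10 / 9) : p1 α ≤ 0.072 * (α - 1) := by
  have h3 := vpos hα
  have h4 := vle hα h2
  have h5 := al_eq hα
  refine (p1_le hα h2).trans ?_
  rw [h5]
  set v := 1 - 1 / α with hv
  have h6 : α * (1 - v) = 1 := by rw [hv]; field_simp; ring
  have h7 : (0.8 : ℝ) * v ^ 2 = 0.8 * v * (v * (α * (1 - v))) := by rw [h6]; ring
  have h8 : v * (1 - v) ≤ 0.09 := by norm_num; nlinarith
  have h9 : 0 < v * α := by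
    have : 0 < α := by linarith
    positivity
  rw [h7]
  have h10 : 0.8 * v * (v * (α * (1 - v))) = 0.8 * (v * (1 - v)) * (v * α) := by ring
  rw [h10]
  have h11 : v * (1 - v) * (v * α) ≤ 0.09 * (v * α) := mul_le_mul_of_nonneg_right h8 h9.le
  norm_num at h11 ⊢
  linarith

theorem Nn_abs (hα : 1 < α) (h2 : α ≤ 10 / 9) {s : ℝ} (hs : 0 < s) :
    |Nn α s| ≤ (α - 1) / (2 * s) := by
  have h1 := BB_abs hα hs
  have h3 := PP_abs hα hs
  have hD := DD_ge_lin hα h2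
  have hDp := DD_pos (by linarith : 0 < α)
  rw [Nn_eq hα hs.le]
  have hα1 : 0 < α - 1 := by linarith
  calc |-((α - 1) * BB α s) + PP α s| ≤ |-((α - 1) * BB α s)| + |PP α s| := abs_add_le _ _
    _ ≤ (α - 1) * ((DD α)⁻¹ / (2 * s)) + p1 α / (2 * s) := by
        rw [abs_neg, abs_mul, abs_of_pos hα1]
        gcongr
    _ ≤ (α - 1) / (2 * s) := by
        rw [← mul_div_assoc, ← add_div]
        refine div_le_div_of_nonneg_right ?_ (by positivity)
        unfold p1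
        have h4 : (α - 1) * (DD α)⁻¹ + (α / DD α - 1) = (2 * α - 1) / DD α - 1 := by
          field_simp; ring
        rw [h4, sub_le_iff_le_add, div_le_iff₀ hDp]
        have h5 : α * (1 + (1 - 1 / α)) = 2 * α - 1 := by field_simp; ring
        nlinarith

/-- crude lower bound of the second derivative of `e^s Phi` -/
theorem X2_ge_crude (hα : 1 < α) (h2 : α ≤ 10 / 9) {s : ℝ} (hs : 0 < s) :
    -(0.51 * (α - 1) * exp s) ≤ Xd α 2 s := by
  rw [X2_eq hα hs, Nn_eq hα hs.le]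
  have h1 := (abs_le.1 (BB_abs_half hα hs.le)).2
  have h3 := PP_ge hα hs.le
  have h4 := q2_le hα h2
  have he := exp_pos s
  have h5 : -(0.51 * (α - 1)) ≤ -((α - 1) * BB α s) + PP α s := by
    norm_num at h3 h4 ⊢
    nlinarith
  calc -(0.51 * (α - 1) * exp s) = exp s * -(0.51 * (α - 1)) := by ring
    _ ≤ _ := mul_le_mul_of_nonneg_left h5 he.le

end LpSec.Nr
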