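import Mathlib
import Pool.Agent.Lib.MP_1dbab3_gt.WBase
import Pool.Agent.Lib.MP_1dbab3_gt.Nr.Def
import Pool.Agent.Lib.MP_1dbab3_gt.Nr.S
import Pool.Agent.Lib.MP_1dbab3_gt.Nr.Lap

open Real MeasureTheory Set Filter Topology

namespace LpSec.Nr

variable {α : ℝ}

/-! ## ROW nr-8: Laplace transforms (Near, Nr/S.lean, lapK2, lap_weight) -/

/-- the comparison integral `∫ Phi(ys) e^(-(1-y)s) ds` -/
noncomputable def JI (α y : ℝ) : ℝ := ∫ s in Ioi (0 : ℝ), Phi α (y * s) * exp (-((1 - y) * s))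

private theorem nr8_exp_int {κ : ℝ} (hκ : 0 < κ) :
    IntegrableOn (fun t => exp (-(κ * t))) (Ioi 0) := by
  have h := exp_neg_integrableOn_Ioi 0 hκ
  simpa only [neg_mul] using h

/-- a bounded function which is continuous on `[0,∞)` times an exponential is integrable -/
private theorem nr8_bdd_int {κ : ℝ} (hκ : 0 < κ) {f : ℝ → ℝ} (hf : ContinuousOn f (Ici 0)) {C : ℝ}
    (hC : ∀ t, 0 ≤ t → |f t| ≤ C) : IntegrableOn (fun t => exp (-(κ * t)) * f t) (Ioi 0) := by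
  refine Integrable.mono' ((nr8_exp_int hκ).mul_const C) ?_ ?_
  · have h1 : ContinuousOn (fun t => exp (-(κ * t)) * f t) (Ioi 0) := by
      refine ContinuousOn.mul ?_ (hf.mono Ioi_subset_Ici_self)
      fun_prop
    exact h1.aestronglyMeasurable measurableSet_Ioi
  · refine (ae_restrict_iff' measurableSet_Ioi).2 (Eventually.of_forall fun t ht => ?_)
    rw [norm_mul, Real.norm_of_nonneg (exp_pos _).le, Real.norm_eq_abs]
    exact mul_le_mul_of_nonneg_left (hC t (le_of_lt ht)) (exp_pos _).le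

private theorem nr8_Phi_int (hα : 1 < α) {κ : ℝ} (hκ : 0 < κ) :
    IntegrableOn (fun t => exp (-(κ * t)) * Phi α t) (Ioi 0) :=
  nr8_bdd_int hκ (Phi_continuousOn hα) (fun t ht => Phi_abs_le_one hα ht)

private theorem nr8_Nn_int (hα : 1 < α) {κ : ℝ} (hκ : 0 < κ) :
    IntegrableOn (fun t => exp (-(κ * t)) * Nn α t) (Ioi 0) := by
  refine nr8_bdd_int hκ (f := Nn α) (C := 4) ?_ ?_
  · exact ((Phi_continuousOn hα).sub ((Phi1_continuousOn hα).const_smul (2 : ℝ))).add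
      (Phi2_continuousOn hα)
  · intro t ht
    have h0 := abs_le.1 (Phi_abs_le_one hα ht)
    have h1 := abs_le.1 (Phi1_abs_le hα ht)
    have h2 := abs_le.1 (Phi2_abs_le hα ht)
    unfold Nn
    rw [abs_le]
    constructor <;> linarith [h0.1, h0.2, h1.1, h1.2, h2.1, h2.2]

theorem JI_int (hα : 1 < α) {y : ℝ} (hy : 0 < y) (hy1 : y < 1) :
    IntegrableOn (fun s => Phi α (y * s) * exp (-((1 - y) * s))) (Ioi 0) := by
  have h1 := nr8_bdd_int (κ := 1 - y) (by linarith) (f := fun s => Phi α (y * s)) (C := 1) ?_ ?_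
  · refine h1.congr_fun (fun s _ => ?_) measurableSet_Ioi
    exact mul_comm _ _
  · refine (Phi_continuousOn hα).comp (by fun_prop) ?_
    intro s hs
    exact mul_nonneg hy.le hs
  · intro t ht
    exact Phi_abs_le_one hα (mul_nonneg hy.le ht)

private theorem nr8_W (hα : 1 < α) {κ : ℝ} (hκ : 0 < κ) :
    (∫ t in Ioi (0 : ℝ), exp (-(κ * t)) * Nn α t) -
      (1 + κ) ^ 2 * (∫ t in Ioi (0 : ℝ), exp (-(κ * t)) * Phi α t) = -(κ + 1) := by
  have hder : ∀ t ∈ Ioi (0 : ℝ), HasDerivAt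
      (fun t => exp (-(κ * t)) * (-(Phi1 α t) + (κ + 2) * Phi α t))
      (exp (-(κ * t)) * Nn α t - (1 + κ) ^ 2 * (exp (-(κ * t)) * Phi α t)) t := by
    intro t ht
    have ht0 : (0 : ℝ) < t := ht
    have h1 : HasDerivAt (fun t => exp (-(κ * t))) (exp (-(κ * t)) * (-κ)) t := by
      have := ((hasDerivAt_id t).const_mul κ).neg.exp
      simpa using this
    have h2 := (Phi1_hasDerivAt hα ht0).neg.add ((Phi_hasDerivAt hα ht0).const_mul (κ + 2))
    refine (h1.mul h2).congr_deriv ?_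
    unfold Nn
    simp only [Pi.add_apply, Pi.neg_apply]
    ring
  have hcont : ContinuousWithinAt
      (fun t => exp (-(κ * t)) * (-(Phi1 α t) + (κ + 2) * Phi α t)) (Ici 0) 0 := by
    have h1 : ContinuousOn (fun t => exp (-(κ * t)) * (-(Phi1 α t) + (κ + 2) * Phi α t)) (Ici 0) := by
      refine ContinuousOn.mul (by fun_prop) ?_
      exact (Phi1_continuousOn hα).neg.add ((Phi_continuousOn hα).const_smul (κ + 2))
    exact h1 0 self_mem_Ici
  have iN := nr8_Nn_int hα hκ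
  have iP := nr8_Phi_int hα hκ
  have iP' : IntegrableOn (fun t => (1 + κ) ^ 2 * (exp (-(κ * t)) * Phi α t)) (Ioi 0) :=
    iP.const_mul _
  have hint : IntegrableOn (fun t => exp (-(κ * t)) * (-(Phi1 α t) + (κ + 2) * Phi α t)) (Ioi 0) := by
    refine nr8_bdd_int hκ (C := 1 + (κ + 2)) ?_ ?_
    · exact (Phi1_continuousOn hα).neg.add ((Phi_continuousOn hα).const_smul (κ + 2))
    · intro t ht
      have h0 := Phi_abs_le_one hα ht
      have h1 := Phi1_abs_le hα ht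
      calc |-(Phi1 α t) + (κ + 2) * Phi α t| ≤ |-(Phi1 α t)| + |(κ + 2) * Phi α t| := abs_add_le _ _
        _ ≤ 1 + (κ + 2) * 1 := by
            rw [abs_neg, abs_mul, abs_of_pos (by linarith : 0 < κ + 2)]
            gcongr
        _ = _ := by ring
  have hlim := tendsto_zero_of_hasDerivAt_of_integrableOn_Ioi hder (iN.sub iP') hint
  have key := integral_Ioi_of_hasDerivAt_of_tendsto hcont hder (iN.sub iP') hlim
  rw [integral_sub iN iP', integral_const_mul, Phi_zero hα, Phi1_zero hα, mul_zero, neg_zero,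
    exp_zero] at key
  rw [key]
  ring

private theorem nr8_sub {y : ℝ} (hy : 0 < y) :
    JI α y = y⁻¹ * ∫ t in Ioi (0 : ℝ), exp (-((1 - y) / y * t)) * Phi α t := by
  have h := integral_comp_mul_left_Ioi (fun t => exp (-((1 - y) / y * t)) * Phi α t) 0 hy
  rw [mul_zero, smul_eq_mul] at h
  rw [← h]
  unfold JI
  refine setIntegral_congr_fun measurableSet_Ioi fun s _ => ?_
  beta_reduce
  have e : (1 - y) / y * (y * s) = (1 - y) * s := by field_simp
  rw [e, mul_comm]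

theorem JI_eq (hα : 1 < α) {y : ℝ} (hy : 0 < y) (hy1 : y < 1) :
    JI α y = 1 + y * ∫ t in Ioi (0 : ℝ), exp (-((1 - y) / y * t)) * Nn α t := by
  have hκ : 0 < (1 - y) / y := div_pos (by linarith) hy
  have h := nr8_W hα hκ
  rw [nr8_sub hy]
  set I1 := ∫ t in Ioi (0 : ℝ), exp (-((1 - y) / y * t)) * Nn α t with hI1
  set I2 := ∫ t in Ioi (0 : ℝ), exp (-((1 - y) / y * t)) * Phi α t with hI2
  have e : 1 + (1 - y) / y = 1 / y := by field_simp; ring
  have e2 : (1 - y) / y + 1 = 1 / y := by rw [add_comm]; exact e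
  rw [e, e2] at h
  field_simp at h ⊢
  linarith

/-! ### elementary bounds for the exponential -/

private theorem nr8_exp2 {x : ℝ} (hx : 0 ≤ x) : exp (-x) ≤ 1 - x + x ^ 2 / 2 := by
  have h1 := Real.quadratic_le_exp_of_nonneg hx
  have h2 : exp (-x) * exp x = 1 := by rw [← exp_add, neg_add_cancel, exp_zero]
  have h3 : 0 < 1 - x + x ^ 2 / 2 := by nlinarith [sq_nonneg (x - 1)]
  have h4 : 1 ≤ (1 - x + x ^ 2 / 2) * (1 + x + x ^ 2 / 2) := by
    have e : (1 - x + x ^ 2 / 2) * (1 + x + x ^ 2 / 2) = 1 + x ^ 4 / 4 := by ring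
    have h : 0 ≤ x ^ 4 / 4 := by positivity
    rw [e]
    linarith
  have h5 : 1 ≤ (1 - x + x ^ 2 / 2) * exp x :=
    h4.trans (mul_le_mul_of_nonneg_left h1 h3.le)
  have h6 := exp_pos x
  by_contra hcon
  push Not at hcon
  nlinarith [mul_lt_mul_of_pos_right hcon h6]

private theorem nr8_mono {f f' : ℝ → ℝ} (hf : ∀ x, HasDerivAt f (f' x) x)
    (hf' : ∀ x, 0 ≤ x → 0 ≤ f' x) (h0 : 0 ≤ f 0) {x : ℝ} (hx : 0 ≤ x) : 0 ≤ f x := by
  have hmono : MonotoneOn f (Ici 0) := by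
    refine monotoneOn_of_deriv_nonneg (convex_Ici 0) ?_ ?_ ?_
    · exact fun y _ => (hf y).continuousAt.continuousWithinAt
    · exact fun y _ => (hf y).differentiableAt.differentiableWithinAt
    · intro y hy
      rw [interior_Ici] at hy
      rw [(hf y).deriv]
      exact hf' y (le_of_lt hy)
  exact h0.trans (hmono self_mem_Ici hx hx)

private theorem nr8_dexp (x : ℝ) : HasDerivAt (fun x : ℝ => exp (-x)) (-exp (-x)) x := by
  have := (hasDerivAt_id x).neg.exp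
  simpa using this

private theorem nr8_exp3 {x : ℝ} (hx : 0 ≤ x) : 1 - x + x ^ 2 / 2 - x ^ 3 / 6 ≤ exp (-x) := by
  have h := nr8_mono (f := fun x => exp (-x) - (1 - x + x ^ 2 / 2 - x ^ 3 / 6))
    (f' := fun x => 1 - x + x ^ 2 / 2 - exp (-x)) ?_ ?_ ?_ hx
  · linarith
  · intro x
    have h1 : HasDerivAt (fun x : ℝ => 1 - x + x ^ 2 / 2 - x ^ 3 / 6)
        (0 - 1 + 2 * x / 2 - 3 * x ^ 2 / 6) x := by
      have a := ((hasDerivAt_const x (1 : ℝ)).sub (hasDerivAt_id x)).add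
        ((hasDerivAt_pow 2 x).div_const 2)
      have b := a.sub ((hasDerivAt_pow 3 x).div_const 6)
      refine b.congr_deriv ?_
      norm_num
    refine ((nr8_dexp x).sub h1).congr_deriv ?_
    ring
  · intro x hx
    have := nr8_exp2 hx
    linarith
  · simp

private theorem nr8_exp4 {x : ℝ} (hx : 0 ≤ x) :
    exp (-x) ≤ 1 - x + x ^ 2 / 2 - x ^ 3 / 6 + x ^ 4 / 24 := by
  have h := nr8_mono (f := fun x => (1 - x + x ^ 2 / 2 - x ^ 3 / 6 + x ^ 4 / 24) - exp (-x))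
    (f' := fun x => exp (-x) - (1 - x + x ^ 2 / 2 - x ^ 3 / 6)) ?_ ?_ ?_ hx
  · linarith
  · intro x
    have h1 : HasDerivAt (fun x : ℝ => 1 - x + x ^ 2 / 2 - x ^ 3 / 6 + x ^ 4 / 24)
        (0 - 1 + 2 * x / 2 - 3 * x ^ 2 / 6 + 4 * x ^ 3 / 24) x := by
      have a := ((hasDerivAt_const x (1 : ℝ)).sub (hasDerivAt_id x)).add
        ((hasDerivAt_pow 2 x).div_const 2)
      have b := (a.sub ((hasDerivAt_pow 3 x).div_const 6)).add ((hasDerivAt_pow 4 x).div_const 24)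
      refine b.congr_deriv ?_
      norm_num
    refine (h1.sub (nr8_dexp x)).congr_deriv ?_
    ring
  · intro x hx
    have := nr8_exp3 hx
    linarith
  · simp

private theorem nr8_exp1 (x : ℝ) : 0 ≤ exp (-x) - 1 + x := by
  have := add_one_le_exp (-x)
  linarith

/-- the lower bound of the kernel by a quadratic -/
private theorem nr8_lower {w x : ℝ} (hw : 0 < w) (hw1 : w ≤ 1 / 6) (hx : 0 ≤ x) :
    (2 * w - 3 * w ^ 2) * x ^ 2 - (w ^ 2 - 2 * w ^ 3) * x ^ 3 ≤ exp (-x) - 1 + x := by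
  rcases le_total x (3 / 2) with h | h
  · have h1 := nr8_exp3 hx
    have h2 : 0 ≤ x ^ 2 * ((1 / 2 - (2 * w - 3 * w ^ 2)) - x / 6 + (w ^ 2 - 2 * w ^ 3) * x) := by
      refine mul_nonneg (sq_nonneg x) ?_
      have h3 : 2 * w - 3 * w ^ 2 ≤ 1 / 4 := by nlinarith
      have h4 : 0 ≤ (w ^ 2 - 2 * w ^ 3) * x := by
        refine mul_nonneg ?_ hx
        nlinarith [sq_nonneg w, mul_pos hw hw]
      linarith
    nlinarith
  · -- the polynomial -1 + x - A x^2 + B x^3 is nonnegative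
    have h0 := exp_pos (-x)
    have h1 : 0 ≤ -1 + x - (2 * w - 3 * w ^ 2) * x ^ 2 + (w ^ 2 - 2 * w ^ 3) * x ^ 3 := by
      have e : -1 + x - (2 * w - 3 * w ^ 2) * x ^ 2 + (w ^ 2 - 2 * w ^ 3) * x ^ 3 =
          (w * x - 1) ^ 2 * ((1 - 2 * w) * x - 1) := by ring
      rw [e]
      refine mul_nonneg (sq_nonneg _) ?_
      nlinarith
    linarith

private theorem nr8_BB_int (hα : 1 < α) {κ : ℝ} (hκ : 0 < κ) :
    IntegrableOn (fun t => exp (-(κ * t)) * BB α t) (Ioi 0) ∧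
    ∫ t in Ioi (0 : ℝ), exp (-(κ * t)) * BB α t =
      ∫ ρ in Ioi (0 : ℝ), G α ρ * ((exp (-(ρ / κ)) - 1 + ρ / κ) * κ / ρ ^ 2) := by
  obtain ⟨h1, h2⟩ := lap_weight hκ (G_integrable hα)
  have e : ∀ t ∈ Ioi (0 : ℝ), exp (-(κ * t)) * (∫ ρ in Ioi (0 : ℝ), G α ρ * K 2 (t * ρ)) =
      exp (-(κ * t)) * BB α t := by
    intro t ht
    rw [(BB_int hα (le_of_lt ht)).2]
  refine ⟨h1.congr_fun e measurableSet_Ioi, ?_⟩
  rw [← h2]
  exact (setIntegral_congr_fun measurableSet_Ioi e).symm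

private theorem nr8_PP_int (hα : 1 < α) {κ : ℝ} (hκ : 0 < κ) :
    IntegrableOn (fun t => exp (-(κ * t)) * PP α t) (Ioi 0) ∧
    ∫ t in Ioi (0 : ℝ), exp (-(κ * t)) * PP α t =
      ∫ ρ in Ioi (0 : ℝ), hh α ρ * ((exp (-(ρ / κ)) - 1 + ρ / κ) * κ / ρ ^ 2) := by
  obtain ⟨h1, h2⟩ := lap_weight hκ (hh_int hα).1
  have e : ∀ t ∈ Ioi (0 : ℝ), exp (-(κ * t)) * (∫ ρ in Ioi (0 : ℝ), hh α ρ * K 2 (t * ρ)) =
      exp (-(κ * t)) * PP α t := by
    intro t ht
    rw [(PP_eq hα (le_of_lt ht)).2]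
  refine ⟨h1.congr_fun e measurableSet_Ioi, ?_⟩
  rw [← h2]
  exact (setIntegral_congr_fun measurableSet_Ioi e).symm

private theorem nr8_Nn_split (hα : 1 < α) {κ : ℝ} (hκ : 0 < κ) :
    ∫ t in Ioi (0 : ℝ), exp (-(κ * t)) * Nn α t =
      -((α - 1) * ∫ t in Ioi (0 : ℝ), exp (-(κ * t)) * BB α t) +
        ∫ t in Ioi (0 : ℝ), exp (-(κ * t)) * PP α t := by
  have i1 := (nr8_BB_int hα hκ).1
  have i2 := (nr8_PP_int hα hκ).1
  have i1' : IntegrableOn (fun t => -((α - 1) * (exp (-(κ * t)) * BB α t))) (Ioi 0) :=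
    (i1.const_mul (α - 1)).neg
  rw [← integral_const_mul, ← integral_neg, ← integral_add i1' i2]
  refine setIntegral_congr_fun measurableSet_Ioi fun t ht => ?_
  beta_reduce
  rw [Nn_eq hα (le_of_lt ht)]
  ring

/-- the kernel is bounded: `0 ≤ φ(ρ) ≤ 1/(2κ)` -/
private theorem nr8_ker_nonneg {κ ρ : ℝ} (hκ : 0 < κ) :
    0 ≤ (exp (-(ρ / κ)) - 1 + ρ / κ) * κ / ρ ^ 2 :=
  div_nonneg (mul_nonneg (nr8_exp1 _) hκ.le) (sq_nonneg _)

private theorem nr8_ker_le_inv {κ ρ : ℝ} (hκ : 0 < κ) (hρ : 0 < ρ) :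
    (exp (-(ρ / κ)) - 1 + ρ / κ) * κ / ρ ^ 2 ≤ 1 / ρ := by
  have h1 : exp (-(ρ / κ)) ≤ 1 := by
    rw [exp_le_one_iff]
    have : 0 < ρ / κ := div_pos hρ hκ
    linarith
  rw [div_le_div_iff₀ (by positivity) hρ]
  have h2 : (exp (-(ρ / κ)) - 1 + ρ / κ) * κ ≤ ρ := by
    calc (exp (-(ρ / κ)) - 1 + ρ / κ) * κ ≤ ρ / κ * κ :=
          mul_le_mul_of_nonneg_right (by linarith) hκ.le
      _ = ρ := by field_simp
  nlinarith

private theorem nr8_ker_le_half {κ ρ : ℝ} (hκ : 0 < κ) (hρ : 0 < ρ) :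
    (exp (-(ρ / κ)) - 1 + ρ / κ) * κ / ρ ^ 2 ≤ 1 / (2 * κ) := by
  have hx : 0 ≤ ρ / κ := (div_pos hρ hκ).le
  have h1 := nr8_exp2 hx
  rw [div_le_div_iff₀ (by positivity) (by positivity)]
  have h2 : (exp (-(ρ / κ)) - 1 + ρ / κ) * κ * (2 * κ) ≤ ((ρ / κ) ^ 2 / 2) * κ * (2 * κ) := by
    gcongr
    linarith
  refine h2.trans (le_of_eq ?_)
  field_simp

private theorem nr8_ker_cont {κ : ℝ} (hκ : 0 < κ) :
    ContinuousOn (fun ρ => (exp (-(ρ / κ)) - 1 + ρ / κ) * κ / ρ ^ 2) (Ioi 0) := by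
  refine ContinuousOn.div (by fun_prop) (by fun_prop) ?_
  intro ρ hρ
  have : (0 : ℝ) < ρ := hρ
  positivity

private theorem nr8_w_int {κ : ℝ} (hκ : 0 < κ) {w : ℝ → ℝ} (hw : IntegrableOn w (Ioi 0)) :
    IntegrableOn (fun ρ => w ρ * ((exp (-(ρ / κ)) - 1 + ρ / κ) * κ / ρ ^ 2)) (Ioi 0) := by
  refine Integrable.mono' (hw.norm.mul_const (1 / (2 * κ))) ?_ ?_
  · exact hw.aestronglyMeasurable.mul ((nr8_ker_cont hκ).aestronglyMeasurable measurableSet_Ioi)
  · refine (ae_restrict_iff' measurableSet_Ioi).2 (Eventually.of_forall fun ρ hρ => ?_)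
    rw [norm_mul]
    refine mul_le_mul_of_nonneg_left ?_ (norm_nonneg _)
    rw [Real.norm_of_nonneg (nr8_ker_nonneg hκ)]
    exact nr8_ker_le_half hκ hρ

private theorem nr8_PP_le (hα : 1 < α) {κ : ℝ} (hκ : 0 < κ) :
    ∫ t in Ioi (0 : ℝ), exp (-(κ * t)) * PP α t ≤ p1 α := by
  rw [(nr8_PP_int hα hκ).2, ← (hh_div hα).2]
  refine setIntegral_mono_on (nr8_w_int hκ (hh_int hα).1) (hh_div hα).1 measurableSet_Ioi ?_
  intro ρ hρ
  rw [div_eq_mul_one_div (hh α ρ)]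
  exact mul_le_mul_of_nonneg_left (nr8_ker_le_inv hκ hρ) (hh_nonneg hα ρ)

private theorem nr8_PP_nonneg (hα : 1 < α) {κ : ℝ} (hκ : 0 < κ) :
    0 ≤ ∫ t in Ioi (0 : ℝ), exp (-(κ * t)) * PP α t := by
  rw [(nr8_PP_int hα hκ).2]
  exact setIntegral_nonneg measurableSet_Ioi fun ρ _ =>
    mul_nonneg (hh_nonneg hα ρ) (nr8_ker_nonneg hκ)

private theorem nr8_BB_ge (hα : 1 < α) {κ : ℝ} (hκ : 0 < κ) (hκ1 : κ ≤ 1 / 3) :
    1 / 2 - κ / 4 ≤ ∫ t in Ioi (0 : ℝ), exp (-(κ * t)) * BB α t := by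
  rw [(nr8_BB_int hα hκ).2]
  set w := κ / 2 with hw
  have hw0 : 0 < w := by positivity
  have hw1 : w ≤ 1 / 6 := by rw [hw]; linarith
  have i1 : IntegrableOn (fun ρ => (2 * w - 3 * w ^ 2) / κ * G α ρ) (Ioi 0) :=
    (G_integrable hα).const_mul _
  have i2 : IntegrableOn (fun ρ => (w ^ 2 - 2 * w ^ 3) / κ ^ 2 * (ρ * G α ρ)) (Ioi 0) :=
    (G_mul_integrable hα).const_mul _
  have h1 : ∫ ρ in Ioi (0 : ℝ), ((2 * w - 3 * w ^ 2) / κ * G α ρ -
      (w ^ 2 - 2 * w ^ 3) / κ ^ 2 * (ρ * G α ρ)) = 1 / 2 - κ / 4 := by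
    rw [integral_sub i1 i2, integral_const_mul, integral_const_mul, G_integral hα, G_mean hα, hw]
    field_simp
    ring
  rw [← h1]
  refine setIntegral_mono_on (i1.sub i2) (nr8_w_int hκ (G_integrable hα)) measurableSet_Ioi ?_
  intro ρ hρ
  have h0 : (0 : ℝ) < ρ := hρ
  have hG := G_nonneg (by linarith : 0 < α) h0
  have hx : 0 ≤ ρ / κ := (div_pos h0 hκ).le
  have h2 := nr8_lower hw0 hw1 hx
  have h3 : (2 * w - 3 * w ^ 2) / κ - (w ^ 2 - 2 * w ^ 3) / κ ^ 2 * ρ ≤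
      (exp (-(ρ / κ)) - 1 + ρ / κ) * κ / ρ ^ 2 := by
    have e : ((2 * w - 3 * w ^ 2) * (ρ / κ) ^ 2 - (w ^ 2 - 2 * w ^ 3) * (ρ / κ) ^ 3) * κ / ρ ^ 2 =
        (2 * w - 3 * w ^ 2) / κ - (w ^ 2 - 2 * w ^ 3) / κ ^ 2 * ρ := by
      field_simp
    rw [← e]
    gcongr
  calc (2 * w - 3 * w ^ 2) / κ * G α ρ - (w ^ 2 - 2 * w ^ 3) / κ ^ 2 * (ρ * G α ρ)
      = G α ρ * ((2 * w - 3 * w ^ 2) / κ - (w ^ 2 - 2 * w ^ 3) / κ ^ 2 * ρ) := by ring
    _ ≤ _ := mul_le_mul_of_nonneg_left h3 hG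

theorem JI_le (hα : 1 < α) (h2 : α ≤ 10 / 9) {y : ℝ} (hy : 3 / 4 ≤ y) (hy1 : y < 1) :
    JI α y ≤ 1 - ((3 * y - 1) / 4 - 0.072 * y) * (α - 1) := by
  have hy0 : 0 < y := by linarith
  have hκ : 0 < (1 - y) / y := div_pos (by linarith) hy0
  have hκ1 : (1 - y) / y ≤ 1 / 3 := by
    rw [div_le_div_iff₀ hy0 (by norm_num)]
    linarith
  rw [JI_eq hα hy0 hy1, nr8_Nn_split hα hκ]
  have h3 := nr8_BB_ge hα hκ hκ1
  have h4 := nr8_PP_le hα hκ
  have h5 := p1_le' hα h2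
  set I1 := ∫ t in Ioi (0 : ℝ), exp (-((1 - y) / y * t)) * BB α t with hI1
  set I2 := ∫ t in Ioi (0 : ℝ), exp (-((1 - y) / y * t)) * PP α t with hI2
  have hα1 : 0 < α - 1 := by linarith
  have h6 : (α - 1) * (y * (1 / 2 - (1 - y) / y / 4)) ≤ (α - 1) * (y * I1) :=
    mul_le_mul_of_nonneg_left (mul_le_mul_of_nonneg_left h3 hy0.le) hα1.le
  have e1 : y * (1 / 2 - (1 - y) / y / 4) = (3 * y - 1) / 4 := by
    field_simp
    ring
  rw [e1] at h6
  have h7 : y * I2 ≤ y * (0.072 * (α - 1)) := mul_le_mul_of_nonneg_left (h4.trans h5) hy0.le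
  nlinarith

private theorem nr8_G2 (hα : 1 < α) (h2 : α ≤ 10 / 9) :
    IntegrableOn (fun ρ => ρ ^ 2 * G α ρ) (Ioi 0) ∧ ∫ ρ in Ioi (0 : ℝ), ρ ^ 2 * G α ρ ≤ 6 := by
  have i1 : IntegrableOn (fun ρ => cc α * (ρ ^ (2 + α) * F α ρ)) (Ioi 0) :=
    (rpowF_int hα (q := 2 + α) (by linarith)).const_mul _
  have e : ∀ ρ ∈ Ioi (0 : ℝ), cc α * (ρ ^ (2 + α) * F α ρ) = ρ ^ 2 * G α ρ := by
    intro ρ hρ
    have h0 : (0 : ℝ) < ρ := hρ
    rw [G_eq hα h0, rpow_add h0, rpow_two]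
    ring
  refine ⟨i1.congr_fun e measurableSet_Ioi, ?_⟩
  rw [← setIntegral_congr_fun measurableSet_Ioi e, integral_const_mul]
  have h3 := M_rec hα (q := 2) (by norm_num)
  rw [M_two] at h3
  have h7 : mom α 2 ≤ 2 := by
    have h4 := mom_succ_le hα 1
    have h5 : mom α 1 = 1 := by
      unfold mom
      simp only [pow_one]
      exact F_mean hα
    rw [h5] at h4
    norm_num at h4
    exact h4
  unfold Mq at h3
  rw [h3]
  linarith

theorem JI_quarter (hα : 1 < α) (h2 : α ≤ 10 / 9) : 1 - 0.03475 * (α - 1) ≤ JI α (1 / 4) := by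
  have hκ : (0 : ℝ) < 3 := by norm_num
  rw [JI_eq hα (by norm_num) (by norm_num)]
  have e1 : (1 - 1 / 4 : ℝ) / (1 / 4) = 3 := by norm_num
  rw [e1, nr8_Nn_split hα hκ]
  have h4 := nr8_PP_nonneg hα hκ
  obtain ⟨j1, j2⟩ := nr8_G2 hα h2
  have i1 : IntegrableOn (fun ρ => 1 / 6 * G α ρ) (Ioi 0) := (G_integrable hα).const_mul _
  have i2 : IntegrableOn (fun ρ => 1 / 54 * (ρ * G α ρ)) (Ioi 0) :=
    (G_mul_integrable hα).const_mul _
  have i3 : IntegrableOn (fun ρ => 1 / 648 * (ρ ^ 2 * G α ρ)) (Ioi 0) := j1.const_mul _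
  have i12 : IntegrableOn (fun ρ => 1 / 6 * G α ρ - 1 / 54 * (ρ * G α ρ)) (Ioi 0) := i1.sub i2
  have h3 : ∫ t in Ioi (0 : ℝ), exp (-(3 * t)) * BB α t ≤ 0.139 := by
    rw [(nr8_BB_int hα hκ).2]
    have h5 : ∫ ρ in Ioi (0 : ℝ), (1 / 6 * G α ρ - 1 / 54 * (ρ * G α ρ) +
        1 / 648 * (ρ ^ 2 * G α ρ)) ≤ 0.139 := by
      rw [integral_add i12 i3, integral_sub i1 i2, integral_const_mul, integral_const_mul,
        integral_const_mul, G_integral hα, G_mean hα]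
      norm_num at j2 ⊢
      linarith
    refine le_trans ?_ h5
    refine setIntegral_mono_on (nr8_w_int hκ (G_integrable hα)) (i12.add i3) measurableSet_Ioi ?_
    intro ρ hρ
    have h0 : (0 : ℝ) < ρ := hρ
    have hG := G_nonneg (by linarith : 0 < α) h0
    have hx : 0 ≤ ρ / 3 := by positivity
    have h6 := nr8_exp4 hx
    have h7 : (exp (-(ρ / 3)) - 1 + ρ / 3) * 3 / ρ ^ 2 ≤ 1 / 6 - 1 / 54 * ρ + 1 / 648 * ρ ^ 2 := by
      rw [div_le_iff₀ (by positivity)]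
      nlinarith
    calc _ ≤ G α ρ * (1 / 6 - 1 / 54 * ρ + 1 / 648 * ρ ^ 2) := mul_le_mul_of_nonneg_left h7 hG
      _ = _ := by ring
  have hα1 : 0 < α - 1 := by linarith
  norm_num at h3 ⊢
  nlinarith

/-! ### the value at the flat point -/

private theorem nr8_pow_ge (h : Near α) {n : ℕ} (hn : 4 ≤ n) {s : ℝ} (h0 : 0 ≤ s)
    (hs : s < 4 * z1 α) : Phi α (s / 4) ^ 4 ≤ Phi α (s / n) ^ n := by
  have hz := h.z4
  have hn' : (4 : ℝ) ≤ n := by exact_mod_cast hn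
  have hnp : (0 : ℝ) < n := by linarith
  have hl0 : (0 : ℝ) ≤ 4 / n := by positivity
  have hl1 : (4 : ℝ) / n ≤ 1 := (div_le_one hnp).2 hn'
  have hx1 : s / 4 ∈ Ico 0 (z1 α) := ⟨by positivity, by linarith⟩
  have hx0 : (0 : ℝ) ∈ Ico 0 (z1 α) := ⟨le_rfl, by linarith⟩
  have hc := h.conc.2 hx1 hx0 hl0 (sub_nonneg.2 hl1) (by ring)
  have hP0 : Phi α 0 = 1 := Phi_zero h.one_lt
  have e1 : 4 / (n : ℝ) * (s / 4) = s / n := by field_simp
  simp only [smul_eq_mul, mul_zero, add_zero, hP0, log_one, e1] at hc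
  have hp4 : 0 < Phi α (s / 4) := h.pos _ hx1.1 hx1.2
  have hsn : s / n ≤ s / 4 := div_le_div_of_nonneg_left h0 (by norm_num) hn'
  have hpn : 0 < Phi α (s / n) := h.pos _ (by positivity) (by linarith)
  have hq : 0 ≤ 0.41 * (α - 1) := by
    have := h.one_lt
    nlinarith
  have e2 : (s / n) ^ 2 = (4 / n) ^ 2 * (s / 4) ^ 2 := by rw [← e1]; ring
  have h3 : (4 / n : ℝ) * log (Phi α (s / 4)) ≤ log (Phi α (s / n)) := by
    have h4 : 0 ≤ 0.41 * (α - 1) * ((4 / n : ℝ) * (1 - 4 / n) * (s / 4) ^ 2) := by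
      have : 0 ≤ 1 - 4 / (n : ℝ) := sub_nonneg.2 hl1
      positivity
    rw [e2] at hc
    nlinarith
  have h5 : 4 * log (Phi α (s / 4)) ≤ n * log (Phi α (s / n)) := by
    have := mul_le_mul_of_nonneg_left h3 hnp.le
    have e3 : (n : ℝ) * (4 / n * log (Phi α (s / 4))) = 4 * log (Phi α (s / 4)) := by
      field_simp
    linarith
  have h6 : log (Phi α (s / 4) ^ 4) ≤ log (Phi α (s / n) ^ n) := by
    rw [log_pow, log_pow]
    push_cast
    exact h5
  exact (log_le_log_iff (by positivity) (by positivity)).1 h6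

private theorem nr8_lobe (h : Near α) {n : ℕ} (hn : 4 ≤ n) {s : ℝ} (h0 : 0 ≤ s)
    (hs : s ≤ 4 * z1 α) :
    4 * (Phi α (1 / 4 * s) * exp (-((1 - 1 / 4) * s))) - 3 * exp (-s) ≤ Phi α (s / n) ^ n := by
  have hn' : (4 : ℝ) ≤ n := by exact_mod_cast hn
  have hnp : (0 : ℝ) < n := by linarith
  have e1 : 1 / 4 * s = s / 4 := by ring
  rw [e1]
  rcases lt_or_eq_of_le hs with h1 | h1
  · refine le_trans ?_ (nr8_pow_ge h hn h0 h1)
    have hp : 0 < Phi α (s / 4) := h.pos _ (by positivity) (by linarith)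
    set X := exp (s / 4) * Phi α (s / 4) with hX
    have hX0 : 0 ≤ X := by positivity
    have h2 : 1 + (4 : ℕ) * (X - 1) ≤ (1 + (X - 1)) ^ 4 :=
      one_add_mul_le_pow (by linarith) 4
    have h3 : Phi α (s / 4) ^ 4 = exp (-s) * X ^ 4 := by
      rw [hX, mul_pow, ← exp_nat_mul, ← mul_assoc, ← exp_add]
      have : -s + ((4 : ℕ) : ℝ) * (s / 4) = 0 := by push_cast; ring
      rw [this, exp_zero, one_mul]
    have h4 : Phi α (s / 4) * exp (-((1 - 1 / 4) * s)) = exp (-s) * X := by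
      rw [hX, ← mul_assoc, ← exp_add, mul_comm]
      congr 2
      ring
    rw [h3, h4]
    have h5 : 4 * X - 3 ≤ X ^ 4 := by
      push_cast at h2
      have e : (1 + (X - 1)) ^ 4 = X ^ 4 := by ring
      linarith
    have h6 := exp_pos (-s)
    calc 4 * (exp (-s) * X) - 3 * exp (-s) = exp (-s) * (4 * X - 3) := by ring
      _ ≤ _ := mul_le_mul_of_nonneg_left h5 h6.le
  · have h2 : s / 4 = z1 α := by rw [h1]; ring
    rw [h2, h.zero]
    have h3 : 0 ≤ Phi α (s / n) := by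
      have h4 : s / n ≤ z1 α := by
        rw [← h2]
        exact div_le_div_of_nonneg_left h0 (by norm_num) hn'
      rcases lt_or_eq_of_le h4 with h5 | h5
      · exact (h.pos _ (by positivity) h5).le
      · rw [h5, h.zero]
    have h6 := exp_pos (-s)
    have h7 := pow_nonneg h3 n
    linarith

theorem Near.vv_ge (h : Near α) {n : ℕ} (hn : 4 ≤ n) : 1 - 0.14 * (α - 1) ≤ vv α n := by
  have hα := h.one_lt
  have hle := h.le
  have hz := h.z4
  have hδ : 0 < α - 1 := by linarith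
  have hn' : (4 : ℝ) ≤ n := by exact_mod_cast hn
  have hnp : (0 : ℝ) < n := by linarith
  set f : ℝ → ℝ := fun s => Phi α (s / n) ^ n with hf
  have e0 : ∀ s : ℝ, ∏ _i : Fin n, Phi α (1 / (n : ℝ) * s) = f s := by
    intro s
    rw [Finset.prod_const, Finset.card_univ, Fintype.card_fin, hf]
    beta_reduce
    congr 2
    ring
  have hvv : vv α n = ∫ s in Ioi (0 : ℝ), f s := by
    unfold vv J
    exact setIntegral_congr_fun measurableSet_Ioi fun s _ => e0 s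
  have hfI : IntegrableOn f (Ioi 0) := by
    have h1 := prod_integrable_pair hα (n := n) (x := fun _ => 1 / (n : ℝ)) (fun _ => by positivity)
      (j := ⟨0, by omega⟩) (k := ⟨1, by omega⟩) (by
        intro hc
        have := congrArg Fin.val hc
        norm_num at this) (by positivity) (by positivity)
    exact h1.congr_fun (fun s _ => e0 s) measurableSet_Ioi
  set a : ℝ := 4 * z1 α with ha
  set b : ℝ := n * z1 α with hb
  have ha0 : 0 < a := by rw [ha]; linarith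
  have hab : a ≤ b := by
    rw [ha, hb]
    exact mul_le_mul_of_nonneg_right hn' (by linarith)
  have hb0 : 0 < b := lt_of_lt_of_le ha0 hab
  -- decomposition
  have d1 : ∫ s in Ioi (0 : ℝ), f s = (∫ s in Ioc 0 a, f s) + ∫ s in Ioi a, f s := by
    rw [← Ioc_union_Ioi_eq_Ioi ha0.le]
    exact setIntegral_union (Ioc_disjoint_Ioi le_rfl) measurableSet_Ioi
      (hfI.mono_set Ioc_subset_Ioi_self) (hfI.mono_set (Ioi_subset_Ioi ha0.le))
  have d2 : ∫ s in Ioi a, f s = (∫ s in Ioc a b, f s) + ∫ s in Ioi b, f s := by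
    rw [← Ioc_union_Ioi_eq_Ioi hab]
    exact setIntegral_union (Ioc_disjoint_Ioi le_rfl) measurableSet_Ioi
      (hfI.mono_set ((Ioc_subset_Ioi_self).trans (Ioi_subset_Ioi ha0.le)))
      (hfI.mono_set (Ioi_subset_Ioi hb0.le))
  -- the first piece
  set L : ℝ → ℝ := fun s => 4 * (Phi α (1 / 4 * s) * exp (-((1 - 1 / 4) * s))) - 3 * exp (-s)
    with hL
  have hJ := JI_int hα (y := 1 / 4) (by norm_num) (by norm_num)
  have hE : IntegrableOn (fun s => exp (-s)) (Ioi (0 : ℝ)) := by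
    have := nr8_exp_int (κ := 1) one_pos
    simpa only [one_mul] using this
  have hJ4 : IntegrableOn (fun s => 4 * (Phi α (1 / 4 * s) * exp (-((1 - 1 / 4) * s)))) (Ioi 0) :=
    hJ.const_mul 4
  have hE3 : IntegrableOn (fun s => 3 * exp (-s)) (Ioi (0 : ℝ)) := hE.const_mul 3
  have hLI : IntegrableOn L (Ioi 0) := hJ4.sub hE3
  have hLtot : ∫ s in Ioi (0 : ℝ), L s = 4 * JI α (1 / 4) - 3 := by
    rw [hL]
    rw [integral_sub hJ4 hE3, integral_const_mul, integral_const_mul, integral_exp_neg_Ioi_zero]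
    unfold JI
    ring
  have dL : ∫ s in Ioi (0 : ℝ), L s = (∫ s in Ioc 0 a, L s) + ∫ s in Ioi a, L s := by
    rw [← Ioc_union_Ioi_eq_Ioi ha0.le]
    exact setIntegral_union (Ioc_disjoint_Ioi le_rfl) measurableSet_Ioi
      (hLI.mono_set Ioc_subset_Ioi_self) (hLI.mono_set (Ioi_subset_Ioi ha0.le))
  have p1' : ∫ s in Ioc 0 a, L s ≤ ∫ s in Ioc 0 a, f s := by
    refine setIntegral_mono_on (hLI.mono_set Ioc_subset_Ioi_self)
      (hfI.mono_set Ioc_subset_Ioi_self) measurableSet_Ioc ?_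
    intro s hs
    exact nr8_lobe h hn hs.1.le hs.2
  -- the tail of L
  have hexp34 : IntegrableOn (fun s => exp (-(3 / 4 * s))) (Ioi a) :=
    (nr8_exp_int (κ := 3 / 4) (by norm_num)).mono_set (Ioi_subset_Ioi ha0.le)
  have pt : ∫ s in Ioi a, L s ≤ 0.8 * (α - 1) * exp (-(3 / 4 * a)) := by
    have h1 : ∫ s in Ioi a, L s ≤ ∫ s in Ioi a, 0.6 * (α - 1) * exp (-(3 / 4 * s)) := by
      refine setIntegral_mono_on (hLI.mono_set (Ioi_subset_Ioi ha0.le)) (hexp34.const_mul _)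
        measurableSet_Ioi ?_
      intro s hs
      have hs' : a < s := hs
      have h2 : z1 α ≤ 1 / 4 * s := by rw [ha] at hs'; linarith
      have h3 := (abs_le.1 (h.env15 _ h2)).2
      have h4 := exp_pos (-(3 / 4 * s))
      have h5 := exp_pos (-s)
      have e : (1 - 1 / 4 : ℝ) * s = 3 / 4 * s := by ring
      rw [hL]
      beta_reduce
      rw [e]
      have h6 : Phi α (1 / 4 * s) * exp (-(3 / 4 * s)) ≤ 0.15 * (α - 1) * exp (-(3 / 4 * s)) :=
        mul_le_mul_of_nonneg_right h3 h4.le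
      norm_num at h6 ⊢
      linarith
    refine h1.trans ?_
    rw [integral_const_mul]
    have h2 : ∫ s in Ioi a, exp (-(3 / 4 * s)) = 4 / 3 * exp (-(3 / 4 * a)) := by
      have h3 := integral_exp_mul_Ioi (a := -(3 / 4)) (by norm_num) a
      have e1 : (fun s : ℝ => exp (-(3 / 4 * s))) = fun s => exp (-(3 / 4) * s) := by
        funext s; congr 1; ring
      rw [e1, h3]
      have e2 : -(3 / 4 * a) = -(3 / 4) * a := by ring
      rw [e2]
      ring
    rw [h2]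
    refine le_of_eq ?_
    ring
  have he12 : exp (-(3 / 4 * a)) ≤ 1 / 10000 := by
    have h1 : exp (-(3 / 4 * a)) ≤ exp (-12) := by
      rw [exp_le_exp, ha]
      linarith
    have h2 : exp (-12) = exp (-1) ^ 12 := by
      rw [← exp_nat_mul]
      norm_num
    have h3 : exp (-1) ≤ 0.368 := by
      have := Real.exp_neg_one_lt_d9
      norm_num at this ⊢
      linarith
    have h4 : exp (-1) ^ 12 ≤ 0.368 ^ 12 := pow_le_pow_left₀ (exp_pos _).le h3 12
    rw [h2] at h1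
    refine h1.trans (h4.trans ?_)
    norm_num
  -- the middle piece
  have pm : 0 ≤ ∫ s in Ioc a b, f s := by
    refine setIntegral_nonneg measurableSet_Ioc fun s hs => ?_
    have hs0 : 0 < s := lt_trans ha0 hs.1
    have h1 : s / n ≤ z1 α := by
      rw [div_le_iff₀ hnp, mul_comm]
      exact hs.2
    have h2 : 0 ≤ Phi α (s / n) := by
      rcases lt_or_eq_of_le h1 with h3 | h3
      · exact (h.pos _ (by positivity) h3).le
      · rw [h3, h.zero]
    exact pow_nonneg h2 n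
  -- the far piece
  have i2 : IntegrableOn (fun s : ℝ => s ^ (-2 : ℝ)) (Ioi b) :=
    integrableOn_Ioi_rpow_of_lt (by norm_num) hb0
  set c : ℝ := (0.8 * (α - 1) * n) ^ 2 * (1 / 40) ^ (n - 2) with hc
  have pf : -(c * (1 / b)) ≤ ∫ s in Ioi b, f s := by
    have h1 : ∫ s in Ioi b, -(c * s ^ (-2 : ℝ)) = -(c * (1 / b)) := by
      rw [integral_neg, integral_const_mul, integral_Ioi_rpow_of_lt (by norm_num) hb0]
      have e : (-2 : ℝ) + 1 = -1 := by norm_num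
      rw [e, rpow_neg_one]
      ring
    rw [← h1]
    refine setIntegral_mono_on (i2.const_mul c).neg (hfI.mono_set (Ioi_subset_Ioi hb0.le))
      measurableSet_Ioi ?_
    intro s hs
    have hs' : b < s := hs
    have hs0 : 0 < s := lt_trans hb0 hs'
    have h2 : z1 α ≤ s / n := by
      rw [le_div_iff₀ hnp, mul_comm]
      exact hs'.le
    have h3 := h.env _ h2
    have h4 : 0.8 * (α - 1) / (s / n) = 0.8 * (α - 1) * n / s := by
      field_simp
    have h5 : 0.8 * (α - 1) / (s / n) ≤ 1 / 40 := by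
      rw [div_le_div_iff₀ (by linarith) (by norm_num)]
      norm_num at hle ⊢
      linarith
    have h6 : |Phi α (s / n)| ≤ 1 / 40 := h3.trans h5
    have h7 : |f s| ≤ c * s ^ (-2 : ℝ) := by
      rw [hf, hc]
      beta_reduce
      rw [abs_pow]
      obtain ⟨m, rfl⟩ : ∃ m, n = m + 2 := ⟨n - 2, by omega⟩
      rw [Nat.add_sub_cancel, pow_add, mul_comm (|Phi α (s / ((m + 2 : ℕ) : ℝ))| ^ m)]
      have e : (0.8 * (α - 1) * ((m + 2 : ℕ) : ℝ)) ^ 2 * (1 / 40) ^ m * s ^ (-2 : ℝ) =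
          (0.8 * (α - 1) * ((m + 2 : ℕ) : ℝ) / s) ^ 2 * (1 / 40) ^ m := by
        rw [rpow_neg hs0.le, rpow_two]
        field_simp
      rw [e, ← h4]
      exact mul_le_mul (pow_le_pow_left₀ (abs_nonneg _) h3 2)
        (pow_le_pow_left₀ (abs_nonneg _) h6 m) (by positivity) (by positivity)
    exact (abs_le.1 h7).1
  have hcb : c * (1 / b) ≤ 1 / 10000 * (α - 1) := by
    rw [hc, hb]
    obtain ⟨m, rfl⟩ : ∃ m, n = m + 4 := ⟨n - 4, by omega⟩
    have e1 : m + 4 - 2 = m + 2 := by omega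
    rw [e1]
    have h1 : ((m + 4 : ℕ) : ℝ) * (1 / 40) ^ (m + 2) ≤ 4 / 1600 := by
      have h2 : ((m + 4 : ℕ) : ℝ) ≤ 4 * 2 ^ m := by
        have h3 : m + 1 ≤ 2 ^ m := Nat.lt_two_pow_self
        have h4 : m + 4 ≤ 4 * 2 ^ m := by omega
        exact_mod_cast h4
      have h3 : (2 : ℝ) ^ m * (1 / 40) ^ m ≤ 1 := by
        rw [← mul_pow]
        exact pow_le_one₀ (by norm_num) (by norm_num)
      calc ((m + 4 : ℕ) : ℝ) * (1 / 40) ^ (m + 2) ≤ (4 * 2 ^ m) * (1 / 40) ^ (m + 2) := by gcongr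
        _ = 4 / 1600 * (2 ^ m * (1 / 40) ^ m) := by rw [pow_add]; ring
        _ ≤ _ := by nlinarith
    have h5 : (0.8 * (α - 1) * ((m + 4 : ℕ) : ℝ)) ^ 2 * (1 / 40) ^ (m + 2) *
        (1 / (((m + 4 : ℕ) : ℝ) * z1 α)) =
        (0.64 * (α - 1) ^ 2 / z1 α) * (((m + 4 : ℕ) : ℝ) * (1 / 40) ^ (m + 2)) := by
      have hz0 : z1 α ≠ 0 := by linarith
      have hm0 : ((m + 4 : ℕ) : ℝ) ≠ 0 := by positivity
      field_simp
      norm_num
    rw [h5]
    have h6 : 0.64 * (α - 1) ^ 2 / z1 α ≤ 0.04 * (α - 1) := by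
      rw [div_le_iff₀ (by linarith)]
      norm_num at hle ⊢
      nlinarith
    calc _ ≤ 0.04 * (α - 1) * (4 / 1600) :=
          mul_le_mul h6 h1 (by positivity) (by positivity)
      _ ≤ _ := by norm_num; linarith
  have hq := JI_quarter hα hle
  have hfin : (α - 1) * exp (-(3 / 4 * a)) ≤ (α - 1) * (1 / 10000) :=
    mul_le_mul_of_nonneg_left he12 hδ.le
  rw [hvv, d1, d2]
  norm_num at hq pt hfin ⊢
  nlinarith

end LpSec.Nr
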