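import Mathlib
import Pool.Agent.Lib.MP_1dbab3_gt.Nr.S

/-!
# Near `α = 1`: the function `e^s Phi(s)` up to the first zero
-/

open Real MeasureTheory Set Filter Topology

namespace LpSec.Nr

variable {α : ℝ}

/-! ## comparison lemmas -/

theorem cmp1 {f f1 g g1 : ℝ → ℝ} {a b : ℝ} (cf : ContinuousOn f (Icc a b))
    (cg : ContinuousOn g (Icc a b)) (hf : ∀ x ∈ Ioo a b, HasDerivAt f (f1 x) x)
    (hg : ∀ x ∈ Ioo a b, HasDerivAt g (g1 x) x) (h : ∀ x ∈ Ioo a b, f1 x ≤ g1 x)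
    (ha : f a ≤ g a) {x : ℝ} (hx : x ∈ Icc a b) : f x ≤ g x := by
  have hm : MonotoneOn (fun x => g x - f x) (Icc a b) := by
    refine monotoneOn_of_deriv_nonneg (convex_Icc a b) (cg.sub cf) ?_ fun x hx => ?_
    · intro x hx
      rw [interior_Icc] at hx
      exact ((hg x hx).sub (hf x hx)).differentiableAt.differentiableWithinAt
    · rw [interior_Icc] at hx
      have hd : HasDerivAt (fun x => g x - f x) (g1 x - f1 x) x := (hg x hx).sub (hf x hx)
      rw [hd.deriv]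
      linarith [h x hx]
  have := hm (left_mem_Icc.2 (hx.1.trans hx.2)) hx hx.1
  simp only at this
  linarith

theorem cmp2 {f f1 f2 g g1 g2 : ℝ → ℝ} {a b : ℝ}
    (hf : ∀ x ∈ Icc a b, HasDerivAt f (f1 x) x) (hf1 : ∀ x ∈ Icc a b, HasDerivAt f1 (f2 x) x)
    (hg : ∀ x ∈ Icc a b, HasDerivAt g (g1 x) x) (hg1 : ∀ x ∈ Icc a b, HasDerivAt g1 (g2 x) x)
    (h : ∀ x ∈ Ioo a b, f2 x ≤ g2 x) (ha1 : f1 a ≤ g1 a) (ha : f a ≤ g a) {x : ℝ}
    (hx : x ∈ Icc a b) : f1 x ≤ g1 x ∧ f x ≤ g x := by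
  have h1 : ∀ y ∈ Icc a b, f1 y ≤ g1 y := fun y hy =>
    cmp1 (fun z hz => (hf1 z hz).continuousAt.continuousWithinAt)
      (fun z hz => (hg1 z hz).continuousAt.continuousWithinAt)
      (fun z hz => hf1 z (Ioo_subset_Icc_self hz)) (fun z hz => hg1 z (Ioo_subset_Icc_self hz))
      h ha1 hy
  exact ⟨h1 x hx, cmp1 (fun z hz => (hf z hz).continuousAt.continuousWithinAt)
      (fun z hz => (hg z hz).continuousAt.continuousWithinAt)
      (fun z hz => hf z (Ioo_subset_Icc_self hz)) (fun z hz => hg z (Ioo_subset_Icc_self hz))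
      (fun z hz => h1 z (Ioo_subset_Icc_self hz)) ha hx⟩

/-- the polynomial bounding `exp` on `[0, 4]` -/
theorem exp_le_P7 {s : ℝ} (h0 : 0 ≤ s) (h4 : s ≤ 4) :
    exp s ≤ 1 + s + s ^ 2 / 2 + s ^ 3 / 6 + s ^ 4 / 24 + s ^ 5 / 120 + s ^ 6 / 720 +
      s ^ 7 / 2160 := by
  have hd : ∀ x ∈ Ioo (0 : ℝ) 4, HasDerivAt (fun s : ℝ => (1 + s + s ^ 2 / 2 + s ^ 3 / 6 +
      s ^ 4 / 24 + s ^ 5 / 120 + s ^ 6 / 720 + s ^ 7 / 2160) * exp (-s))
      (x ^ 6 * (4 - x) / 2160 * exp (-x)) x := by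
    intro x _
    have h1 : HasDerivAt (fun s : ℝ => 1 + s + s ^ 2 / 2 + s ^ 3 / 6 +
      s ^ 4 / 24 + s ^ 5 / 120 + s ^ 6 / 720 + s ^ 7 / 2160)
      (1 + x + x ^ 2 / 2 + x ^ 3 / 6 + x ^ 4 / 24 + x ^ 5 / 120 + 7 * x ^ 6 / 2160) x := by
      have := ((((((((hasDerivAt_const x (1 : ℝ)).add (hasDerivAt_id x)).add
        ((hasDerivAt_pow 2 x).div_const 2)).add ((hasDerivAt_pow 3 x).div_const 6)).add
        ((hasDerivAt_pow 4 x).div_const 24)).add ((hasDerivAt_pow 5 x).div_const 120)).add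
        ((hasDerivAt_pow 6 x).div_const 720)).add ((hasDerivAt_pow 7 x).div_const 2160))
      refine this.congr_deriv ?_
      norm_num
      ring
    have h2 := h1.mul ((hasDerivAt_neg x).exp)
    refine h2.congr_deriv ?_
    ring
  have hc : Continuous (fun s : ℝ => (1 + s + s ^ 2 / 2 + s ^ 3 / 6 +
      s ^ 4 / 24 + s ^ 5 / 120 + s ^ 6 / 720 + s ^ 7 / 2160) * exp (-s)) := by fun_prop
  have key := cmp1 (f := fun _ => (1 : ℝ)) (f1 := fun _ => 0) continuousOn_const hc.continuousOn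
    (fun x _ => hasDerivAt_const x (1 : ℝ)) hd (fun x hx => by
      have h1 := hx.1
      have h2 := hx.2
      have : 0 < 4 - x := by linarith
      positivity) (by simp) (x := s) ⟨h0, h4⟩
  rw [exp_neg, ← div_eq_mul_inv, le_div_iff₀ (exp_pos s), one_mul] at key
  exact key

/-! ## crude lower bounds -/

theorem X1_X0_crude (hα : 1 < α) (h2 : α ≤ 10 / 9) {s : ℝ} (hs : 0 ≤ s) :
    -(0.51 * (α - 1) * (exp s - 1)) ≤ Xd α 1 s ∧
    1 - 0.51 * (α - 1) * (exp s - 1 - s) ≤ Xd α 0 s := by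
  refine cmp2 (a := 0) (b := s) (f := fun s => 1 - 0.51 * (α - 1) * (exp s - 1 - s))
    (f1 := fun s => -(0.51 * (α - 1) * (exp s - 1))) (f2 := fun s => -(0.51 * (α - 1) * exp s))
    (g2 := Xd α 2) ?_ ?_ (fun x _ => Xd_hasDerivAt hα 0 x) (fun x _ => Xd_hasDerivAt hα 1 x)
    (fun x hx => X2_ge_crude hα h2 hx.1) ?_ ?_ (x := s) ⟨hs, le_rfl⟩
  · intro x _
    have h1 := ((((Real.hasDerivAt_exp x).sub_const 1).sub (hasDerivAt_id x)).const_mul
      (0.51 * (α - 1))).const_sub 1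
    exact h1
  · intro x _
    have h1 := (((Real.hasDerivAt_exp x).sub_const 1).const_mul (0.51 * (α - 1))).neg
    exact h1
  · rw [Xd_zero, lag_one hα]; simp
  · rw [Xd_zero, lag_zero hα]; simp

/-- `∫_0^s t Phi(t) dt` -/
noncomputable def II (α s : ℝ) : ℝ := ∫ t in (0 : ℝ)..s, t * Phi α t

theorem II_eq (hα : 1 < α) {s : ℝ} (hs : 0 ≤ s) : II α s = s ^ 2 * BB α s := (BB_eq hα hs).symm

theorem BB_cont (hα : 1 < α) : ContinuousOn (BB α) (Ici 0) :=
  ContinuousOn.mul continuousOn_const (T_continuousOn hα (by linarith) 2)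

theorem II_cont (hα : 1 < α) : ContinuousOn (II α) (Ici 0) :=
  (((continuousOn_pow 2).mul (BB_cont hα)).congr fun s hs => II_eq hα hs)

theorem tPhi_cont (hα : 1 < α) : ContinuousOn (fun t => t * Phi α t) (Ici 0) :=
  continuousOn_id.mul (Phi_continuousOn hα)

theorem tPhi_ii (hα : 1 < α) {a b : ℝ} (ha : 0 ≤ a) (hb : 0 ≤ b) :
    IntervalIntegrable (fun t => t * Phi α t) volume a b :=
  ((tPhi_cont hα).mono fun s hs => by
    have := (le_min ha hb).trans hs.1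
    exact this).intervalIntegrable

theorem II_hasDerivAt (hα : 1 < α) {s : ℝ} (hs : 0 < s) :
    HasDerivAt (II α) (s * Phi α s) s := by
  have hc : ContinuousAt (fun t => t * Phi α t) s := (tPhi_cont hα).continuousAt (Ici_mem_nhds hs)
  have hm : StronglyMeasurableAtFilter (fun t => t * Phi α t) (𝓝 s) volume :=
    ((tPhi_cont hα).mono Ioi_subset_Ici_self).stronglyMeasurableAtFilter isOpen_Ioi s hs
  exact intervalIntegral.integral_hasDerivAt_right (tPhi_ii hα le_rfl hs.le) hm hc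

theorem E_hasDerivAt (x : ℝ) :
    HasDerivAt (fun s : ℝ => (s ^ 2 / 2 + s ^ 3 / 6 + s ^ 4 / 48) * exp (-s))
      (x * (1 - x ^ 2 / 12 - x ^ 3 / 48) * exp (-x)) x := by
  have h1 := ((((hasDerivAt_pow 2 x).div_const 2).add ((hasDerivAt_pow 3 x).div_const 6)).add
    ((hasDerivAt_pow 4 x).div_const 48)).mul ((hasDerivAt_neg x).exp)
  refine h1.congr_deriv ?_
  norm_num
  ring

theorem II_ge (hα : 1 < α) (h2 : α ≤ 10 / 9) {Z : ℝ}
    (hpos : ∀ s, 0 ≤ s → s < Z → 0 < Phi α s) {s : ℝ} (hs : 0 ≤ s) (hsZ : s ≤ Z) :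
    (s ^ 2 / 2 + s ^ 3 / 6 + s ^ 4 / 48) * exp (-s) ≤ II α s := by
  refine cmp1 (a := 0) (b := s) (g1 := fun s => s * Phi α s)
    (fun x _ => (E_hasDerivAt x).continuousAt.continuousWithinAt)
    ((II_cont hα).mono fun x hx => hx.1) (fun x _ => E_hasDerivAt x)
    (fun x hx => II_hasDerivAt hα hx.1) ?_ (by simp [II]) (x := s) ⟨hs, le_rfl⟩
  intro x hx
  have hx0 := hx.1
  have hp := hpos x hx0.le (lt_of_lt_of_le hx.2 hsZ)
  rw [Phi_eq_X hα hx0.le] at hp ⊢
  have hX : 0 < Xd α 0 x := (mul_pos_iff_of_pos_left (exp_pos _)).1 hp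
  have key : 1 - x ^ 2 / 12 - x ^ 3 / 48 ≤ Xd α 0 x := by
    rcases le_total x 2.7 with h | h
    · have h3 := (X1_X0_crude hα h2 hx0.le).2
      refine le_trans ?_ h3
      have h4 := exp_le_P7 hx0.le (h.trans (by norm_num))
      have h5 : 0.51 * (α - 1) ≤ 0.0567 := by norm_num at h2 ⊢; linarith
      have h6 : 0 ≤ exp x - 1 - x := by linarith [add_one_le_exp x]
      have h7 : 0.51 * (α - 1) * (exp x - 1 - x) ≤ 0.0567 * (x ^ 2 / 2 + x ^ 3 / 6 +
          x ^ 4 / 24 + x ^ 5 / 120 + x ^ 6 / 720 + x ^ 7 / 2160) :=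
        mul_le_mul h5 (by linarith) h6 (by norm_num)
      have h8 : 0.0567 * (x ^ 2 / 2 + x ^ 3 / 6 +
          x ^ 4 / 24 + x ^ 5 / 120 + x ^ 6 / 720 + x ^ 7 / 2160) ≤ x ^ 2 / 12 + x ^ 3 / 48 := by
        have e : x ^ 2 / 12 + x ^ 3 / 48 - 0.0567 * (x ^ 2 / 2 + x ^ 3 / 6 +
          x ^ 4 / 24 + x ^ 5 / 120 + x ^ 6 / 720 + x ^ 7 / 2160) = x ^ 2 * (1 / 12 + x / 48 -
          0.0567 * (1 / 2 + x / 6 + x ^ 2 / 24 + x ^ 3 / 120 + x ^ 4 / 720 + x ^ 5 / 2160)) := by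
          ring
        have h9 : x ^ 2 ≤ 7.29 := by norm_num at h ⊢; nlinarith
        have h10 : x ^ 3 ≤ 7.29 * x := by
          have : x ^ 3 = x ^ 2 * x := by ring
          rw [this]; exact mul_le_mul_of_nonneg_right h9 hx0.le
        have h11 : x ^ 4 ≤ 53.1441 := by
          have : x ^ 4 = x ^ 2 * x ^ 2 := by ring
          rw [this]; nlinarith [sq_nonneg x]
        have h12 : x ^ 5 ≤ 53.1441 * x := by
          have : x ^ 5 = x ^ 4 * x := by ring
          rw [this]; exact mul_le_mul_of_nonneg_right h11 hx0.le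
        have h13 : 0 ≤ 1 / 12 + x / 48 -
          0.0567 * (1 / 2 + x / 6 + x ^ 2 / 24 + x ^ 3 / 120 + x ^ 4 / 720 + x ^ 5 / 2160) := by
          norm_num at h9 h10 h11 h12 h ⊢
          linarith
        have := mul_nonneg (sq_nonneg x) h13
        linarith
      linarith
    · have h3 : 1 - x ^ 2 / 12 - x ^ 3 / 48 ≤ 0 := by
        have h4 : 7.29 ≤ x ^ 2 := by norm_num at h ⊢; nlinarith
        have h5 : 19.683 ≤ x ^ 3 := by
          have : x ^ 3 = x ^ 2 * x := by ring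
          rw [this]; norm_num at h h4 ⊢; nlinarith
        norm_num at h4 h5 ⊢
        linarith
      linarith
  have h3 : x * (1 - x ^ 2 / 12 - x ^ 3 / 48) ≤ x * Xd α 0 x := mul_le_mul_of_nonneg_left key hx0.le
  calc x * (1 - x ^ 2 / 12 - x ^ 3 / 48) * exp (-x) ≤ x * Xd α 0 x * exp (-x) :=
        mul_le_mul_of_nonneg_right h3 (exp_pos _).le
    _ = _ := by ring

theorem II_mono (hα : 1 < α) {Z : ℝ} (hpos : ∀ s, 0 ≤ s → s < Z → 0 < Phi α s) {a b : ℝ}
    (ha : 0 ≤ a) (hab : a ≤ b) (hb : b ≤ Z) : II α a ≤ II α b := by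
  refine cmp1 (a := a) (b := b) (f := fun _ => II α a) (f1 := fun _ => 0)
    (g1 := fun s => s * Phi α s) continuousOn_const
    ((II_cont hα).mono fun x hx => ha.trans hx.1) (fun x _ => hasDerivAt_const x _)
    (fun x hx => II_hasDerivAt hα (lt_of_le_of_lt ha hx.1)) ?_ le_rfl (x := b) ⟨hab, le_rfl⟩
  intro x hx
  have h0 : 0 < x := lt_of_le_of_lt ha hx.1
  exact (mul_pos h0 (hpos x h0.le (lt_of_lt_of_le hx.2 hb))).le

theorem exp_neg_25 : (0.0819 : ℝ) ≤ exp (-2.5) := by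
  have h := Real.exp_bound' (x := 1 / 2) (by norm_num) (by norm_num) (n := 6) (by norm_num)
  norm_num [Finset.sum_range_succ, Nat.factorial] at h
  rw [exp_neg]
  have e : exp (2.5 : ℝ) = exp (1 / 2) ^ 5 := by
    rw [← exp_nat_mul]; norm_num
  rw [e, ← one_div, le_div_iff₀ (by positivity)]
  have h1 : exp (1 / 2 : ℝ) ^ 5 ≤ 1.6488 ^ 5 := by
    refine pow_le_pow_left₀ (exp_pos _).le ?_ 5
    norm_num at h ⊢
    linarith
  refine (mul_le_mul_of_nonneg_left h1 (by norm_num)).trans ?_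
  norm_num

theorem II_53 (hα : 1 < α) (h2 : α ≤ 10 / 9) {Z : ℝ}
    (hpos : ∀ s, 0 ≤ s → s < Z → 0 < Phi α s) {s : ℝ} (hs : 2.5 ≤ s) (hsZ : s ≤ Z) :
    0.53 ≤ II α s := by
  have h1 := II_ge hα h2 hpos (s := 2.5) (by norm_num) (hs.trans hsZ)
  have h3 := II_mono hα hpos (a := 2.5) (by norm_num) hs hsZ
  refine le_trans ?_ (h1.trans h3)
  have h4 := exp_neg_25
  norm_num at h4 ⊢
  linarith

/-- second derivative of `e^s Phi` before the first zero -/
theorem X2_neg (hα : 1 < α) (h2 : α ≤ 10 / 9) {Z : ℝ}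
    (hpos : ∀ s, 0 ≤ s → s < Z → 0 < Phi α s) (hZ : Z * (1 - 1 / α) ≤ 0.7) {s : ℝ} (hs : 0 < s)
    (hsZ : s ≤ Z) : Xd α 2 s ≤ -(0.41 * (α - 1)) := by
  have hα1 : 0 < α - 1 := by linarith
  rw [X2_eq hα hs, Nn_eq hα hs.le]
  rcases le_total s 2.5 with h | h
  · have h3 := II_ge hα h2 hpos hs.le hsZ
    rw [II_eq hα hs.le] at h3
    have h4 : (1 / 2 + s / 6 + s ^ 2 / 48) * exp (-s) ≤ BB α s := by
      have e : (s ^ 2 / 2 + s ^ 3 / 6 + s ^ 4 / 48) * exp (-s) =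
          s ^ 2 * ((1 / 2 + s / 6 + s ^ 2 / 48) * exp (-s)) := by ring
      rw [e] at h3
      exact le_of_mul_le_mul_left h3 (by positivity)
    have h5 := PP_rat hα hs.le
    have h6 : (q2 α / 4 + s / 3 * p1 α) / (2 * (1 / 2 + s / 3) ^ 2) ≤
        (α - 1) * (0.04375 + 0.024 * s) / (2 * (1 / 2 + s / 3) ^ 2) := by
      refine div_le_div_of_nonneg_right ?_ (by positivity)
      have h7 := q2_le hα h2
      have h8 := p1_le' hα h2
      have h9 : s / 3 * p1 α ≤ s / 3 * (0.072 * (α - 1)) :=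
        mul_le_mul_of_nonneg_left h8 (by positivity)
      norm_num at h7 h9 ⊢
      linarith
    have h7 : PP α s ≤ (α - 1) * ((0.04375 + 0.024 * s) / (2 * (1 / 2 + s / 3) ^ 2)) := by
      rw [← mul_div_assoc]; exact h5.trans h6
    have hE := exp_le_P7 hs.le (h.trans (by norm_num))
    have h8 : exp s * ((0.04375 + 0.024 * s) / (2 * (1 / 2 + s / 3) ^ 2)) ≤
        0.09 + s / 6 + s ^ 2 / 48 := by
      rw [← mul_div_assoc, div_le_iff₀ (by positivity)]
      refine (mul_le_mul_of_nonneg_right hE (by positivity)).trans ?_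
      have e : (0.09 + s / 6 + s ^ 2 / 48) * (2 * (1 / 2 + s / 3) ^ 2) -
          (1 + s + s ^ 2 / 2 + s ^ 3 / 6 + s ^ 4 / 24 + s ^ 5 / 120 + s ^ 6 / 720 +
          s ^ 7 / 2160) * (0.04375 + 0.024 * s) = 1 / 800 + 907 / 12000 * s +
          6887 / 72000 * s ^ 2 + s ^ 3 * (6833 / 216000 - 1031 / 864000 * s -
          131 / 96000 * s ^ 2 - 751 / 2880000 * s ^ 3 - 463 / 8640000 * s ^ 4 -
          1 / 90000 * s ^ 5) := by
        ring
      have h' : s ≤ 5 / 2 := by norm_num at h ⊢; exact h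
      have g2 : s ^ 2 ≤ (5 / 2) ^ 2 := pow_le_pow_left₀ hs.le h' 2
      have g3 : s ^ 3 ≤ (5 / 2) ^ 3 := pow_le_pow_left₀ hs.le h' 3
      have g4 : s ^ 4 ≤ (5 / 2) ^ 4 := pow_le_pow_left₀ hs.le h' 4
      have g5 : s ^ 5 ≤ (5 / 2) ^ 5 := pow_le_pow_left₀ hs.le h' 5
      have h9 : 0 ≤ 6833 / 216000 - 1031 / 864000 * s -
          131 / 96000 * s ^ 2 - 751 / 2880000 * s ^ 3 - 463 / 8640000 * s ^ 4 -
          1 / 90000 * s ^ 5 := by
        norm_num at g2 g3 g4 g5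
        linarith
      have h10 : 0 ≤ s ^ 3 * (6833 / 216000 - 1031 / 864000 * s -
          131 / 96000 * s ^ 2 - 751 / 2880000 * s ^ 3 - 463 / 8640000 * s ^ 4 -
          1 / 90000 * s ^ 5) := mul_nonneg (by positivity) h9
      have h11 : 0 ≤ s ^ 2 := by positivity
      linarith
    have hes : exp s * exp (-s) = 1 := by rw [← exp_add, add_neg_cancel, exp_zero]
    have hep := exp_pos s
    have h9 : exp s * (-((α - 1) * BB α s) + PP α s) ≤
        -((α - 1) * (1 / 2 + s / 6 + s ^ 2 / 48)) +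
        (α - 1) * (0.09 + s / 6 + s ^ 2 / 48) := by
      have h10 : exp s * ((1 / 2 + s / 6 + s ^ 2 / 48) * exp (-s)) =
          1 / 2 + s / 6 + s ^ 2 / 48 := by
        calc _ = (1 / 2 + s / 6 + s ^ 2 / 48) * (exp s * exp (-s)) := by ring
          _ = _ := by rw [hes, mul_one]
      have h11 := mul_le_mul_of_nonneg_left h4 hep.le
      rw [h10] at h11
      have h12 := mul_le_mul_of_nonneg_left h7 hep.le
      have h13 := mul_le_mul_of_nonneg_left h8 hα1.le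
      have h14 := mul_le_mul_of_nonneg_left h11 hα1.le
      linarith
    refine h9.trans ?_
    norm_num
    linarith
  · have h3 := II_53 hα h2 hpos h hsZ
    rw [II_eq hα hs.le] at h3
    have h4 := (abs_le.1 (PP_abs hα hs)).2
    have h5 := p1_le hα h2
    have h6 := vpos hα
    have h7 := al_eq hα
    set v := 1 - 1 / α with hv
    have h8 : s * v ≤ 0.7 := (mul_le_mul_of_nonneg_right hsZ h6.le).trans hZ
    have h9 : s ^ 2 * PP α s ≤ 0.28 * (α - 1) := by
      have h10 : s ^ 2 * PP α s ≤ s ^ 2 * (0.8 * v ^ 2 / (2 * s)) := by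
        refine mul_le_mul_of_nonneg_left (h4.trans ?_) (by positivity)
        exact div_le_div_of_nonneg_right h5 (by positivity)
      have h11 : s ^ 2 * (0.8 * v ^ 2 / (2 * s)) = 0.4 * v * (s * v) := by
        field_simp; ring
      rw [h11] at h10
      refine h10.trans ?_
      have h12 : v ≤ α - 1 := by rw [h7]; nlinarith
      have h13 : 0.4 * v * (s * v) ≤ 0.4 * v * 0.7 := by gcongr
      norm_num at h13 ⊢
      linarith
    have h10 : s ^ 2 * (-((α - 1) * BB α s) + PP α s) ≤ -(0.25 * (α - 1)) := by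
      have e : s ^ 2 * (-((α - 1) * BB α s) + PP α s) = -((α - 1) * (s ^ 2 * BB α s)) +
        s ^ 2 * PP α s := by ring
      rw [e]
      have := mul_le_mul_of_nonneg_left h3 hα1.le
      norm_num at this h9 ⊢
      linarith
    have hexp : 1.64 * s ^ 2 ≤ exp s := by
      have h11 := Real.sum_le_exp_of_nonneg hs.le 5
      norm_num [Finset.sum_range_succ, Nat.factorial] at h11
      refine le_trans ?_ h11
      norm_num at h ⊢
      nlinarith [sq_nonneg (s - 3), sq_nonneg (s ^ 2 - 9), mul_nonneg (sub_nonneg.2 h) (sq_nonneg (s - 3))]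
    have h11 : -((α - 1) * BB α s) + PP α s ≤ -(0.25 * (α - 1)) / s ^ 2 := by
      rw [le_div_iff₀ (by positivity)]
      linarith
    calc exp s * (-((α - 1) * BB α s) + PP α s) ≤ exp s * (-(0.25 * (α - 1)) / s ^ 2) :=
          mul_le_mul_of_nonneg_left h11 (exp_pos s).le
      _ ≤ 1.64 * s ^ 2 * (-(0.25 * (α - 1)) / s ^ 2) := by
          refine mul_le_mul_of_nonpos_right hexp ?_
          refine div_nonpos_of_nonpos_of_nonneg ?_ (by positivity)
          norm_num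
          linarith
      _ = _ := by field_simp; norm_num

end LpSec.Nr
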