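import Mathlib
import Pool.Agent.Lib.MP_1dbab3_gt.Nr.C
import Pool.Agent.Lib.MP_1dbab3_gt.Nr.Def

/-!
# Near `α = 1`: the first zero, envelopes, the structure `Near`
-/

open Real MeasureTheory Set Filter Topology

namespace LpSec.Nr

variable {α : ℝ}

theorem hasDerivAt_lin (c x : ℝ) : HasDerivAt (fun s : ℝ => -(c * s)) (-c) x := by
  exact (((hasDerivAt_id x).const_mul c).neg).congr_deriv (by simp)

theorem hasDerivAt_quad (c x : ℝ) : HasDerivAt (fun s : ℝ => 1 - c / 2 * s ^ 2) (-(c * x)) x := by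
  have := ((hasDerivAt_pow 2 x).const_mul (c / 2)).const_sub 1
  refine this.congr_deriv ?_
  norm_num
  ring

theorem X_upper (hα : 1 < α) (h2 : α ≤ 10 / 9) {Z : ℝ}
    (hpos : ∀ s, 0 ≤ s → s < Z → 0 < Phi α s) (hZ : Z * (1 - 1 / α) ≤ 0.7) {s : ℝ}
    (hs : 0 ≤ s) (hsZ : s ≤ Z) : Xd α 1 s ≤ -(0.41 * (α - 1) * s) ∧
    Xd α 0 s ≤ 1 - 0.41 * (α - 1) / 2 * s ^ 2 := by
  refine cmp2 (a := 0) (b := s) (f := Xd α 0) (f1 := Xd α 1) (f2 := Xd α 2)
    (g := fun s => 1 - 0.41 * (α - 1) / 2 * s ^ 2) (g1 := fun s => -(0.41 * (α - 1) * s))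
    (g2 := fun _ => -(0.41 * (α - 1))) (fun x _ => Xd_hasDerivAt hα 0 x)
    (fun x _ => Xd_hasDerivAt hα 1 x) (fun x _ => hasDerivAt_quad _ x)
    (fun x _ => hasDerivAt_lin _ x)
    (fun x hx => X2_neg hα h2 hpos hZ hx.1 (hx.2.le.trans hsZ)) ?_ ?_ (x := s) ⟨hs, le_rfl⟩
  · rw [Xd_zero, lag_one hα]; simp
  · rw [Xd_zero, lag_zero hα]; simp

theorem X0_pos_of {s : ℝ} (hα : 1 < α) (hs : 0 ≤ s) (h : 0 < Phi α s) : 0 < Xd α 0 s := by
  rw [Phi_eq_X hα hs] at h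
  exact (mul_pos_iff_of_pos_left (exp_pos _)).1 h

theorem exists_zero (hα : 1 < α) (h2 : α ≤ 10 / 9) :
    ∃ s, 0 ≤ s ∧ s * (1 - 1 / α) ≤ 0.7 ∧ Phi α s ≤ 0 := by
  by_contra hcon
  push Not at hcon
  have hv := vpos hα
  have hv2 := vle hα h2
  have hal := al_eq hα
  set v := 1 - 1 / α with hvdef
  have hZ : 0.7 / v * v ≤ 0.7 := by
    rw [div_mul_cancel₀ _ hv.ne']
  have hZ0 : 0 ≤ 0.7 / v := by positivity
  have hpos : ∀ s, 0 ≤ s → s < 0.7 / v → 0 < Phi α s := by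
    intro s h0 h1
    refine hcon s h0 ?_
    have := mul_le_mul_of_nonneg_right h1.le hv.le
    exact this.trans hZ
  have h3 := (X_upper hα h2 hpos (by rw [← hvdef]; exact hZ) hZ0 le_rfl).2
  have h4 := X0_pos_of hα hZ0 (hcon _ hZ0 hZ)
  have h5 : 1 ≤ 0.41 * (α - 1) / 2 * (0.7 / v) ^ 2 := by
    rw [hal]
    have e : 0.41 * (v * α) / 2 * (0.7 / v) ^ 2 = 0.10045 * α / v := by
      field_simp; norm_num
    rw [e, le_div_iff₀ hv]
    norm_num at hv2 ⊢
    nlinarith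
  linarith

theorem z1_mem (hα : 1 < α) (h2 : α ≤ 10 / 9) :
    0 ≤ z1 α ∧ Phi α (z1 α) ≤ 0 ∧ z1 α * (1 - 1 / α) ≤ 0.7 := by
  obtain ⟨w, hw0, hwv, hw⟩ := exists_zero hα h2
  have hne : {s : ℝ | 0 ≤ s ∧ Phi α s ≤ 0}.Nonempty := ⟨w, hw0, hw⟩
  have hbd : BddBelow {s : ℝ | 0 ≤ s ∧ Phi α s ≤ 0} := ⟨0, fun s hs => hs.1⟩
  have hcl : IsClosed {s : ℝ | 0 ≤ s ∧ Phi α s ≤ 0} :=
    (Phi_continuousOn hα).preimage_isClosed_of_isClosed isClosed_Ici isClosed_Iic
  have hmem := hcl.csInf_mem hne hbd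
  refine ⟨hmem.1, hmem.2, ?_⟩
  have : z1 α ≤ w := csInf_le hbd ⟨hw0, hw⟩
  exact (mul_le_mul_of_nonneg_right this (vpos hα).le).trans hwv

theorem z1_pos_of (hα : 1 < α) {s : ℝ} (h0 : 0 ≤ s) (hs : s < z1 α) : 0 < Phi α s := by
  by_contra hcon
  push Not at hcon
  have hbd : BddBelow {s : ℝ | 0 ≤ s ∧ Phi α s ≤ 0} := ⟨0, fun s hs => hs.1⟩
  exact absurd (csInf_le hbd ⟨h0, hcon⟩) (not_le.2 hs)

theorem z1_zero (hα : 1 < α) (h2 : α ≤ 10 / 9) : Phi α (z1 α) = 0 := by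
  obtain ⟨h0, h1, -⟩ := z1_mem hα h2
  refine le_antisymm h1 ?_
  by_contra hcon
  push Not at hcon
  have hivt := intermediate_value_Ioo' h0 ((Phi_continuousOn hα).mono fun x hx => hx.1)
  have hmem : (0 : ℝ) ∈ Ioo (Phi α (z1 α)) (Phi α 0) := ⟨hcon, by rw [Phi_zero hα]; norm_num⟩
  obtain ⟨w, hw, hw0⟩ := hivt hmem
  have := z1_pos_of hα hw.1.le hw.2
  rw [hw0] at this
  exact lt_irrefl _ this

/-! ## the facts on `[0, z1]` -/

theorem X_up (hα : 1 < α) (h2 : α ≤ 10 / 9) {s : ℝ} (hs : 0 ≤ s) (hsZ : s ≤ z1 α) :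
    Xd α 1 s ≤ -(0.41 * (α - 1) * s) ∧ Xd α 0 s ≤ 1 - 0.41 * (α - 1) / 2 * s ^ 2 :=
  X_upper hα h2 (fun _ h0 h1 => z1_pos_of hα h0 h1) (z1_mem hα h2).2.2 hs hsZ

theorem X0_le_one (hα : 1 < α) (h2 : α ≤ 10 / 9) {s : ℝ} (hs : 0 ≤ s) (hsZ : s ≤ z1 α) :
    Xd α 0 s ≤ 1 := by
  have h := (X_up hα h2 hs hsZ).2
  have : 0 ≤ 0.41 * (α - 1) / 2 * s ^ 2 := by
    have : 0 < α - 1 := by linarith
    positivity
  linarith

theorem Phi_le_exp' (hα : 1 < α) (h2 : α ≤ 10 / 9) {s : ℝ} (hs : 0 ≤ s) (hsZ : s ≤ z1 α) :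
    Phi α s ≤ exp (-s) := by
  rw [Phi_eq_X hα hs]
  have := X0_le_one hα h2 hs hsZ
  have he := exp_pos (-s)
  nlinarith

theorem II_le (hα : 1 < α) (h2 : α ≤ 10 / 9) {s : ℝ} (hs : 0 ≤ s) (hsZ : s ≤ z1 α) :
    II α s ≤ 1 - (1 + s) * exp (-s) := by
  refine cmp1 (a := 0) (b := s) (f := II α) (g := fun s => 1 - (1 + s) * exp (-s))
    (f1 := fun s => s * Phi α s) (g1 := fun s => s * exp (-s))
    ((II_cont hα).mono fun x hx => hx.1) (by fun_prop)
    (fun x hx => II_hasDerivAt hα hx.1) ?_ ?_ (by simp [II]) (x := s) ⟨hs, le_rfl⟩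
  · intro x _
    have h1 := (((hasDerivAt_id x).const_add 1).mul ((hasDerivAt_neg x).exp)).const_sub 1
    refine h1.congr_deriv ?_
    simp only [id]
    ring
  · intro x hx
    exact mul_le_mul_of_nonneg_left (Phi_le_exp' hα h2 hx.1.le (hx.2.le.trans hsZ)) hx.1.le

theorem X2_ge (hα : 1 < α) (h2 : α ≤ 10 / 9) {s : ℝ} (hs : 0 < s) (hsZ : s ≤ z1 α)
    (hs4 : s ≤ 4) : -((α - 1) * (1 / 2 + s / 6 + s ^ 2 / 24 + s ^ 3 / 120 + s ^ 4 / 720 +
      s ^ 5 / 2160 + 0.0094 * exp s)) ≤ Xd α 2 s := by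
  have hα1 : 0 < α - 1 := by linarith
  rw [X2_eq hα hs, Nn_eq hα hs.le]
  have h3 := II_le hα h2 hs.le hsZ
  rw [II_eq hα hs.le] at h3
  have h4 := PP_ge hα hs.le
  have h5 := q2_le hα h2
  have hE := exp_le_P7 hs.le hs4
  have hes : exp s * exp (-s) = 1 := by rw [← exp_add, add_neg_cancel, exp_zero]
  have hep := exp_pos s
  have h6 : exp s * BB α s ≤ 1 / 2 + s / 6 + s ^ 2 / 24 + s ^ 3 / 120 + s ^ 4 / 720 +
      s ^ 5 / 2160 := by
    have h7 : s ^ 2 * (exp s * BB α s) ≤ exp s - 1 - s := by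
      have h8 := mul_le_mul_of_nonneg_left h3 hep.le
      have e : exp s * (1 - (1 + s) * exp (-s)) = exp s - (1 + s) * (exp s * exp (-s)) := by ring
      rw [e, hes] at h8
      linarith
    have h9 : s ^ 2 * (exp s * BB α s) ≤ s ^ 2 * (1 / 2 + s / 6 + s ^ 2 / 24 + s ^ 3 / 120 +
        s ^ 4 / 720 + s ^ 5 / 2160) := by
      refine h7.trans ?_
      linarith
    exact le_of_mul_le_mul_left h9 (by positivity)
  have h7 : -(0.0094 * (α - 1)) ≤ PP α s := by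
    norm_num at h4 h5 ⊢
    linarith
  have h8 := mul_le_mul_of_nonneg_left h6 hα1.le
  have h9 := mul_le_mul_of_nonneg_left h7 hep.le
  linarith

/-- the double antiderivative -/
noncomputable def Yh (s : ℝ) : ℝ := s ^ 2 / 4 + s ^ 3 / 36 + s ^ 4 / 288 + s ^ 5 / 2400 +
  s ^ 6 / 21600 + s ^ 7 / 90720 + 0.0094 * (exp s - 1 - s)

noncomputable def Yh1 (s : ℝ) : ℝ := s / 2 + s ^ 2 / 12 + s ^ 3 / 72 + s ^ 4 / 480 +
  s ^ 5 / 3600 + s ^ 6 / 12960 + 0.0094 * (exp s - 1)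

theorem Yh_deriv0 (x : ℝ) : HasDerivAt Yh (Yh1 x) x := by
  have h1 := ((((((((hasDerivAt_pow 2 x).div_const 4).add ((hasDerivAt_pow 3 x).div_const 36)).add
    ((hasDerivAt_pow 4 x).div_const 288)).add ((hasDerivAt_pow 5 x).div_const 2400)).add
    ((hasDerivAt_pow 6 x).div_const 21600)).add ((hasDerivAt_pow 7 x).div_const 90720)).add
    ((((Real.hasDerivAt_exp x).sub_const 1).sub (hasDerivAt_id x)).const_mul 0.0094))
  refine h1.congr_deriv ?_
  unfold Yh1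
  norm_num
  ring

theorem Yh_deriv (c x : ℝ) : HasDerivAt (fun s => 1 - c * Yh s) (-(c * Yh1 x)) x :=
  ((Yh_deriv0 x).const_mul c).const_sub 1

theorem Yh1_deriv0 (x : ℝ) : HasDerivAt Yh1 (1 / 2 + x / 6 +
    x ^ 2 / 24 + x ^ 3 / 120 + x ^ 4 / 720 + x ^ 5 / 2160 + 0.0094 * exp x) x := by
  have h1 := ((((((((hasDerivAt_id x).div_const 2)).add ((hasDerivAt_pow 2 x).div_const 12)).add
    ((hasDerivAt_pow 3 x).div_const 72)).add ((hasDerivAt_pow 4 x).div_const 480)).add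
    ((hasDerivAt_pow 5 x).div_const 3600)).add ((hasDerivAt_pow 6 x).div_const 12960)).add
    (((Real.hasDerivAt_exp x).sub_const 1).const_mul 0.0094)
  refine h1.congr_deriv ?_
  norm_num
  ring

theorem Yh1_deriv (c x : ℝ) : HasDerivAt (fun s => -(c * Yh1 s)) (-(c * (1 / 2 + x / 6 +
    x ^ 2 / 24 + x ^ 3 / 120 + x ^ 4 / 720 + x ^ 5 / 2160 + 0.0094 * exp x))) x :=
  ((Yh1_deriv0 x).const_mul c).neg

theorem X_low (hα : 1 < α) (h2 : α ≤ 10 / 9) {s : ℝ} (hs : 0 ≤ s) (hsZ : s ≤ z1 α)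
    (hs4 : s ≤ 4) : -((α - 1) * Yh1 s) ≤ Xd α 1 s ∧ 1 - (α - 1) * Yh s ≤ Xd α 0 s := by
  refine cmp2 (a := 0) (b := s) (f := fun s => 1 - (α - 1) * Yh s)
    (f1 := fun s => -((α - 1) * Yh1 s)) (f2 := fun x => -((α - 1) * (1 / 2 + x / 6 +
    x ^ 2 / 24 + x ^ 3 / 120 + x ^ 4 / 720 + x ^ 5 / 2160 + 0.0094 * exp x)))
    (g2 := Xd α 2) (fun x _ => Yh_deriv _ x) (fun x _ => Yh1_deriv _ x)
    (fun x _ => Xd_hasDerivAt hα 0 x) (fun x _ => Xd_hasDerivAt hα 1 x)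
    (fun x hx => X2_ge hα h2 hx.1 (hx.2.le.trans hsZ) (hx.2.le.trans hs4)) ?_ ?_
    (x := s) ⟨hs, le_rfl⟩
  · rw [Xd_zero, lag_one hα]; simp [Yh1]
  · rw [Xd_zero, lag_zero hα]; simp [Yh]

theorem Yh_le {s : ℝ} (h0 : 0 ≤ s) (h4 : s ≤ 4) : Yh s ≤ 7.95 ∧ Yh1 s ≤ 5.88 := by
  have hE := exp_le_P7 h0 h4
  have g2 : s ^ 2 ≤ 4 ^ 2 := pow_le_pow_left₀ h0 h4 2
  have g3 : s ^ 3 ≤ 4 ^ 3 := pow_le_pow_left₀ h0 h4 3
  have g4 : s ^ 4 ≤ 4 ^ 4 := pow_le_pow_left₀ h0 h4 4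
  have g5 : s ^ 5 ≤ 4 ^ 5 := pow_le_pow_left₀ h0 h4 5
  have g6 : s ^ 6 ≤ 4 ^ 6 := pow_le_pow_left₀ h0 h4 6
  have g7 : s ^ 7 ≤ 4 ^ 7 := pow_le_pow_left₀ h0 h4 7
  norm_num at g2 g3 g4 g5 g6 g7
  unfold Yh Yh1
  norm_num
  constructor <;> linarith

theorem z1_gt4 (hα : 1 < α) (h2 : α ≤ 10 / 9) : 4 < z1 α := by
  by_contra hcon
  push Not at hcon
  obtain ⟨h0, h1, -⟩ := z1_mem hα h2
  have h3 := (X_low hα h2 h0 le_rfl hcon).2
  have h4 := (Yh_le h0 hcon).1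
  have h5 := z1_zero hα h2
  rw [Phi_eq_X hα h0] at h5
  have h6 : Xd α 0 (z1 α) = 0 := by
    rcases mul_eq_zero.1 h5 with h | h
    · exact absurd h (exp_pos _).ne'
    · exact h
  rw [h6] at h3
  have hα1 : 0 < α - 1 := by linarith
  norm_num at h4 h2
  nlinarith

/-! ## beyond `4` -/

theorem X2_abs (hα : 1 < α) (h2 : α ≤ 10 / 9) {t : ℝ} (ht : 0 < t) :
    |Xd α 2 t| ≤ (α - 1) * exp t / (2 * t) := by
  rw [X2_eq hα ht, abs_mul, abs_of_pos (exp_pos t)]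
  have h := mul_le_mul_of_nonneg_left (Nn_abs hα h2 ht) (exp_pos t).le
  refine h.trans (le_of_eq ?_)
  ring

theorem exp4_ge : (54 : ℝ) ≤ exp 4 := by
  have h := Real.sum_le_exp_of_nonneg (x := 4) (by norm_num) 12
  norm_num [Finset.sum_range_succ, Nat.factorial] at h
  linarith

theorem at4 (hα : 1 < α) (h2 : α ≤ 10 / 9) :
    -((α - 1) * 5.88) ≤ Xd α 1 4 ∧ Xd α 1 4 ≤ 0 ∧ 1 - (α - 1) * 7.95 ≤ Xd α 0 4 ∧
    Xd α 0 4 ≤ 1 := by
  have hα1 : 0 < α - 1 := by linarith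
  have hz := z1_gt4 hα h2
  obtain ⟨h3, h4⟩ := X_low hα h2 (s := 4) (by norm_num) hz.le le_rfl
  obtain ⟨h5, h6⟩ := Yh_le (s := 4) (by norm_num) le_rfl
  obtain ⟨h7, -⟩ := X_up hα h2 (s := 4) (by norm_num) hz.le
  refine ⟨?_, ?_, ?_, X0_le_one hα h2 (by norm_num) hz.le⟩
  · have := mul_le_mul_of_nonneg_left h6 hα1.le
    linarith
  · refine h7.trans ?_
    norm_num
    linarith
  · have := mul_le_mul_of_nonneg_left h5 hα1.le
    linarith

theorem ed0 (c x : ℝ) : HasDerivAt (fun t : ℝ => c * exp t) (c * exp x) x :=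
  (Real.hasDerivAt_exp x).const_mul c

theorem ed1 (c : ℝ) {x : ℝ} (hx : 0 < x) :
    HasDerivAt (fun t : ℝ => c * (exp t / t)) (c * (exp x / x - exp x / x ^ 2)) x := by
  have h := ((Real.hasDerivAt_exp x).div (hasDerivAt_id x) hx.ne').const_mul c
  refine h.congr_deriv ?_
  simp only [id]
  field_simp

theorem ed2 (c : ℝ) {x : ℝ} (hx : 0 < x) :
    HasDerivAt (fun t : ℝ => c * (exp t / t - exp t / t ^ 2))
      (c * (exp x / x - 2 * (exp x / x ^ 2) + 2 * (exp x / x ^ 3))) x := by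
  have h := (((Real.hasDerivAt_exp x).div (hasDerivAt_id x) hx.ne').sub
    ((Real.hasDerivAt_exp x).div (hasDerivAt_pow 2 x) (pow_pos hx 2).ne')).const_mul c
  refine h.congr_deriv ?_
  simp only [id]
  field_simp
  norm_num
  ring

/-- second derivative bound in the form used for the comparisons -/
theorem X2_abs' (hα : 1 < α) (h2 : α ≤ 10 / 9) {t : ℝ} (ht : 4 ≤ t) :
    |Xd α 2 t| ≤ 0.15 * (α - 1) * exp t ∧
    |Xd α 2 t| ≤ 0.8 * (α - 1) * (exp t / t - 2 * (exp t / t ^ 2) + 2 * (exp t / t ^ 3)) := by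
  have hα1 : 0 < α - 1 := by linarith
  have h0 : 0 < t := by linarith
  have h3 := X2_abs hα h2 h0
  have he := exp_pos t
  constructor
  · refine h3.trans ?_
    rw [div_le_iff₀ (by positivity)]
    have : 0 ≤ (α - 1) * exp t * (0.3 * t - 1) := by
      refine mul_nonneg (by positivity) ?_
      norm_num; linarith
    norm_num at this ⊢
    linarith
  · refine h3.trans ?_
    have e : 0.8 * (α - 1) * (exp t / t - 2 * (exp t / t ^ 2) + 2 * (exp t / t ^ 3)) =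
        (α - 1) * exp t * (0.8 * (t ^ 2 - 2 * t + 2)) / t ^ 3 := by
      field_simp
    rw [e, div_le_div_iff₀ (by positivity) (by positivity)]
    have : 0 ≤ (α - 1) * exp t * t * (1.6 * (t ^ 2 - 2 * t + 2) - t ^ 2) := by
      refine mul_nonneg (by positivity) ?_
      norm_num
      nlinarith
    norm_num at this ⊢
    linarith

theorem X1_abs4 (hα : 1 < α) (h2 : α ≤ 10 / 9) {t : ℝ} (ht : 4 ≤ t) :
    |Xd α 1 t| ≤ 2 / 3 * (α - 1) * (exp t / t) := by
  have hα1 : 0 < α - 1 := by linarith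
  obtain ⟨h3, h4, -, -⟩ := at4 hα h2
  have h5 := exp4_ge
  have hg : ∀ x ∈ Icc 4 t, HasDerivAt (fun t => 2 / 3 * (α - 1) * (exp t / t))
      (2 / 3 * (α - 1) * (exp x / x - exp x / x ^ 2)) x := fun x hx => ed1 _ (by linarith [hx.1])
  have hb : ∀ x ∈ Ioo 4 t, |Xd α 2 x| ≤ 2 / 3 * (α - 1) * (exp x / x - exp x / x ^ 2) := by
    intro x hx
    have h0 : 0 < x := by linarith [hx.1]
    refine (X2_abs hα h2 h0).trans ?_
    have he := exp_pos x
    have e : 2 / 3 * (α - 1) * (exp x / x - exp x / x ^ 2) =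
        (α - 1) * exp x * (2 * (x - 1)) / (3 * x ^ 2) := by
      field_simp
    rw [e, div_le_div_iff₀ (by positivity) (by positivity)]
    have : 0 ≤ (α - 1) * exp x * x * (4 * (x - 1) - 3 * x) := by
      refine mul_nonneg (by positivity) ?_
      linarith [hx.1]
    linarith
  rw [abs_le]
  constructor
  · have hg' : ∀ x ∈ Icc 4 t, HasDerivAt (fun t => -(2 / 3 * (α - 1) * (exp t / t)))
      (-(2 / 3 * (α - 1) * (exp x / x - exp x / x ^ 2))) x := fun x hx => (hg x hx).neg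
    refine cmp1 (a := 4) (b := t) (f := fun t => -(2 / 3 * (α - 1) * (exp t / t)))
      (f1 := fun x => -(2 / 3 * (α - 1) * (exp x / x - exp x / x ^ 2))) (g := Xd α 1)
      (g1 := Xd α 2)
      (fun x hx => (hg' x hx).continuousAt.continuousWithinAt)
      (Xd_continuous hα 1).continuousOn (fun x hx => hg' x (Ioo_subset_Icc_self hx))
      (fun x _ => Xd_hasDerivAt hα 1 x) (fun x hx => (abs_le.1 (hb x hx)).1) ?_
      (x := t) ⟨ht, le_rfl⟩
    refine le_trans ?_ h3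
    norm_num
    nlinarith
  · refine cmp1 (a := 4) (b := t) (g := fun t => 2 / 3 * (α - 1) * (exp t / t))
      (g1 := fun x => 2 / 3 * (α - 1) * (exp x / x - exp x / x ^ 2)) (f := Xd α 1)
      (f1 := Xd α 2) (Xd_continuous hα 1).continuousOn
      (fun x hx => (hg x hx).continuousAt.continuousWithinAt)
      (fun x _ => Xd_hasDerivAt hα 1 x) (fun x hx => hg x (Ioo_subset_Icc_self hx))
      (fun x hx => (abs_le.1 (hb x hx)).2) ?_ (x := t) ⟨ht, le_rfl⟩
    refine h4.trans ?_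
    positivity

/-- lower bounds on `X0` past `4` -/
theorem X0_low4 (hα : 1 < α) (h2 : α ≤ 10 / 9) {t : ℝ} (ht : 4 ≤ t) :
    1 - 0.15 * (α - 1) * exp t ≤ Xd α 0 t ∧ -(0.8 * (α - 1) * (exp t / t)) ≤ Xd α 0 t := by
  have hα1 : 0 < α - 1 := by linarith
  obtain ⟨h3, h4, h5, h6⟩ := at4 hα h2
  have h7 := exp4_ge
  constructor
  · refine (cmp2 (a := 4) (b := t) (f := fun t => 1 - 0.15 * (α - 1) * exp t)
      (f1 := fun t => -(0.15 * (α - 1) * exp t)) (f2 := fun t => -(0.15 * (α - 1) * exp t))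
      (g := Xd α 0) (g1 := Xd α 1) (g2 := Xd α 2)
      (fun x _ => (ed0 _ x).const_sub 1) (fun x _ => (ed0 _ x).neg)
      (fun x _ => Xd_hasDerivAt hα 0 x) (fun x _ => Xd_hasDerivAt hα 1 x)
      (fun x hx => (abs_le.1 (X2_abs' hα h2 hx.1.le).1).1) ?_ ?_ (x := t) ⟨ht, le_rfl⟩).2
    · refine le_trans ?_ h3
      norm_num
      nlinarith
    · refine le_trans ?_ h5
      norm_num
      nlinarith
  · have hx0 : ∀ x ∈ Icc 4 t, (0 : ℝ) < x := fun x hx => by linarith [hx.1]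
    refine (cmp2 (a := 4) (b := t) (f := fun t => -(0.8 * (α - 1) * (exp t / t)))
      (f1 := fun t => -(0.8 * (α - 1) * (exp t / t - exp t / t ^ 2)))
      (f2 := fun x => -(0.8 * (α - 1) * (exp x / x - 2 * (exp x / x ^ 2) + 2 * (exp x / x ^ 3))))
      (g := Xd α 0) (g1 := Xd α 1) (g2 := Xd α 2)
      (fun x hx => (ed1 _ (hx0 x hx)).neg) (fun x hx => (ed2 _ (hx0 x hx)).neg)
      (fun x _ => Xd_hasDerivAt hα 0 x) (fun x _ => Xd_hasDerivAt hα 1 x)
      (fun x hx => (abs_le.1 (X2_abs' hα h2 hx.1.le).2).1) ?_ ?_ (x := t) ⟨ht, le_rfl⟩).2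
    · refine le_trans ?_ h3
      norm_num
      nlinarith
    · have h8 : 0 ≤ Xd α 0 4 := by
        refine le_trans ?_ h5
        norm_num at h2 ⊢
        linarith
      refine le_trans ?_ h8
      rw [neg_nonpos]
      positivity

theorem X0_z1 (hα : 1 < α) (h2 : α ≤ 10 / 9) : Xd α 0 (z1 α) = 0 := by
  have h5 := z1_zero hα h2
  rw [Phi_eq_X hα (z1_mem hα h2).1] at h5
  rcases mul_eq_zero.1 h5 with h | h
  · exact absurd h (exp_pos _).ne'
  · exact h

theorem X1_z1 (hα : 1 < α) (h2 : α ≤ 10 / 9) : Xd α 1 (z1 α) ≤ 0 := by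
  have hz := z1_gt4 hα h2
  refine (X_up hα h2 (by linarith) le_rfl).1.trans ?_
  have hα1 : 0 < α - 1 := by linarith
  have hz0 : 0 < z1 α := by linarith
  rw [neg_nonpos]
  positivity

theorem X0_up4 (hα : 1 < α) (h2 : α ≤ 10 / 9) {t : ℝ} (ht : z1 α ≤ t) :
    Xd α 0 t ≤ 0.15 * (α - 1) * exp t ∧ Xd α 0 t ≤ 0.8 * (α - 1) * (exp t / t) := by
  have hα1 : 0 < α - 1 := by linarith
  have hz := z1_gt4 hα h2
  have h3 := X0_z1 hα h2
  have h4 := X1_z1 hα h2
  have hz0 : 0 < z1 α := by linarith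
  constructor
  · refine (cmp2 (a := z1 α) (b := t) (g := fun t => 0.15 * (α - 1) * exp t)
      (g1 := fun t => 0.15 * (α - 1) * exp t) (g2 := fun t => 0.15 * (α - 1) * exp t)
      (f := Xd α 0) (f1 := Xd α 1) (f2 := Xd α 2)
      (fun x _ => Xd_hasDerivAt hα 0 x) (fun x _ => Xd_hasDerivAt hα 1 x)
      (fun x _ => ed0 _ x) (fun x _ => ed0 _ x)
      (fun x hx => (abs_le.1 (X2_abs' hα h2 (hz.le.trans hx.1.le)).1).2) ?_ ?_
      (x := t) ⟨ht, le_rfl⟩).2
    · refine h4.trans ?_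
      positivity
    · rw [h3]
      positivity
  · have hx0 : ∀ x ∈ Icc (z1 α) t, (0 : ℝ) < x := fun x hx => by linarith [hx.1]
    refine (cmp2 (a := z1 α) (b := t) (g := fun t => 0.8 * (α - 1) * (exp t / t))
      (g1 := fun t => 0.8 * (α - 1) * (exp t / t - exp t / t ^ 2))
      (g2 := fun x => 0.8 * (α - 1) * (exp x / x - 2 * (exp x / x ^ 2) + 2 * (exp x / x ^ 3)))
      (f := Xd α 0) (f1 := Xd α 1) (f2 := Xd α 2)
      (fun x _ => Xd_hasDerivAt hα 0 x) (fun x _ => Xd_hasDerivAt hα 1 x)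
      (fun x hx => ed1 _ (hx0 x hx)) (fun x hx => ed2 _ (hx0 x hx))
      (fun x hx => (abs_le.1 (X2_abs' hα h2 (hz.le.trans hx.1.le)).2).2) ?_ ?_
      (x := t) ⟨ht, le_rfl⟩).2
    · refine h4.trans ?_
      have h5 : 0 ≤ exp (z1 α) / z1 α - exp (z1 α) / z1 α ^ 2 := by
        have e : exp (z1 α) / z1 α - exp (z1 α) / z1 α ^ 2 =
            exp (z1 α) * (z1 α - 1) / z1 α ^ 2 := by
          field_simp
        rw [e]
        have : 0 < z1 α - 1 := by linarith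
        positivity
      positivity
    · rw [h3]
      positivity

theorem X0_neg7 (hα : 1 < α) (h2 : α ≤ 10 / 9) {t : ℝ} (ht : z1 α ≤ t) (ht7 : t ≤ 7) :
    Xd α 0 t ≤ 0 := by
  have hα1 : 0 < α - 1 := by linarith
  have hz := z1_gt4 hα h2
  have hz0 : 0 < z1 α := by linarith
  have h3 := X0_z1 hα h2
  have h4 := X1_z1 hα h2
  refine (cmp2 (a := z1 α) (b := t) (g := fun _ => 0) (g1 := fun _ => 0) (g2 := fun _ => 0)
      (f := Xd α 0) (f1 := Xd α 1) (f2 := Xd α 2)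
      (fun x _ => Xd_hasDerivAt hα 0 x) (fun x _ => Xd_hasDerivAt hα 1 x)
      (fun x _ => hasDerivAt_const x (0 : ℝ)) (fun x _ => hasDerivAt_const x (0 : ℝ))
      ?_ h4 h3.le (x := t) ⟨ht, le_rfl⟩).2
  intro s hs
  have hs0 : 0 < s := by linarith [hs.1]
  have hs7 : s ≤ 7 := hs.2.le.trans ht7
  have h5 : 0.53 - 0.8 * (α - 1) * (s - z1 α) ≤ II α s := by
    refine cmp1 (a := z1 α) (b := s) (f := fun s => 0.53 - 0.8 * (α - 1) * (s - z1 α))
      (f1 := fun _ => -(0.8 * (α - 1))) (g := II α) (g1 := fun s => s * Phi α s)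
      (by fun_prop) ((II_cont hα).mono fun x hx => hz0.le.trans hx.1) ?_
      (fun x hx => II_hasDerivAt hα (by linarith [hx.1])) ?_ ?_ (x := s) ⟨hs.1.le, le_rfl⟩
    · intro x _
      have := (((hasDerivAt_id x).sub_const (z1 α)).const_mul (0.8 * (α - 1))).const_sub 0.53
      refine this.congr_deriv ?_
      ring
    · intro x hx
      have hx0 : 0 < x := by linarith [hx.1]
      have h6 := (X0_low4 hα h2 (t := x) (by linarith [hx.1])).2
      rw [Phi_eq_X hα hx0.le]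
      have h7 := mul_le_mul_of_nonneg_left h6 (mul_pos hx0 (exp_pos (-x))).le
      have e : x * exp (-x) * -(0.8 * (α - 1) * (exp x / x)) = -(0.8 * (α - 1)) := by
        rw [exp_neg]
        have := exp_pos x
        field_simp
      rw [e] at h7
      linarith
    · have := II_53 hα h2 (Z := z1 α) (fun _ h0 h1 => z1_pos_of hα h0 h1) (s := z1 α)
        (by norm_num; linarith) le_rfl
      simpa using this
  rw [II_eq hα hs0.le] at h5
  rw [X2_eq hα hs0, Nn_eq hα hs0.le]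
  have h6 := (abs_le.1 (PP_abs hα hs0)).2
  have h7 := p1_le' hα h2
  have h8 : s ^ 2 * PP α s ≤ 0.252 * (α - 1) := by
    have h9 : s ^ 2 * PP α s ≤ s ^ 2 * (p1 α / (2 * s)) :=
      mul_le_mul_of_nonneg_left h6 (by positivity)
    have h10 : s ^ 2 * (p1 α / (2 * s)) = s * p1 α / 2 := by
      field_simp
    rw [h10] at h9
    have h11 : s * p1 α ≤ 7 * (0.072 * (α - 1)) :=
      mul_le_mul hs7 h7 (p1_nonneg hα) (by norm_num)
    norm_num at h11 ⊢
    linarith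
  have h9 : s ^ 2 * (-((α - 1) * BB α s) + PP α s) ≤ 0 := by
    have h10 : (0.26 : ℝ) ≤ s ^ 2 * BB α s := by
      refine le_trans ?_ h5
      have h11 : (α - 1) * (s - z1 α) ≤ 1 / 9 * 3 :=
        mul_le_mul (by linarith) (by linarith [hs.1]) (by linarith [hs.1]) (by norm_num)
      norm_num at h11 ⊢
      linarith
    have h12 := mul_le_mul_of_nonneg_left h10 hα1.le
    norm_num at h12 h8 ⊢
    nlinarith
  have h10 : -((α - 1) * BB α s) + PP α s ≤ 0 := by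
    by_contra hcon
    push Not at hcon
    have : 0 < s ^ 2 * (-((α - 1) * BB α s) + PP α s) := by positivity
    linarith
  exact mul_nonpos_of_nonneg_of_nonpos (exp_pos s).le h10

theorem conc_near (hα : 1 < α) (h2 : α ≤ 10 / 9) :
    ConcaveOn ℝ (Ico 0 (z1 α)) (fun s => log (Phi α s) + 0.41 * (α - 1) * s ^ 2 / 2) := by
  have hα1 : 0 < α - 1 := by linarith
  have hX : ∀ s, 0 ≤ s → s < z1 α → 0 < Xd α 0 s := fun s hs hsz =>
    X0_pos_of hα hs (z1_pos_of hα hs hsz)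
  set κ := 0.41 * (α - 1) with hκ
  have hκ0 : 0 < κ := by rw [hκ]; positivity
  have heq : ∀ s ∈ Ico 0 (z1 α), log (Phi α s) + κ * s ^ 2 / 2 =
      log (Xd α 0 s) - s + κ * s ^ 2 / 2 := by
    intro s hs
    rw [Phi_eq_X hα hs.1, log_mul (exp_pos _).ne' (hX s hs.1 hs.2).ne', log_exp]
    ring
  have hconc : ConcaveOn ℝ (Ico 0 (z1 α)) (fun s => log (Xd α 0 s) - s + κ * s ^ 2 / 2) := by
    refine concaveOn_of_hasDerivWithinAt2_nonpos (convex_Ico 0 (z1 α))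
      (f' := fun s => Xd α 1 s / Xd α 0 s - 1 + κ * s)
      (f'' := fun s => (Xd α 2 s * Xd α 0 s - Xd α 1 s * Xd α 1 s) / Xd α 0 s ^ 2 + κ)
      ?_ ?_ ?_ ?_
    · refine ContinuousOn.add (ContinuousOn.sub ?_ continuousOn_id) ?_
      · exact (Xd_continuous hα 0).continuousOn.log fun s hs => (hX s hs.1 hs.2).ne'
      · fun_prop
    · intro s hs
      rw [interior_Ico] at hs
      have h1 := hX s hs.1.le hs.2
      have h2 := (((Xd_hasDerivAt hα 0 s).log h1.ne').sub (hasDerivAt_id s)).add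
        (((hasDerivAt_pow 2 s).const_mul κ).div_const 2)
      refine HasDerivAt.hasDerivWithinAt (h2.congr_deriv ?_)
      simp only [Nat.cast_ofNat, Nat.add_one_sub_one, pow_one]
      ring
    · intro s hs
      rw [interior_Ico] at hs
      have h1 := hX s hs.1.le hs.2
      have h2 := (((Xd_hasDerivAt hα 1 s).div (Xd_hasDerivAt hα 0 s) h1.ne').sub_const 1).add
        ((hasDerivAt_id s).const_mul κ)
      refine HasDerivAt.hasDerivWithinAt (h2.congr_deriv ?_)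
      ring
    · intro s hs
      rw [interior_Ico] at hs
      have h1 := hX s hs.1.le hs.2
      have h3 := X2_neg hα h2 (fun _ h0 h1 => z1_pos_of hα h0 h1) (z1_mem hα h2).2.2 hs.1 hs.2.le
      have h4 := X0_le_one hα h2 hs.1.le hs.2.le
      have h6 : (Xd α 2 s * Xd α 0 s - Xd α 1 s * Xd α 1 s) / Xd α 0 s ^ 2 ≤ Xd α 2 s / Xd α 0 s := by
        rw [div_le_div_iff₀ (by positivity) h1]
        have : 0 ≤ Xd α 1 s * Xd α 1 s := mul_self_nonneg _
        nlinarith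
      have h7 : Xd α 2 s / Xd α 0 s ≤ -κ := by
        rw [div_le_iff₀ h1]
        nlinarith
      linarith
  exact hconc.congr fun s hs => (heq s hs).symm

theorem near (hα : 1 < α) (h2 : α ≤ 10 / 9) : Near α := by
  have hα1 : 0 < α - 1 := by linarith
  have hz := z1_gt4 hα h2
  have hz0 : 0 < z1 α := by linarith
  refine ⟨hα, h2, hz, fun s h0 h1 => z1_pos_of hα h0 h1, z1_zero hα h2, conc_near hα h2,
    ?_, fun s h0 h1 => Phi_le_exp' hα h2 h0 h1, ?_, ?_, ?_, ?_, ?_⟩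
  · intro s hs
    rw [Phi_eq_X hα hs, mul_comm]
    exact mul_le_mul_of_nonneg_left (X1_X0_crude hα h2 hs).2 (exp_pos _).le
  · intro s h1 h7
    rw [Phi_eq_X hα (by linarith)]
    exact mul_nonpos_of_nonneg_of_nonpos (exp_pos _).le (X0_neg7 hα h2 h1 h7)
  · have h3 := (X0_low4 hα h2 hz.le).1
    rw [X0_z1 hα h2] at h3
    have h4 : exp (z1 α) * exp (-(z1 α)) = 1 := by rw [← exp_add, add_neg_cancel, exp_zero]
    have h5 := exp_pos (-(z1 α))
    nlinarith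
  · intro s hs
    have hs0 : 0 < s := by linarith
    rw [Phi_eq_X hα hs0.le, abs_mul, abs_of_pos (exp_pos _)]
    have h3 : |Xd α 0 s| ≤ 0.8 * (α - 1) * (exp s / s) :=
      abs_le.2 ⟨(X0_low4 hα h2 (hz.le.trans hs)).2, (X0_up4 hα h2 hs).2⟩
    have h4 := mul_le_mul_of_nonneg_left h3 (exp_pos (-s)).le
    refine h4.trans (le_of_eq ?_)
    have h5 : exp (-s) * exp s = 1 := by rw [← exp_add, neg_add_cancel, exp_zero]
    calc exp (-s) * (0.8 * (α - 1) * (exp s / s)) = 0.8 * (α - 1) * (exp (-s) * exp s) / s := by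
          ring
      _ = _ := by rw [h5, mul_one]
  · intro s hs
    have hs0 : 0 < s := by linarith
    rw [Phi_eq_X hα hs0.le, abs_mul, abs_of_pos (exp_pos _)]
    have h6 := (X0_low4 hα h2 (hz.le.trans hs)).1
    have h3 : |Xd α 0 s| ≤ 0.15 * (α - 1) * exp s :=
      abs_le.2 ⟨by linarith, (X0_up4 hα h2 hs).1⟩
    have h4 := mul_le_mul_of_nonneg_left h3 (exp_pos (-s)).le
    refine h4.trans (le_of_eq ?_)
    have h5 : exp (-s) * exp s = 1 := by rw [← exp_add, neg_add_cancel, exp_zero]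
    calc exp (-s) * (0.15 * (α - 1) * exp s) = 0.15 * (α - 1) * (exp (-s) * exp s) := by ring
      _ = _ := by rw [h5, mul_one]
  · intro s hs
    have hs0 : 0 < s := by linarith
    have e : Phi α s - Phi1 α s = exp (-s) * Xd α 1 s := by
      rw [Phi_eq_X hα hs0.le, Phi1_eq_X hα hs0]
      ring
    rw [e, abs_mul, abs_of_pos (exp_pos _)]
    have h3 : |Xd α 1 s| ≤ 2 / 3 * (α - 1) * (exp s / s) := by
      rcases le_total 4 s with h | h
      · exact X1_abs4 hα h2 h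
      · have h4 := (X_low hα h2 hs0.le (h.trans hz.le) h).1
        have h5 := (Yh_le hs0.le h).2
        have h6 := (X_up hα h2 hs0.le (h.trans hz.le)).1
        have h7 : Xd α 1 s ≤ 0 := by
          refine h6.trans ?_
          rw [neg_nonpos]
          positivity
        rw [abs_of_nonpos h7]
        have h8 : -Xd α 1 s ≤ (α - 1) * 5.88 := by
          have := mul_le_mul_of_nonneg_left h5 hα1.le
          linarith
        refine h8.trans ?_
        have h9 : 8.82 ≤ exp s / s := by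
          rw [le_div_iff₀ hs0]
          have h10 : (33 : ℝ) ≤ exp (7 / 2) := by
            have h := Real.sum_le_exp_of_nonneg (x := 7 / 2) (by norm_num) 12
            norm_num [Finset.sum_range_succ, Nat.factorial] at h
            linarith
          have h11 : exp s = exp (7 / 2) * exp (s - 7 / 2) := by
            rw [← exp_add]; congr 1; ring
          have h12 := add_one_le_exp (s - 7 / 2)
          rw [h11]
          have h13 : 33 * (s - 5 / 2) ≤ exp (7 / 2) * exp (s - 7 / 2) :=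
            mul_le_mul h10 (by linarith) (by linarith) (by linarith)
          refine le_trans ?_ h13
          norm_num
          linarith
        have h10 := mul_le_mul_of_nonneg_left h9 hα1.le
        norm_num at h10 ⊢
        linarith
    have h4 := mul_le_mul_of_nonneg_left h3 (exp_pos (-s)).le
    refine h4.trans (le_of_eq ?_)
    have h5 : exp (-s) * exp s = 1 := by rw [← exp_add, neg_add_cancel, exp_zero]
    calc exp (-s) * (2 / 3 * (α - 1) * (exp s / s)) = 2 / 3 * (α - 1) * (exp (-s) * exp s) / s := by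
          ring
      _ = _ := by rw [h5, mul_one]

end LpSec.Nr
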