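import Mathlib
import Pool.Agent.Lib.MP_1dbab3_gt.Nr.ML
import Pool.Agent.Lib.MP_1dbab3_gt.Nr.N
import Pool.Agent.Lib.MP_1dbab3_gt.Nr.Far
import Pool.Agent.Lib.MP_1dbab3_gt.Nr.JI

/-!
# Near `α = 1`: largest entry at least `3/4`
-/

open Real MeasureTheory Set Filter Topology

namespace LpSec.Nr

variable {α : ℝ}

/-- polynomial majorant of `Yh(t)/t` on `[0, 4]` -/
noncomputable def Qp (t : ℝ) : ℝ := t / 4 + t ^ 2 / 36 + t ^ 3 / 288 + t ^ 4 / 2400 +
  t ^ 5 / 21600 + t ^ 6 / 90720 + 0.0094 * (t / 2 + t ^ 2 / 6 + t ^ 3 / 24 + t ^ 4 / 120 +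
  t ^ 5 / 720 + t ^ 6 / 2160)

theorem Qp_nonneg {t : ℝ} (h : 0 ≤ t) : 0 ≤ Qp t := by
  unfold Qp
  positivity

theorem Yh_le_Qp {t : ℝ} (h0 : 0 ≤ t) (h4 : t ≤ 4) : Yh t ≤ t * Qp t := by
  have hE := exp_le_P7 h0 h4
  unfold Yh Qp
  have e : t * (t / 4 + t ^ 2 / 36 + t ^ 3 / 288 + t ^ 4 / 2400 +
      t ^ 5 / 21600 + t ^ 6 / 90720 + 0.0094 * (t / 2 + t ^ 2 / 6 + t ^ 3 / 24 + t ^ 4 / 120 +
      t ^ 5 / 720 + t ^ 6 / 2160)) = t ^ 2 / 4 + t ^ 3 / 36 + t ^ 4 / 288 + t ^ 5 / 2400 +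
      t ^ 6 / 21600 + t ^ 7 / 90720 + 0.0094 * (t ^ 2 / 2 + t ^ 3 / 6 + t ^ 4 / 24 +
      t ^ 5 / 120 + t ^ 6 / 720 + t ^ 7 / 2160) := by ring
  rw [e]
  norm_num
  linarith

theorem Yh_nonneg {t : ℝ} (h0 : 0 ≤ t) : 0 ≤ Yh t := by
  unfold Yh
  have : 0 ≤ exp t - 1 - t := by linarith [add_one_le_exp t]
  positivity

theorem pow_quot {t T : ℝ} (h0 : 0 ≤ t) (h : t ≤ T) (m : ℕ) :
    t ^ (m + 1) * T ≤ t * T ^ (m + 1) := by
  have h1 : t ^ m ≤ T ^ m := pow_le_pow_left₀ h0 h m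
  have h2 : 0 ≤ t * T := mul_nonneg h0 (h0.trans h)
  calc t ^ (m + 1) * T = t * T * t ^ m := by ring
    _ ≤ t * T * T ^ m := mul_le_mul_of_nonneg_left h1 h2
    _ = _ := by ring

theorem exp_quot {t T : ℝ} (h0 : 0 ≤ t) (h : t ≤ T) :
    (exp t - 1 - t) * T ≤ t * (exp T - 1 - T) := by
  rcases eq_or_lt_of_le (h0.trans h) with hT | hT
  · have : t = 0 := le_antisymm (by linarith) h0
    rw [this, ← hT]
    simp
  · have hc := convexOn_exp.2 (mem_univ T) (mem_univ (0 : ℝ)) (show 0 ≤ t / T by positivity)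
      (show 0 ≤ 1 - t / T by rw [sub_nonneg, div_le_one hT]; exact h) (by ring)
    simp only [smul_eq_mul, mul_zero, add_zero, exp_zero, mul_one] at hc
    rw [div_mul_cancel₀ _ hT.ne'] at hc
    have h3 := mul_le_mul_of_nonneg_right hc hT.le
    have e : (t / T * exp T + (1 - t / T)) * T = t * exp T + (T - t) := by
      field_simp
    rw [e] at h3
    linarith

theorem Yh_quot {t T : ℝ} (h0 : 0 ≤ t) (h : t ≤ T) : Yh t * T ≤ t * Yh T := by
  have p2 := pow_quot h0 h 1
  have p3 := pow_quot h0 h 2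
  have p4 := pow_quot h0 h 3
  have p5 := pow_quot h0 h 4
  have p6 := pow_quot h0 h 5
  have p7 := pow_quot h0 h 6
  have pe := exp_quot h0 h
  norm_num at p2 p3 p4 p5 p6 p7
  unfold Yh
  norm_num
  linarith

theorem Yh_super {ι : Type*} (s : Finset ι) {t : ι → ℝ} (h0 : ∀ k ∈ s, 0 ≤ t k)
    (hT : 0 < ∑ k ∈ s, t k) : ∑ k ∈ s, Yh (t k) ≤ Yh (∑ k ∈ s, t k) := by
  have h1 : (∑ k ∈ s, Yh (t k)) * ∑ k ∈ s, t k ≤ (∑ k ∈ s, t k) * Yh (∑ k ∈ s, t k) := by
    rw [Finset.sum_mul, Finset.sum_mul]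
    refine Finset.sum_le_sum fun k hk => ?_
    exact Yh_quot (h0 k hk) (Finset.single_le_sum h0 hk)
  rw [mul_comm] at h1
  exact le_of_mul_le_mul_left h1 hT

theorem prod_ge_one_sub {ι : Type*} (s : Finset ι) {a : ι → ℝ} (h0 : ∀ k ∈ s, 0 ≤ a k)
    (h1 : ∀ k ∈ s, a k ≤ 1) : 1 - ∑ k ∈ s, (1 - a k) ≤ ∏ k ∈ s, a k := by
  classical
  induction s using Finset.induction_on with
  | empty => simp
  | insert k s hk ih =>
    rw [Finset.sum_insert hk, Finset.prod_insert hk]
    have i1 := ih (fun j hj => h0 j (Finset.mem_insert_of_mem hj))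
      (fun j hj => h1 j (Finset.mem_insert_of_mem hj))
    have a0 := h0 k (Finset.mem_insert_self k s)
    have a1 := h1 k (Finset.mem_insert_self k s)
    have i2 : ∏ j ∈ s, a j ≤ 1 := Finset.prod_le_one
      (fun j hj => h0 j (Finset.mem_insert_of_mem hj))
      (fun j hj => h1 j (Finset.mem_insert_of_mem hj))
    nlinarith

/-- lower bound of the product of all factors except `i` -/
theorem Near.rest_lower (h : Near α) {n : ℕ} {x : Fin n → ℝ} (hx : ∀ i, 0 ≤ x i)
    (h1 : ∑ i, x i = 1) {i : Fin n} (hy1 : x i < 1) {s : ℝ} (hs : 0 < s)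
    (h4 : (1 - x i) * s ≤ 4) :
    exp (-((1 - x i) * s)) * (1 - (α - 1) * Yh ((1 - x i) * s)) ≤
      ∏ k ∈ Finset.univ.erase i, Phi α (x k * s) := by
  have hal := h.al
  have hz4 := h.z4
  have hsum : ∑ k ∈ Finset.univ.erase i, x k * s = (1 - x i) * s := by
    rw [← Finset.sum_mul, sum_erase1 h1 i]
  have hT : 0 < ∑ k ∈ Finset.univ.erase i, x k * s := by
    rw [hsum]
    exact mul_pos (by linarith) hs
  have hnn : ∀ k ∈ Finset.univ.erase i, 0 ≤ x k * s := fun k _ => mul_nonneg (hx k) hs.le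
  have hle : ∀ k ∈ Finset.univ.erase i, x k * s ≤ 4 := fun k hk =>
    (Finset.single_le_sum hnn hk).trans (by rw [hsum]; exact h4)
  have hX0 : ∀ k ∈ Finset.univ.erase i, 0 ≤ Xd α 0 (x k * s) := fun k hk =>
    (X0_pos_of h.one_lt (hnn k hk) (h.pos _ (hnn k hk) (lt_of_le_of_lt (hle k hk) hz4))).le
  have hX1 : ∀ k ∈ Finset.univ.erase i, Xd α 0 (x k * s) ≤ 1 := fun k hk =>
    X0_le_one h.one_lt h.le (hnn k hk) ((hle k hk).trans hz4.le)
  have hp := prod_ge_one_sub _ hX0 hX1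
  have hS : ∑ k ∈ Finset.univ.erase i, (1 - Xd α 0 (x k * s)) ≤
      (α - 1) * Yh ((1 - x i) * s) := by
    calc ∑ k ∈ Finset.univ.erase i, (1 - Xd α 0 (x k * s))
        ≤ ∑ k ∈ Finset.univ.erase i, (α - 1) * Yh (x k * s) := by
          refine Finset.sum_le_sum fun k hk => ?_
          have := (X_low h.one_lt h.le (hnn k hk) ((hle k hk).trans hz4.le) (hle k hk)).2
          linarith
      _ = (α - 1) * ∑ k ∈ Finset.univ.erase i, Yh (x k * s) := by rw [Finset.mul_sum]
      _ ≤ (α - 1) * Yh ((1 - x i) * s) := by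
          refine mul_le_mul_of_nonneg_left ?_ hal.le
          rw [← hsum]
          exact Yh_super _ hnn hT
  have hprod : ∏ k ∈ Finset.univ.erase i, Phi α (x k * s) =
      exp (-((1 - x i) * s)) * ∏ k ∈ Finset.univ.erase i, Xd α 0 (x k * s) := by
    rw [← hsum, ← Finset.sum_neg_distrib, exp_sum, ← Finset.prod_mul_distrib]
    exact Finset.prod_congr rfl fun k hk => Phi_eq_X h.one_lt (hnn k hk)
  rw [hprod]
  refine mul_le_mul_of_nonneg_left ?_ (exp_pos _).le
  linarith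

/-- the majorant in the variable `(1-y)s` -/
noncomputable def FF (d t : ℝ) : ℝ := d * (Qp t * exp (-t)) +
  1 / 4 * (Ioi (4 : ℝ)).indicator (fun t => exp (-t)) t

theorem FF_nonneg {d t : ℝ} (hd : 0 ≤ d) (ht : 0 ≤ t) : 0 ≤ FF d t := by
  unfold FF
  have h1 : 0 ≤ (Ioi (4 : ℝ)).indicator (fun t => exp (-t)) t :=
    indicator_nonneg (fun s _ => (exp_pos _).le) t
  have := Qp_nonneg ht
  positivity

theorem Qp_int : IntegrableOn (fun t => Qp t * exp (-t)) (Ioi 0) ∧
    ∫ t in Ioi (0 : ℝ), Qp t * exp (-t) ≤ 0.367 := by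
  have e : ∀ t : ℝ, Qp t * exp (-t) =
      (((((1 / 4 + 0.0094 / 2) * (t ^ 1 * exp (-t)) +
      (1 / 36 + 0.0094 / 6) * (t ^ 2 * exp (-t))) +
      (1 / 288 + 0.0094 / 24) * (t ^ 3 * exp (-t))) +
      (1 / 2400 + 0.0094 / 120) * (t ^ 4 * exp (-t))) +
      (1 / 21600 + 0.0094 / 720) * (t ^ 5 * exp (-t))) +
      (1 / 90720 + 0.0094 / 2160) * (t ^ 6 * exp (-t)) := by
    intro t
    unfold Qp
    ring
  have i1 := lc_pow_exp_int 1
  have i2 := lc_pow_exp_int 2
  have i3 := lc_pow_exp_int 3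
  have i4 := lc_pow_exp_int 4
  have i5 := lc_pow_exp_int 5
  have i6 := lc_pow_exp_int 6
  have j1 := i1.1.const_mul (1 / 4 + 0.0094 / 2)
  have j2 := i2.1.const_mul (1 / 36 + 0.0094 / 6)
  have j3 := i3.1.const_mul (1 / 288 + 0.0094 / 24)
  have j4 := i4.1.const_mul (1 / 2400 + 0.0094 / 120)
  have j5 := i5.1.const_mul (1 / 21600 + 0.0094 / 720)
  have j6 := i6.1.const_mul (1 / 90720 + 0.0094 / 2160)
  simp only [e]
  have k2 := j1.add j2
  have k3 := k2.add j3
  have k4 := k3.add j4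
  have k5 := k4.add j5
  have k6 := k5.add j6
  refine ⟨k6, ?_⟩
  have e6 := integral_add k5 j6
  have e5 := integral_add k4 j5
  have e4 := integral_add k3 j4
  have e3 := integral_add k2 j3
  have e2 := integral_add j1 j2
  simp only [Pi.add_apply] at e2 e3 e4 e5 e6
  rw [e6, e5, e4, e3, e2, integral_const_mul, integral_const_mul, integral_const_mul,
    integral_const_mul, integral_const_mul, integral_const_mul, i1.2, i2.2, i3.2, i4.2, i5.2, i6.2]
  norm_num [Nat.factorial]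

theorem FF_int {d : ℝ} (hd : 0 ≤ d) : IntegrableOn (FF d) (Ioi 0) ∧
    ∫ t in Ioi (0 : ℝ), FF d t ≤ 0.367 * d + 0.00463 := by
  obtain ⟨q1, q2⟩ := Qp_int
  have hE : IntegrableOn (fun t : ℝ => exp (-t)) (Ioi 4) := by
    have := exp_neg_integrableOn_Ioi 4 (b := 1) one_pos
    simpa using this
  have hI : Integrable ((Ioi (4 : ℝ)).indicator (fun t => exp (-t))) :=
    (integrable_indicator_iff measurableSet_Ioi).2 hE
  have j1 := q1.const_mul d
  have j2 : IntegrableOn (fun t => 1 / 4 * (Ioi (4 : ℝ)).indicator (fun t => exp (-t)) t)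
      (Ioi 0) := (hI.const_mul (1 / 4)).integrableOn
  refine ⟨j1.add j2, ?_⟩
  have e1 := integral_add j1 j2
  have e2 : ∫ t in Ioi (0 : ℝ), FF d t = ∫ t in Ioi (0 : ℝ), (d * (Qp t * exp (-t)) +
      1 / 4 * (Ioi (4 : ℝ)).indicator (fun t => exp (-t)) t) := rfl
  rw [e2, e1, integral_const_mul, integral_const_mul]
  have e3 : ∫ t in Ioi (0 : ℝ), (Ioi (4 : ℝ)).indicator (fun t => exp (-t)) t = exp (-4) := by
    rw [setIntegral_indicator measurableSet_Ioi]
    have : Ioi (0 : ℝ) ∩ Ioi 4 = Ioi 4 := by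
      rw [inter_eq_right]
      exact Ioi_subset_Ioi (by norm_num)
    rw [this, integral_exp_neg_Ioi]
  rw [e3]
  have h4 : exp (-4 : ℝ) ≤ 1 / 54 := by
    rw [exp_neg, ← one_div]
    exact one_div_le_one_div_of_le (by norm_num) exp4_ge
  have h5 := mul_le_mul_of_nonneg_left q2 hd
  norm_num at h5 h4 ⊢
  linarith

/-- pointwise comparison -/
theorem Near.big_pt (h : Near α) {n : ℕ} {x : Fin n → ℝ} (hx : ∀ i, 0 ≤ x i)
    (h1 : ∑ i, x i = 1) {i j : Fin n} (hij : i ≠ j) (hz0 : 0 < x j) (hji : x j ≤ x i)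
    (hk : ∀ k, k ≠ i → x k ≤ x j) (hy1 : x i < 1) {s : ℝ} (hs : 0 < s) :
    ∏ k, Phi α (x k * s) ≤ Phi α (x i * s) * exp (-((1 - x i) * s)) +
      (0.8 * (α - 1) / x i * ((1 - x i) * FF (α - 1) ((1 - x i) * s)) +
      (Ioi (z1 α / x j)).indicator
        (fun s => 0.64 * (α - 1) ^ 2 / (x i * x j) * s ^ (-2 : ℝ)) s) := by
  have hy0 : 0 < x i := hz0.trans_le hji
  have hal := h.al
  have hz := h.z0
  have hz4 := h.z4
  have hb : 0 < 1 - x i := by linarith
  have hbs : 0 < (1 - x i) * s := mul_pos hb hs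
  have hF := FF_nonneg hal.le hbs.le
  have hI : 0 ≤ (Ioi (z1 α / x j)).indicator
        (fun s => 0.64 * (α - 1) ^ 2 / (x i * x j) * s ^ (-2 : ℝ)) s := by
    refine indicator_nonneg (fun s hs' => ?_) s
    have : 0 < s := lt_trans (by positivity) hs'
    positivity
  have hD : 0 ≤ 0.8 * (α - 1) / x i * ((1 - x i) * FF (α - 1) ((1 - x i) * s)) := by positivity
  have hki : ∀ k, x k ≤ x i := fun k => by
    rcases eq_or_ne k i with e | e
    · rw [e]
    · exact (hk k e).trans hji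
  have hFbig : 4 < (1 - x i) * s → 1 / 4 * exp (-((1 - x i) * s)) ≤ FF (α - 1) ((1 - x i) * s) := by
    intro h5
    unfold FF
    rw [indicator_of_mem (show (1 - x i) * s ∈ Ioi (4 : ℝ) from h5)]
    have := Qp_nonneg hbs.le
    have h6 : 0 ≤ (α - 1) * (Qp ((1 - x i) * s) * exp (-((1 - x i) * s))) := by positivity
    linarith
  have hcut : 4 < (1 - x i) * s → 0.8 * (α - 1) / (x i * s) * exp (-((1 - x i) * s)) ≤
      0.8 * (α - 1) / x i * ((1 - x i) * FF (α - 1) ((1 - x i) * s)) := by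
    intro h5
    have h6 : 1 / s ≤ (1 - x i) / 4 := by
      rw [div_le_div_iff₀ hs (by norm_num)]
      linarith
    have h7 := hFbig h5
    calc 0.8 * (α - 1) / (x i * s) * exp (-((1 - x i) * s))
        = 0.8 * (α - 1) / x i * (1 / s * exp (-((1 - x i) * s))) := by
          field_simp
      _ ≤ 0.8 * (α - 1) / x i * ((1 - x i) / 4 * exp (-((1 - x i) * s))) := by gcongr
      _ = 0.8 * (α - 1) / x i * ((1 - x i) * (1 / 4 * exp (-((1 - x i) * s)))) := by ring
      _ ≤ _ := by gcongr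
  have hspl := Finset.mul_prod_erase Finset.univ (fun k => Phi α (x k * s)) (Finset.mem_univ i)
  rcases le_or_gt (x i * s) (z1 α) with c1 | c1
  · -- first case
    obtain ⟨r0, r1⟩ := h.rest_bounds hx h1 (i := i) hs.le (fun k _ =>
      (mul_le_mul_of_nonneg_right (hki k) hs.le).trans c1)
    have hP : 0 ≤ Phi α (x i * s) := by
      rcases eq_or_lt_of_le c1 with h2 | h2
      · rw [h2, h.zero]
      · exact (h.pos _ (by positivity) h2).le
    rw [← hspl]
    have := mul_le_mul_of_nonneg_left r1 hP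
    linarith
  · rcases le_or_gt (x j * s) (z1 α) with c2 | c2
    · obtain ⟨r0, r1⟩ := h.rest_bounds hx h1 (i := i) hs.le (fun k hk' =>
        (mul_le_mul_of_nonneg_right (hk k hk') hs.le).trans c2)
      have hE := h.env _ c1.le
      rw [← hspl]
      set R := ∏ k ∈ Finset.univ.erase i, Phi α (x k * s) with hR
      have h5 : Phi α (x i * s) * R - Phi α (x i * s) * exp (-((1 - x i) * s)) ≤
          0.8 * (α - 1) / (x i * s) * (exp (-((1 - x i) * s)) - R) := by
        have h6 : Phi α (x i * s) * R - Phi α (x i * s) * exp (-((1 - x i) * s)) =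
            -Phi α (x i * s) * (exp (-((1 - x i) * s)) - R) := by ring
        rw [h6]
        exact mul_le_mul_of_nonneg_right ((neg_le_abs _).trans hE) (by linarith)
      have h6 : 0.8 * (α - 1) / (x i * s) * (exp (-((1 - x i) * s)) - R) ≤
          0.8 * (α - 1) / x i * ((1 - x i) * FF (α - 1) ((1 - x i) * s)) := by
        rcases le_or_gt ((1 - x i) * s) 4 with c3 | c3
        · have h7 := h.rest_lower hx h1 hy1 hs c3
          rw [← hR] at h7
          have h8 : exp (-((1 - x i) * s)) - R ≤ exp (-((1 - x i) * s)) * ((α - 1) *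
              (((1 - x i) * s) * Qp ((1 - x i) * s))) := by
            have h9 := Yh_le_Qp hbs.le c3
            have h10 := mul_le_mul_of_nonneg_left h9 hal.le
            have h11 := mul_le_mul_of_nonneg_left h10 (exp_pos (-((1 - x i) * s))).le
            linarith
          have h9 : (α - 1) * (Qp ((1 - x i) * s) * exp (-((1 - x i) * s))) ≤
              FF (α - 1) ((1 - x i) * s) := by
            unfold FF
            have : 0 ≤ (Ioi (4 : ℝ)).indicator (fun t => exp (-t)) ((1 - x i) * s) :=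
              indicator_nonneg (fun s _ => (exp_pos _).le) _
            linarith
          calc 0.8 * (α - 1) / (x i * s) * (exp (-((1 - x i) * s)) - R)
              ≤ 0.8 * (α - 1) / (x i * s) * (exp (-((1 - x i) * s)) * ((α - 1) *
              (((1 - x i) * s) * Qp ((1 - x i) * s)))) :=
                mul_le_mul_of_nonneg_left h8 (by positivity)
            _ = 0.8 * (α - 1) / x i * ((1 - x i) * ((α - 1) * (Qp ((1 - x i) * s) *
                exp (-((1 - x i) * s))))) := by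
                field_simp
            _ ≤ _ := by gcongr
        · refine le_trans ?_ (hcut c3)
          refine mul_le_mul_of_nonneg_left ?_ (by positivity)
          linarith
      linarith
    · -- third case
      have hyz : x i + x j ≤ 1 := by
        have h3 := sum_erase2 h1 hij
        have h4 : 0 ≤ ∑ k ∈ (Finset.univ.erase i).erase j, x k :=
          Finset.sum_nonneg fun k _ => hx k
        linarith
      have c3 : 4 < (1 - x i) * s := by
        have : x j * s ≤ (1 - x i) * s := mul_le_mul_of_nonneg_right (by linarith) hs.le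
        linarith
      have hmem : z1 α / x j < s := by
        rw [div_lt_iff₀ hz0]
        linarith
      have hT := h.tail_pt hx h1 hij hz0 hji hk hmem.le
      rw [indicator_of_mem (show s ∈ Ioi (z1 α / x j) from hmem)]
      have hw : 0 ≤ 4 * (1 - x i - x j) / x j := by
        have : 0 ≤ 1 - x i - x j := by linarith
        positivity
      have h5 : exp (-(4 * (1 - x i - x j) / x j)) ≤ 1 := by
        rw [exp_le_one_iff]
        linarith
      have h6 : |∏ k, Phi α (x k * s)| ≤ 0.64 * (α - 1) ^ 2 / (x i * x j) * s ^ (-2 : ℝ) := by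
        refine hT.trans ?_
        have h7 : 0 ≤ 0.64 * (α - 1) ^ 2 / (x i * x j) := by positivity
        have h8 : 0 ≤ s ^ (-2 : ℝ) := by positivity
        refine mul_le_mul_of_nonneg_right ?_ h8
        exact mul_le_of_le_one_right h7 h5
      have hE := h.env _ c1.le
      have h7 : -(Phi α (x i * s) * exp (-((1 - x i) * s))) ≤
          0.8 * (α - 1) / (x i * s) * exp (-((1 - x i) * s)) := by
        rw [← neg_mul]
        exact mul_le_mul_of_nonneg_right ((neg_le_abs _).trans hE) (exp_pos _).le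
      have h8 := hcut c3
      have h9 := le_abs_self (∏ k, Phi α (x k * s))
      linarith

theorem Near.big_lt (h : Near α) {n : ℕ} (hn : 4 ≤ n) {x : Fin n → ℝ} (hx : ∀ i, 0 ≤ x i)
    (h1 : ∑ i, x i = 1) {i j : Fin n} (hij : i ≠ j) (hz0 : 0 < x j) (hji : x j ≤ x i)
    (hk : ∀ k, k ≠ i → x k ≤ x j) (hy : 3 / 4 ≤ x i) (hy1 : x i < 1) : J α x < vv α n := by
  have hy0 : 0 < x i := hz0.trans_le hji
  have hal := h.al
  have hz := h.z0
  have hz4 := h.z4
  have hb : 0 < 1 - x i := by linarith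
  have hS : 0 < z1 α / x j := by positivity
  have hfi := prod_integrable_pair h.one_lt hx hij hy0 hz0
  have hgi := JI_int h.one_lt hy0 hy1
  obtain ⟨f1, f2⟩ := FF_int hal.le
  have hFs : IntegrableOn (fun s => (1 - x i) * FF (α - 1) ((1 - x i) * s)) (Ioi 0) := by
    have h3 := (integrableOn_Ioi_comp_mul_left_iff (FF (α - 1)) 0 hb).2
    rw [mul_zero] at h3
    exact (h3 f1).const_mul _
  have hFv : ∫ s in Ioi (0 : ℝ), (1 - x i) * FF (α - 1) ((1 - x i) * s) =
      ∫ t in Ioi (0 : ℝ), FF (α - 1) t := by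
    rw [integral_const_mul, integral_comp_mul_left_Ioi (FF (α - 1)) 0 hb, mul_zero, smul_eq_mul,
      ← mul_assoc, mul_inv_cancel₀ hb.ne', one_mul]
  have hT : IntegrableOn (fun s : ℝ => 0.64 * (α - 1) ^ 2 / (x i * x j) * s ^ (-2 : ℝ))
      (Ioi (z1 α / x j)) := (integrableOn_Ioi_rpow_of_lt (by norm_num) hS).const_mul _
  have hTi : Integrable ((Ioi (z1 α / x j)).indicator
        (fun s => 0.64 * (α - 1) ^ 2 / (x i * x j) * s ^ (-2 : ℝ))) :=
    (integrable_indicator_iff measurableSet_Ioi).2 hT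
  have hTv : ∫ s in Ioi (0 : ℝ), (Ioi (z1 α / x j)).indicator
        (fun s => 0.64 * (α - 1) ^ 2 / (x i * x j) * s ^ (-2 : ℝ)) s ≤
        0.16 * (α - 1) ^ 2 / x i := by
    rw [setIntegral_indicator measurableSet_Ioi]
    have e0 : Ioi (0 : ℝ) ∩ Ioi (z1 α / x j) = Ioi (z1 α / x j) := by
      rw [inter_eq_right]
      exact Ioi_subset_Ioi hS.le
    rw [e0, integral_const_mul, integral_Ioi_rpow_of_lt (by norm_num) hS]
    have e : -(z1 α / x j) ^ ((-2 : ℝ) + 1) / ((-2 : ℝ) + 1) = x j / z1 α := by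
      have : ((-2 : ℝ) + 1) = -1 := by norm_num
      rw [this, rpow_neg_one, neg_div_neg_eq, div_one, inv_div]
    rw [e]
    have h4 : x j / z1 α ≤ x j / 4 := div_le_div_of_nonneg_left hz0.le (by norm_num) h.z4.le
    refine (mul_le_mul_of_nonneg_left h4 (by positivity)).trans (le_of_eq ?_)
    field_simp
    norm_num
  have hc := hFs.const_mul (0.8 * (α - 1) / x i)
  have hD := hc.add hTi.integrableOn
  have hmain : ∫ s in Ioi (0 : ℝ), ∏ k, Phi α (x k * s) ≤
      ∫ s in Ioi (0 : ℝ), (Phi α (x i * s) * exp (-((1 - x i) * s)) +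
      (0.8 * (α - 1) / x i * ((1 - x i) * FF (α - 1) ((1 - x i) * s)) +
      (Ioi (z1 α / x j)).indicator
        (fun s => 0.64 * (α - 1) ^ 2 / (x i * x j) * s ^ (-2 : ℝ)) s)) :=
    setIntegral_mono_on hfi (hgi.add hD) measurableSet_Ioi fun s hs =>
      h.big_pt hx h1 hij hz0 hji hk hy1 hs
  have e1 := integral_add hgi hD
  have e2 := integral_add hc hTi.integrableOn
  simp only [Pi.add_apply] at e1 e2
  rw [e1, e2, integral_const_mul, hFv] at hmain
  have hJ : J α x = ∫ s in Ioi (0 : ℝ), ∏ k, Phi α (x k * s) := rfl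
  have hJI : JI α (x i) = ∫ s in Ioi (0 : ℝ), Phi α (x i * s) * exp (-((1 - x i) * s)) := rfl
  rw [← hJ, ← hJI] at hmain
  have g1 := JI_le h.one_lt h.le hy hy1
  have g2 := h.vv_ge hn
  have h9 : α - 1 ≤ 1 / 9 := by linarith [h.le]
  have k1 : 0.8 * (α - 1) / x i * ∫ t in Ioi (0 : ℝ), FF (α - 1) t ≤
      (α - 1) * 0.0485 := by
    have k2 : ∫ t in Ioi (0 : ℝ), FF (α - 1) t ≤ 0.04541 := by
      refine f2.trans ?_
      norm_num
      linarith
    have k3 : 0.8 * (α - 1) / x i ≤ 0.8 * (α - 1) / (3 / 4) :=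
      div_le_div_of_nonneg_left (by positivity) (by norm_num) hy
    have k4 : 0 ≤ ∫ t in Ioi (0 : ℝ), FF (α - 1) t :=
      setIntegral_nonneg measurableSet_Ioi fun t ht => FF_nonneg hal.le (le_of_lt ht)
    calc 0.8 * (α - 1) / x i * ∫ t in Ioi (0 : ℝ), FF (α - 1) t
        ≤ 0.8 * (α - 1) / (3 / 4) * 0.04541 := mul_le_mul k3 k2 k4 (by positivity)
      _ ≤ _ := by
          norm_num
          linarith
  have k2 : 0.16 * (α - 1) ^ 2 / x i ≤ (α - 1) * 0.0238 := by
    have k3 : 0.16 * (α - 1) ^ 2 / x i ≤ 0.16 * (α - 1) ^ 2 / (3 / 4) :=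
      div_le_div_of_nonneg_left (by positivity) (by norm_num) hy
    refine k3.trans ?_
    norm_num
    nlinarith
  have k3 : (α - 1) * 0.2585 ≤ ((3 * x i - 1) / 4 - 0.072 * x i) * (α - 1) := by
    rw [mul_comm]
    refine mul_le_mul_of_nonneg_right ?_ hal.le
    norm_num
    linarith
  norm_num at k1 k2 k3 g1 g2 hmain hTv ⊢
  linarith

end LpSec.Nr
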