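import Mathlib

open Real MeasureTheory Set Filter Topology

namespace LpSec.Nr

/-! ROW nr-3 (helper14): second order expansion of a product -/

theorem nr3_first {ι : Type*} [DecidableEq ι] (a : ℝ) (b : ι → ℝ) (ha : |a| ≤ 1) (S : Finset ι) :
    (∀ k ∈ S, |a + b k| ≤ 1) → |∏ k ∈ S, (a + b k) - a ^ S.card| ≤ ∑ k ∈ S, |b k| := by
  induction S using Finset.induction_on with
  | empty => intro _; simp
  | insert k S hk ih =>
    intro hb
    have h1 := ih (fun j hj => hb j (Finset.mem_insert_of_mem hj))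
    have h2 := hb k (Finset.mem_insert_self k S)
    rw [Finset.prod_insert hk, Finset.sum_insert hk, Finset.card_insert_of_notMem hk]
    have h3 : (a + b k) * ∏ j ∈ S, (a + b j) - a ^ (S.card + 1) =
        (a + b k) * (∏ j ∈ S, (a + b j) - a ^ S.card) + b k * a ^ S.card := by ring
    rw [h3]
    refine (abs_add_le _ _).trans ?_
    rw [abs_mul, abs_mul, abs_pow]
    have h4 : |a| ^ S.card ≤ 1 := pow_le_one₀ (abs_nonneg _) ha
    have h5 : |a + b k| * |∏ j ∈ S, (a + b j) - a ^ S.card| ≤ 1 * ∑ j ∈ S, |b j| :=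
      mul_le_mul h2 h1 (abs_nonneg _) zero_le_one
    have h6 : |b k| * |a| ^ S.card ≤ |b k| * 1 := mul_le_mul_of_nonneg_left h4 (abs_nonneg _)
    linarith

theorem nr3_second {ι : Type*} [DecidableEq ι] (a : ℝ) (b : ι → ℝ) (ha : |a| ≤ 1) (S : Finset ι) :
    (∀ k ∈ S, |a + b k| ≤ 1) → ∀ n : ℕ, S.card = n + 1 →
      |∏ k ∈ S, (a + b k) - a ^ (n + 1) - a ^ n * ∑ k ∈ S, b k| ≤ (∑ k ∈ S, |b k|) ^ 2 / 2 := by
  induction S using Finset.induction_on with
  | empty => intro _ n hn; simp at hn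
  | insert k S hk ih =>
    intro hb n hn
    have hb' : ∀ j ∈ S, |a + b j| ≤ 1 := fun j hj => hb j (Finset.mem_insert_of_mem hj)
    rw [Finset.card_insert_of_notMem hk] at hn
    have hS : S.card = n := by omega
    rw [Finset.prod_insert hk, Finset.sum_insert hk, Finset.sum_insert hk]
    rcases Nat.eq_zero_or_pos n with h0 | h0
    · subst h0
      have hSe : S = ∅ := Finset.card_eq_zero.1 hS
      subst hSe
      simp
      positivity
    · obtain ⟨m, rfl⟩ : ∃ m, n = m + 1 := ⟨n - 1, by omega⟩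
      have h1 := ih hb' m hS
      have h2 := nr3_first a b ha S hb'
      rw [hS] at h2
      have h3 : (a + b k) * ∏ j ∈ S, (a + b j) - a ^ (m + 1 + 1) -
          a ^ (m + 1) * (b k + ∑ j ∈ S, b j) =
          a * (∏ j ∈ S, (a + b j) - a ^ (m + 1) - a ^ m * ∑ j ∈ S, b j) +
          b k * (∏ j ∈ S, (a + b j) - a ^ (m + 1)) := by ring
      rw [h3]
      refine (abs_add_le _ _).trans ?_
      rw [abs_mul, abs_mul]
      have h4 : |a| * |∏ j ∈ S, (a + b j) - a ^ (m + 1) - a ^ m * ∑ j ∈ S, b j| ≤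
          1 * ((∑ j ∈ S, |b j|) ^ 2 / 2) := mul_le_mul ha h1 (abs_nonneg _) zero_le_one
      have h5 : |b k| * |∏ j ∈ S, (a + b j) - a ^ (m + 1)| ≤ |b k| * ∑ j ∈ S, |b j| :=
        mul_le_mul_of_nonneg_left h2 (abs_nonneg _)
      nlinarith [sq_nonneg (|b k|), abs_nonneg (b k)]

theorem prod_taylor {ι : Type*} [DecidableEq ι] (S : Finset ι) (A : ℝ) (B : ι → ℝ) {m : ℝ} (hm : 0 < m)
    (hA : |A| ≤ m) (hB : ∀ k ∈ S, |A + B k| ≤ m) (N : ℕ) (hN : S.card = N + 2) :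
    |∏ k ∈ S, (A + B k) - A ^ (N + 2) - A ^ (N + 1) * ∑ k ∈ S, B k| ≤
      m ^ N / 2 * (∑ k ∈ S, |B k|) ^ 2 := by
  have ha : |A / m| ≤ 1 := by
    rw [abs_div, abs_of_pos hm]
    exact (div_le_one hm).2 hA
  have hb : ∀ k ∈ S, |A / m + (fun k => B k / m) k| ≤ 1 := by
    intro k hk
    have : A / m + (fun k => B k / m) k = (A + B k) / m := by ring
    rw [this, abs_div, abs_of_pos hm]
    exact (div_le_one hm).2 (hB k hk)
  have h := nr3_second (A / m) (fun k => B k / m) ha S hb (N + 1) (by omega)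
  have hm0 : m ≠ 0 := hm.ne'
  have e1 : ∏ k ∈ S, (A + B k) = m ^ (N + 2) * ∏ k ∈ S, (A / m + B k / m) := by
    rw [← hN, ← Finset.prod_const, ← Finset.prod_mul_distrib]
    refine Finset.prod_congr rfl fun k _ => ?_
    field_simp
  have e2 : A ^ (N + 2) = m ^ (N + 2) * (A / m) ^ (N + 2) := by
    rw [← mul_pow]; congr 1; field_simp
  have e3 : A ^ (N + 1) * ∑ k ∈ S, B k =
      m ^ (N + 2) * ((A / m) ^ (N + 1) * ∑ k ∈ S, B k / m) := by
    rw [← Finset.sum_div]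
    have : A ^ (N + 1) = m ^ (N + 1) * (A / m) ^ (N + 1) := by
      rw [← mul_pow]; congr 1; field_simp
    rw [this, pow_succ m (N + 1)]
    field_simp
  have e4 : (∑ k ∈ S, |B k|) = m * ∑ k ∈ S, |B k / m| := by
    rw [Finset.mul_sum]
    refine Finset.sum_congr rfl fun k _ => ?_
    rw [abs_div, abs_of_pos hm]
    field_simp
  rw [e1, e2, e3, e4]
  have e5 : m ^ (N + 2) * ∏ k ∈ S, (A / m + B k / m) - m ^ (N + 2) * (A / m) ^ (N + 2) -
      m ^ (N + 2) * ((A / m) ^ (N + 1) * ∑ k ∈ S, B k / m) =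
      m ^ (N + 2) * (∏ k ∈ S, (A / m + B k / m) - (A / m) ^ (N + 2) -
        (A / m) ^ (N + 1) * ∑ k ∈ S, B k / m) := by ring
  rw [e5, abs_mul, abs_of_pos (pow_pos hm _)]
  calc m ^ (N + 2) * |∏ k ∈ S, (A / m + B k / m) - (A / m) ^ (N + 2) -
        (A / m) ^ (N + 1) * ∑ k ∈ S, B k / m|
      ≤ m ^ (N + 2) * ((∑ k ∈ S, |B k / m|) ^ 2 / 2) :=
        mul_le_mul_of_nonneg_left h (pow_pos hm _).le
    _ = m ^ N / 2 * (m * ∑ k ∈ S, |B k / m|) ^ 2 := by ring

end LpSec.Nr
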