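import Mathlib
import Pool.Agent.Lib.MP_1dbab3_gt.Nr.Def
import Pool.Agent.Lib.MP_1dbab3_gt.Nr.S
import Pool.Agent.Lib.MP_1dbab3_gt.Nr.PT

/-!
# Row nr-7: near the flat point
-/

open Real MeasureTheory Set Filter Topology

namespace LpSec.Nr

variable {α : ℝ}

theorem nr7_dec {a t : ℝ} (ha : 1 ≤ a) (hat : a ≤ t) : t * exp (-t) ≤ a * exp (-a) := by
  have h1 : exp (-t) = exp (-a) * exp (-(t - a)) := by
    rw [← exp_add]
    congr 1
    ring
  have h2 : exp (-(t - a)) ≤ 1 / (1 + (t - a)) := by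
    rw [exp_neg, ← one_div]
    refine one_div_le_one_div_of_le (by linarith) ?_
    have := add_one_le_exp (t - a)
    linarith
  have h3 : t * (1 / (1 + (t - a))) ≤ a := by
    rw [mul_one_div, div_le_iff₀ (by linarith)]
    nlinarith [mul_nonneg (sub_nonneg.2 ha) (sub_nonneg.2 hat)]
  rw [h1]
  have h4 := exp_pos (-a)
  have h5 : t * exp (-(t - a)) ≤ a := by
    have := mul_le_mul_of_nonneg_left h2 (show 0 ≤ t by linarith)
    linarith
  nlinarith

theorem nr7_r (h : Near α) : 0 < √(α - 1) ∧ √(α - 1) ≤ 1 / 3 ∧ √(α - 1) ^ 2 = α - 1 := by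
  have h1 := h.one_lt
  have h2 := h.le
  refine ⟨Real.sqrt_pos.2 (by linarith), ?_, Real.sq_sqrt (by linarith)⟩
  rw [Real.sqrt_le_left (by norm_num)]
  linarith

theorem nr7_phi (h : Near α) {t : ℝ} (ht : 0.8867 * z1 α ≤ t) :
    |Phi α t| ≤ 0.3 * √(α - 1) / t := by
  obtain ⟨r0, r1, r2⟩ := nr7_r h
  have hz := h.z4
  have ht0 : 0 < t := by linarith
  rcases le_total (z1 α) t with hc | hc
  · refine (h.env t hc).trans ?_
    refine div_le_div_of_nonneg_right ?_ ht0.le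
    nlinarith [mul_nonneg r0.le (sub_nonneg.2 r1)]
  rcases eq_or_lt_of_le hc with hc' | hc'
  · rw [hc', h.zero, abs_zero]
    have : 0 < z1 α := by linarith
    positivity
  have hp := h.pos t ht0.le hc'
  rw [abs_of_pos hp, le_div_iff₀ ht0]
  have h1 := h.le_exp t ht0.le hc
  have h2 := nr7_dec (a := 0.8867 * z1 α) (t := t) (by linarith) ht
  have h3 : exp (-(0.8867 * z1 α)) = exp (-(0.3867 * z1 α)) * exp (-(z1 α / 2)) := by
    rw [← exp_add]
    congr 1
    ring
  have h4 : exp (-(z1 α / 2)) ≤ 0.388 * √(α - 1) := by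
    have h5 : exp (-(z1 α / 2)) ^ 2 ≤ (0.388 * √(α - 1)) ^ 2 := by
      rw [← exp_nat_mul, mul_pow, r2]
      have e : ((2 : ℕ) : ℝ) * -(z1 α / 2) = -(z1 α) := by push_cast; ring
      rw [e]
      have := h.e0
      have h6 : 0 < α - 1 := by linarith [h.one_lt]
      nlinarith
    exact le_of_sq_le_sq h5 (by positivity)
  have h5 := nr7_dec (a := 1.5468) (t := 0.3867 * z1 α) (by norm_num) (by linarith)
  have h6 : exp (-1.5468) ≤ 0.2135 := by
    rw [exp_neg, inv_le_comm₀ (exp_pos _) (by norm_num)]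
    have h3 := Real.sum_le_exp_of_nonneg (x := 1.5468) (by norm_num) 10
    refine le_trans ?_ h3
    simp only [Finset.sum_range_succ, Finset.sum_range_zero, Nat.factorial]
    norm_num
  have h7 : z1 α * exp (-(0.3867 * z1 α)) ≤ 0.855 := by nlinarith
  have h8 : t * exp (-t) ≤ 0.3 * √(α - 1) := by
    refine h2.trans ?_
    rw [h3]
    have h9 : 0 < exp (-(z1 α / 2)) := exp_pos _
    calc 0.8867 * z1 α * (exp (-(0.3867 * z1 α)) * exp (-(z1 α / 2)))
        = 0.8867 * (z1 α * exp (-(0.3867 * z1 α))) * exp (-(z1 α / 2)) := by ring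
      _ ≤ 0.8867 * 0.855 * (0.388 * √(α - 1)) := by
          refine mul_le_mul (by linarith) h4 h9.le (by norm_num)
      _ ≤ _ := by nlinarith
  calc Phi α t * t ≤ exp (-t) * t := mul_le_mul_of_nonneg_right h1 ht0.le
    _ = t * exp (-t) := mul_comm _ _
    _ ≤ _ := h8

theorem nr7_phi1 (h : Near α) {t : ℝ} (ht : 0.8867 * z1 α ≤ t) :
    |Phi1 α t| ≤ 0.53 * √(α - 1) / t := by
  obtain ⟨r0, r1, r2⟩ := nr7_r h
  have hz := h.z4
  have ht0 : 0 < t := by linarith
  have h1 := nr7_phi h ht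
  have h2 := h.env1 t (by linarith)
  have h3 : |Phi1 α t| ≤ |Phi α t| + |Phi α t - Phi1 α t| := by
    have := abs_sub_abs_le_abs_sub (Phi1 α t) (Phi α t)
    rw [abs_sub_comm] at this
    linarith
  have h4 : 2 / 3 * (α - 1) / t ≤ 0.23 * √(α - 1) / t := by
    refine div_le_div_of_nonneg_right ?_ ht0.le
    nlinarith [mul_nonneg r0.le (sub_nonneg.2 r1)]
  have h5 : 0.53 * √(α - 1) / t = 0.3 * √(α - 1) / t + 0.23 * √(α - 1) / t := by ring
  linarith

theorem nr7_phi2 (h : Near α) {t : ℝ} (ht : 0.8867 * z1 α ≤ t) :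
    |Phi2 α t| ≤ 0.92 * √(α - 1) / t := by
  obtain ⟨r0, r1, r2⟩ := nr7_r h
  have hz := h.z4
  have ht0 : 0 < t := by linarith
  have h1 := nr7_phi h ht
  have h2 := h.env1 t (by linarith)
  have h3 := Nn_abs h.one_lt h.le ht0
  have h4 : |Phi2 α t| ≤ |Nn α t| + 2 * |Phi α t - Phi1 α t| + |Phi α t| := by
    have e : Phi2 α t = Nn α t + (-(2 * (Phi α t - Phi1 α t)) + Phi α t) := by
      unfold Nn
      ring
    rw [e]
    have a1 := abs_add_le (Nn α t) (-(2 * (Phi α t - Phi1 α t)) + Phi α t)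
    have a2 := abs_add_le (-(2 * (Phi α t - Phi1 α t))) (Phi α t)
    rw [abs_neg, abs_mul, abs_of_pos (show (0 : ℝ) < 2 by norm_num)] at a2
    linarith
  have h5 : (α - 1) / (2 * t) + 2 * (2 / 3 * (α - 1) / t) ≤ 0.62 * √(α - 1) / t := by
    have e : (α - 1) / (2 * t) + 2 * (2 / 3 * (α - 1) / t) = (11 / 6 * (α - 1)) / t := by
      field_simp
      ring
    rw [e]
    refine div_le_div_of_nonneg_right ?_ ht0.le
    nlinarith [mul_nonneg r0.le (sub_nonneg.2 r1)]
  have h6 : 0.92 * √(α - 1) / t = 0.3 * √(α - 1) / t + 0.62 * √(α - 1) / t := by ring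
  linarith

/-- Taylor, first order -/
theorem nr7_t1 (hα : 1 < α) {T t M : ℝ} (hT : 0 < T) (ht : 0 < t)
    (hM : ∀ u, min T t ≤ u → u ≤ max T t → |Phi1 α u| ≤ M) :
    |Phi α t - Phi α T| ≤ M * |t - T| := by
  have hs : ∀ u ∈ uIcc T t, 0 < u := fun u hu => by
    have : min T t ≤ u := hu.1
    exact (lt_min hT ht).trans_le this
  have := Convex.norm_image_sub_le_of_norm_hasDerivWithin_le (f := Phi α)
    (f' := fun u => -(Phi1 α u)) (C := M) (s := uIcc T t) (x := T) (y := t)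
    (fun u hu => (Phi_hasDerivAt hα (hs u hu)).hasDerivWithinAt)
    (fun u hu => by
      rw [norm_neg]
      exact hM u hu.1 hu.2) (convex_uIcc T t) left_mem_uIcc right_mem_uIcc
  simpa [Real.norm_eq_abs] using this

theorem nr7_t1' (hα : 1 < α) {T t M : ℝ} (hT : 0 < T) (ht : 0 < t)
    (hM : ∀ u, min T t ≤ u → u ≤ max T t → |Phi2 α u| ≤ M) :
    |Phi1 α t - Phi1 α T| ≤ M * |t - T| := by
  have hs : ∀ u ∈ uIcc T t, 0 < u := fun u hu => by
    have : min T t ≤ u := hu.1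
    exact (lt_min hT ht).trans_le this
  have := Convex.norm_image_sub_le_of_norm_hasDerivWithin_le (f := Phi1 α)
    (f' := fun u => -(Phi2 α u)) (C := M) (s := uIcc T t) (x := T) (y := t)
    (fun u hu => (Phi1_hasDerivAt hα (hs u hu)).hasDerivWithinAt)
    (fun u hu => by
      rw [norm_neg]
      exact hM u hu.1 hu.2) (convex_uIcc T t) left_mem_uIcc right_mem_uIcc
  simpa [Real.norm_eq_abs] using this

/-- Taylor, second order -/
theorem nr7_t2 (hα : 1 < α) {T t M : ℝ} (hT : 0 < T) (ht : 0 < t) 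
    (hM : ∀ u, min T t ≤ u → u ≤ max T t → |Phi2 α u| ≤ M) :
    |Phi α t - Phi α T + Phi1 α T * (t - T)| ≤ M / 2 * (t - T) ^ 2 := by
  have hline : ∀ v ∈ Icc (0 : ℝ) 1, min T t ≤ T + v * (t - T) ∧ T + v * (t - T) ≤ max T t := by
    intro v hv
    have e : T + v * (t - T) = (1 - v) * T + v * t := by ring
    rw [e]
    constructor
    · calc min T t = (1 - v) * min T t + v * min T t := by ring
        _ ≤ _ := add_le_add (mul_le_mul_of_nonneg_left (min_le_left _ _) (by linarith [hv.2]))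
          (mul_le_mul_of_nonneg_left (min_le_right _ _) hv.1)
    · calc (1 - v) * T + v * t ≤ (1 - v) * max T t + v * max T t := (add_le_add
            (mul_le_mul_of_nonneg_left (le_max_left _ _) (by linarith [hv.2]))
            (mul_le_mul_of_nonneg_left (le_max_right _ _) hv.1))
        _ = max T t := by ring
  have hpos : ∀ v ∈ Icc (0 : ℝ) 1, 0 < T + v * (t - T) := fun v hv =>
    (lt_min hT ht).trans_le (hline v hv).1
  set g : ℝ → ℝ := fun v => Phi α (T + v * (t - T)) - Phi α T + Phi1 α T * (v * (t - T)) with hg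
  have hd : ∀ v ∈ Icc (0 : ℝ) 1, HasDerivAt g
      ((t - T) * (Phi1 α T - Phi1 α (T + v * (t - T)))) v := by
    intro v hv
    have a1 : HasDerivAt (fun v : ℝ => T + v * (t - T)) (t - T) v := by
      have := ((hasDerivAt_id v).mul_const (t - T)).const_add T
      simpa using this
    have a2 := (Phi_hasDerivAt hα (hpos v hv)).comp v a1
    have a3 : HasDerivAt (fun v : ℝ => Phi1 α T * (v * (t - T))) (Phi1 α T * (t - T)) v := by
      have := ((hasDerivAt_id v).mul_const (t - T)).const_mul (Phi1 α T)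
      simpa using this
    refine ((a2.sub_const (Phi α T)).add a3).congr_deriv ?_
    ring
  have hb : ∀ v ∈ Icc (0 : ℝ) 1, |(t - T) * (Phi1 α T - Phi1 α (T + v * (t - T)))| ≤
      M * (t - T) ^ 2 * v := by
    intro v hv
    have h1 := nr7_t1' (M := M) hα hT (hpos v hv) (fun u hu1 hu2 => hM u
      ((le_min (min_le_left _ _) (hline v hv).1).trans hu1)
      (hu2.trans (max_le (le_max_left _ _) (hline v hv).2)))
    rw [abs_sub_comm] at h1
    have e : T + v * (t - T) - T = v * (t - T) := by ring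
    rw [e, abs_mul, abs_of_nonneg hv.1] at h1
    rw [abs_mul]
    calc |t - T| * |Phi1 α T - Phi1 α (T + v * (t - T))| ≤ |t - T| * (M * (v * |t - T|)) :=
          mul_le_mul_of_nonneg_left h1 (abs_nonneg _)
      _ = M * |t - T| ^ 2 * v := by ring
      _ = _ := by rw [sq_abs]
  have key : ∀ e : ℝ, (e = 1 ∨ e = -1) → e * g 1 ≤ M / 2 * (t - T) ^ 2 := by
    intro e he
    have hmono : MonotoneOn (fun v => M / 2 * (t - T) ^ 2 * v ^ 2 - e * g v) (Icc 0 1) := by
      refine monotoneOn_of_hasDerivWithinAt_nonneg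
        (f' := fun v => M * (t - T) ^ 2 * v -
          e * ((t - T) * (Phi1 α T - Phi1 α (T + v * (t - T))))) (convex_Icc 0 1) ?_ ?_ ?_
      · refine ContinuousOn.sub (by fun_prop) (continuousOn_const.mul fun v hv => ?_)
        exact (hd v hv).continuousAt.continuousWithinAt
      · intro v hv
        rw [interior_Icc] at hv
        have a1 : HasDerivAt (fun v : ℝ => M / 2 * (t - T) ^ 2 * v ^ 2)
            (M * (t - T) ^ 2 * v) v := by
          refine ((hasDerivAt_pow 2 v).const_mul (M / 2 * (t - T) ^ 2)).congr_deriv ?_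
          norm_num
          ring
        exact (a1.sub ((hd v ⟨hv.1.le, hv.2.le⟩).const_mul e)).hasDerivWithinAt
      · intro v hv
        rw [interior_Icc] at hv
        have h1 := abs_le.1 (hb v ⟨hv.1.le, hv.2.le⟩)
        rcases he with he | he
        · rw [he]
          linarith [h1.2]
        · rw [he]
          linarith [h1.1]
    have h1 := hmono (left_mem_Icc.2 zero_le_one) (right_mem_Icc.2 zero_le_one) zero_le_one
    have h2 : g 0 = 0 := by
      rw [hg]
      simp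
    simp only [h2] at h1
    linarith
  have h1 := key 1 (Or.inl rfl)
  have h2 := key (-1) (Or.inr rfl)
  have h3 : g 1 = Phi α t - Phi α T + Phi1 α T * (t - T) := by
    rw [hg]
    simp
  rw [h3] at h1 h2
  rw [abs_le]
  constructor <;> linarith

theorem nr7_num (k : ℕ) : ((k : ℝ) + 4) ^ 3 * (0.157 + 0.16 * ((k : ℝ) + 4)) * 0.0283 ^ k ≤ 51.1 := by
  induction k with
  | zero => norm_num
  | succ k ih =>
    have hk : (0 : ℝ) ≤ k := Nat.cast_nonneg k
    have h1 : ((k : ℝ) + 1 + 4) ^ 3 * (0.157 + 0.16 * ((k : ℝ) + 1 + 4)) * 0.0283 ≤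
        ((k : ℝ) + 4) ^ 3 * (0.157 + 0.16 * ((k : ℝ) + 4)) := by
      have a1 : (k : ℝ) + 1 + 4 ≤ 5 / 4 * (k + 4) := by linarith
      have a2 : ((k : ℝ) + 1 + 4) ^ 3 ≤ (5 / 4 * (k + 4)) ^ 3 :=
        pow_le_pow_left₀ (by positivity) a1 3
      have a3 : 0.157 + 0.16 * ((k : ℝ) + 1 + 4) ≤ 2 * (0.157 + 0.16 * ((k : ℝ) + 4)) := by
        linarith
      calc ((k : ℝ) + 1 + 4) ^ 3 * (0.157 + 0.16 * ((k : ℝ) + 1 + 4)) * 0.0283
          ≤ (5 / 4 * (k + 4)) ^ 3 * (2 * (0.157 + 0.16 * ((k : ℝ) + 4))) * 0.0283 := by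
            gcongr
        _ = ((k : ℝ) + 4) ^ 3 * (0.157 + 0.16 * ((k : ℝ) + 4)) *
            ((5 / 4) ^ 3 * 2 * 0.0283) := by ring
        _ ≤ ((k : ℝ) + 4) ^ 3 * (0.157 + 0.16 * ((k : ℝ) + 4)) * 1 := by
            refine mul_le_mul_of_nonneg_left (by norm_num) (by positivity)
        _ = _ := mul_one _
    push_cast
    rw [pow_succ]
    have h2 : (0 : ℝ) ≤ 0.0283 ^ k := by positivity
    calc ((k : ℝ) + 1 + 4) ^ 3 * (0.157 + 0.16 * ((k : ℝ) + 1 + 4)) * (0.0283 ^ k * 0.0283)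
        = ((k : ℝ) + 1 + 4) ^ 3 * (0.157 + 0.16 * ((k : ℝ) + 1 + 4)) * 0.0283 * 0.0283 ^ k := by
          ring
      _ ≤ ((k : ℝ) + 4) ^ 3 * (0.157 + 0.16 * ((k : ℝ) + 4)) * 0.0283 ^ k :=
          mul_le_mul_of_nonneg_right h1 h2
      _ ≤ _ := ih

set_option maxHeartbeats 1000000 in
/-- the pointwise bound -/
theorem nr7_point (h : Near α) {n k : ℕ} (hn : n = k + 2 + 2) {x : Fin n → ℝ}
    (h1 : ∑ k, x k = 1) (hx : ∀ k, |x k - 1 / n| ≤ 0.06 / n) {s : ℝ}
    (hs : n * z1 α / 1.06 < s) :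
    |∏ k, Phi α (x k * s) - Phi α (s / n) ^ n| ≤
      0.01138 * (α - 1) * (∑ k, x k ^ 2 - 1 / n) * n ^ 4 * ((0.157 + 0.16 * n) * 0.0283 ^ k) *
        s ^ (-2 : ℝ) := by
  obtain ⟨r0, r1, r2⟩ := nr7_r h
  have hz := h.z4
  have hα := h.one_lt
  set r := √(α - 1) with hr
  have hn0 : (0 : ℝ) < n := by
    have : 0 < n := by omega
    exact_mod_cast this
  set T := s / n with hT
  have hTz : z1 α / 1.06 < T := by
    rw [hT, lt_div_iff₀ hn0]
    calc z1 α / 1.06 * n = n * z1 α / 1.06 := by ring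
      _ < s := hs
  have hT0 : 0 < T := by
    have : 0 < z1 α / 1.06 := by positivity
    linarith
  have hT377 : 3.77 < T := by
    have : 4 / 1.06 < z1 α / 1.06 := div_lt_div_of_pos_right hz (by norm_num)
    have : (3.77 : ℝ) < 4 / 1.06 := by norm_num
    linarith
  have hs0 : 0 < s := by
    have := mul_pos hT0 hn0
    rwa [hT, div_mul_cancel₀ _ hn0.ne'] at this
  -- the points
  have hd : ∀ j, |x j * s - T| ≤ 0.06 * T := by
    intro j
    have e : x j * s - T = (x j - 1 / n) * s := by rw [hT]; ring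
    rw [e, abs_mul, abs_of_pos hs0]
    calc |x j - 1 / n| * s ≤ 0.06 / n * s := mul_le_mul_of_nonneg_right (hx j) hs0.le
      _ = _ := by rw [hT]; ring
  have hrange : ∀ u, 0.94 * T ≤ u → 0.8867 * z1 α ≤ u := by
    intro u hu
    have : 0.8867 * z1 α ≤ 0.94 * (z1 α / 1.06) := by
      have e : 0.94 * (z1 α / 1.06) = 0.94 / 1.06 * z1 α := by ring
      rw [e]
      exact mul_le_mul_of_nonneg_right (by norm_num) (by linarith)
    have : 0.94 * (z1 α / 1.06) ≤ 0.94 * T := mul_le_mul_of_nonneg_left hTz.le (by norm_num)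
    linarith
  have hdiv : ∀ u c, 0.94 * T ≤ u → 0 ≤ c → c * r / u ≤ c / 0.94 * (r / T) := by
    intro u c hu hc
    have e : c / 0.94 * (r / T) = c * r / (0.94 * T) := by
      field_simp
    rw [e]
    exact div_le_div_of_nonneg_left (by positivity) (by positivity) hu
  have hrT : 0 < r / T := by positivity
  have hb0 : ∀ u, 0.94 * T ≤ u → |Phi α u| ≤ 0.32 * (r / T) := by
    intro u hu
    refine (nr7_phi h (hrange u hu)).trans ((hdiv u 0.3 hu (by norm_num)).trans ?_)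
    exact mul_le_mul_of_nonneg_right (by norm_num) hrT.le
  have hb1 : ∀ u, 0.94 * T ≤ u → |Phi1 α u| ≤ 0.565 * (r / T) := by
    intro u hu
    refine (nr7_phi1 h (hrange u hu)).trans ((hdiv u 0.53 hu (by norm_num)).trans ?_)
    exact mul_le_mul_of_nonneg_right (by norm_num) hrT.le
  have hb2 : ∀ u, 0.94 * T ≤ u → |Phi2 α u| ≤ 0.98 * (r / T) := by
    intro u hu
    refine (nr7_phi2 h (hrange u hu)).trans ((hdiv u 0.92 hu (by norm_num)).trans ?_)
    exact mul_le_mul_of_nonneg_right (by norm_num) hrT.le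
  have hpt : ∀ j, 0.94 * T ≤ x j * s := fun j => by linarith [(abs_le.1 (hd j)).1]
  have hseg : ∀ j u, min T (x j * s) ≤ u → 0.94 * T ≤ u := by
    intro j u hu
    exact (le_min (by linarith) (hpt j)).trans hu
  have hpos : ∀ j, 0 < x j * s := fun j => by linarith [hpt j]
  have hB1 : ∀ j, |Phi α (x j * s) - Phi α T| ≤ 0.565 * (r / T) * |x j * s - T| := fun j =>
    nr7_t1 hα hT0 (hpos j) fun u hu _ => hb1 u (hseg j u hu)
  have hB2 : ∀ j, |Phi α (x j * s) - Phi α T + Phi1 α T * (x j * s - T)| ≤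
      0.98 * (r / T) / 2 * (x j * s - T) ^ 2 := fun j =>
    nr7_t2 hα hT0 (hpos j) fun u hu _ => hb2 u (hseg j u hu)
  -- sums
  set V := ∑ k, x k ^ 2 - 1 / (n : ℝ) with hV
  have hsumd : ∑ j, (x j * s - T) = 0 := by
    rw [Finset.sum_sub_distrib, ← Finset.sum_mul, h1, Finset.sum_const, Finset.card_univ,
      Fintype.card_fin, nsmul_eq_mul, hT]
    field_simp
    ring
  have hsumd2 : ∑ j, (x j * s - T) ^ 2 = s ^ 2 * V := by
    have e : ∀ j, (x j * s - T) ^ 2 = s ^ 2 * x j ^ 2 - 2 * T * s * x j + T ^ 2 := fun j => by ring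
    simp only [e]
    rw [Finset.sum_add_distrib, Finset.sum_sub_distrib, ← Finset.mul_sum, ← Finset.mul_sum, h1,
      Finset.sum_const, Finset.card_univ, Fintype.card_fin, nsmul_eq_mul, hV, hT]
    field_simp
    ring
  have hV0 : 0 ≤ V := by
    have h2 : 0 ≤ s ^ 2 * V := by
      rw [← hsumd2]
      exact Finset.sum_nonneg fun j _ => sq_nonneg _
    exact nonneg_of_mul_nonneg_right h2 (by positivity)
  have hSB : |∑ j, (Phi α (x j * s) - Phi α T)| ≤ 0.98 * (r / T) / 2 * (s ^ 2 * V) := by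
    have e : ∑ j, (Phi α (x j * s) - Phi α T) =
        ∑ j, (Phi α (x j * s) - Phi α T + Phi1 α T * (x j * s - T)) := by
      rw [Finset.sum_add_distrib, ← Finset.mul_sum, hsumd, mul_zero, add_zero]
    rw [e, ← hsumd2, Finset.mul_sum]
    exact (Finset.abs_sum_le_sum_abs _ _).trans (Finset.sum_le_sum fun j _ => hB2 j)
  have hSB2 : (∑ j, |Phi α (x j * s) - Phi α T|) ^ 2 ≤
      n * ((0.565 * (r / T)) ^ 2 * (s ^ 2 * V)) := by
    have h2 := sq_sum_le_card_mul_sum_sq (s := (Finset.univ : Finset (Fin n)))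
      (f := fun j => |Phi α (x j * s) - Phi α T|)
    rw [Finset.card_univ, Fintype.card_fin] at h2
    refine h2.trans (mul_le_mul_of_nonneg_left ?_ hn0.le)
    rw [← hsumd2, Finset.mul_sum]
    refine Finset.sum_le_sum fun j _ => ?_
    have h3 := pow_le_pow_left₀ (abs_nonneg _) (hB1 j) 2
    rw [mul_pow, sq_abs (x j * s - T)] at h3
    exact h3
  have hm : 0 < 0.32 * (r / T) := by positivity
  have hpt2 := prod_taylor (Finset.univ : Finset (Fin n)) (Phi α T)
    (fun j => Phi α (x j * s) - Phi α T) hm (hb0 T (by linarith))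
    (fun j _ => by
      have e : Phi α T + (Phi α (x j * s) - Phi α T) = Phi α (x j * s) := by ring
      simp only [e]
      exact hb0 _ (hpt j)) (k + 2) (by rw [Finset.card_univ, Fintype.card_fin, hn])
  have e1 : ∏ j, (Phi α T + (Phi α (x j * s) - Phi α T)) = ∏ j, Phi α (x j * s) :=
    Finset.prod_congr rfl fun j _ => by ring
  rw [e1] at hpt2
  have hA : |Phi α T| ≤ 0.32 * (r / T) := hb0 T (by linarith)
  have h3 : |Phi α T ^ (k + 2 + 1) * ∑ j, (Phi α (x j * s) - Phi α T)| ≤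
      (0.32 * (r / T)) ^ (k + 2 + 1) * (0.98 * (r / T) / 2 * (s ^ 2 * V)) := by
    rw [abs_mul, abs_pow]
    exact mul_le_mul (pow_le_pow_left₀ (abs_nonneg _) hA _) hSB (abs_nonneg _) (by positivity)
  have h4 : |∏ j, Phi α (x j * s) - Phi α T ^ n| ≤
      (0.32 * (r / T)) ^ (k + 2) / 2 * (n * ((0.565 * (r / T)) ^ 2 * (s ^ 2 * V))) +
      (0.32 * (r / T)) ^ (k + 2 + 1) * (0.98 * (r / T) / 2 * (s ^ 2 * V)) := by
    have e0 : Phi α T ^ n = Phi α T ^ (k + 2 + 2) := congrArg (fun i => Phi α T ^ i) hn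
    have e : ∏ j, Phi α (x j * s) - Phi α T ^ n =
        (∏ j, Phi α (x j * s) - Phi α T ^ (k + 2 + 2) -
          Phi α T ^ (k + 2 + 1) * ∑ j, (Phi α (x j * s) - Phi α T)) +
        Phi α T ^ (k + 2 + 1) * ∑ j, (Phi α (x j * s) - Phi α T) := by
      rw [e0]
      ring
    rw [e]
    refine (abs_add_le _ _).trans (add_le_add (hpt2.trans ?_) h3)
    exact mul_le_mul_of_nonneg_left hSB2 (by positivity)
  refine h4.trans ?_
  -- collect the constants
  have hmk : (0.32 * (r / T)) ^ k ≤ 0.0283 ^ k := by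
    refine pow_le_pow_left₀ hm.le ?_ k
    rw [← mul_div_assoc, div_le_iff₀ hT0]
    nlinarith
  have hrT4 : (r / T) ^ 4 * s ^ 2 ≤ (α - 1) / 9 * n ^ 4 * s ^ (-2 : ℝ) := by
    have e2 : s ^ (-2 : ℝ) = 1 / s ^ 2 := by
      rw [rpow_neg hs0.le, one_div, show (2 : ℝ) = ((2 : ℕ) : ℝ) by norm_num, rpow_natCast]
    have e3 : (r / T) ^ 4 * s ^ 2 = r ^ 4 * (n ^ 4 * (1 / s ^ 2)) := by
      rw [hT]
      field_simp
    rw [e2, e3]
    have h5 : r ^ 4 ≤ (α - 1) / 9 := by
      have e4 : r ^ 4 = (α - 1) * (α - 1) := by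
        rw [← r2]
        ring
      rw [e4]
      have h7 := h.le
      have h8 : (α - 1) * (α - 1) ≤ (α - 1) * (1 / 9) :=
        mul_le_mul_of_nonneg_left (by linarith) (by linarith)
      linarith
    have h6 : 0 ≤ (n : ℝ) ^ 4 * (1 / s ^ 2) := by positivity
    calc r ^ 4 * (n ^ 4 * (1 / s ^ 2)) ≤ (α - 1) / 9 * (n ^ 4 * (1 / s ^ 2)) :=
          mul_le_mul_of_nonneg_right h5 h6
      _ = _ := by ring
  have e5 : (0.32 * (r / T)) ^ (k + 2) / 2 * (n * ((0.565 * (r / T)) ^ 2 * (s ^ 2 * V))) +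
      (0.32 * (r / T)) ^ (k + 2 + 1) * (0.98 * (r / T) / 2 * (s ^ 2 * V)) =
      (0.32 * (r / T)) ^ k * (0.1024 * (0.1568 + 0.1596125 * n) * V) * ((r / T) ^ 4 * s ^ 2) := by
    rw [pow_add, pow_add, pow_add]
    ring
  rw [e5]
  have h7 : 0.1024 * (0.1568 + 0.1596125 * (n : ℝ)) * V ≤ 0.1024 * (0.157 + 0.16 * n) * V := by
    refine mul_le_mul_of_nonneg_right ?_ hV0
    linarith
  have h8 : 0 ≤ 0.1024 * (0.1568 + 0.1596125 * (n : ℝ)) * V := by positivity
  have h9 : (0.32 * (r / T)) ^ k * (0.1024 * (0.1568 + 0.1596125 * n) * V) ≤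
      0.0283 ^ k * (0.1024 * (0.157 + 0.16 * n) * V) :=
    mul_le_mul hmk h7 h8 (by positivity)
  have hα1 : 0 < α - 1 := by linarith
  have hs2 : 0 < s ^ (-2 : ℝ) := rpow_pos_of_pos hs0 _
  calc (0.32 * (r / T)) ^ k * (0.1024 * (0.1568 + 0.1596125 * n) * V) * ((r / T) ^ 4 * s ^ 2)
      ≤ 0.0283 ^ k * (0.1024 * (0.157 + 0.16 * n) * V) *
        ((α - 1) / 9 * n ^ 4 * s ^ (-2 : ℝ)) :=
        mul_le_mul h9 hrT4 (by positivity) (by positivity)
    _ = 0.1024 / 9 * ((α - 1) * V * n ^ 4 * ((0.157 + 0.16 * n) * 0.0283 ^ k) *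
        s ^ (-2 : ℝ)) := by ring
    _ ≤ 0.01138 * ((α - 1) * V * n ^ 4 * ((0.157 + 0.16 * n) * 0.0283 ^ k) *
        s ^ (-2 : ℝ)) := by
        refine mul_le_mul_of_nonneg_right (by norm_num) (by positivity)
    _ = _ := by ring

theorem Near.tail_flat (h : Near α) {n : ℕ} (hn : 4 ≤ n) {x : Fin n → ℝ} (h1 : ∑ k, x k = 1)
    (hx : ∀ k, |x k - 1 / n| ≤ 0.06 / n) :
    IntegrableOn (fun s => ∏ k, Phi α (x k * s) - Phi α (s / n) ^ n) (Ioi (n * z1 α / 1.06)) ∧
    ∫ s in Ioi (n * z1 α / 1.06), (∏ k, Phi α (x k * s) - Phi α (s / n) ^ n) ≤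
      0.2 * (α - 1) * (∑ k, x k ^ 2 - 1 / n) := by
  obtain ⟨k, hk⟩ : ∃ k, n = k + 2 + 2 := ⟨n - 4, by omega⟩
  have hz := h.z4
  have hα := h.one_lt
  have hn0 : (0 : ℝ) < n := by
    have : 0 < n := by omega
    exact_mod_cast this
  set S0 := n * z1 α / 1.06 with hS0
  have hS0p : 0 < S0 := by
    have : 0 < z1 α := by linarith
    positivity
  set V := ∑ k, x k ^ 2 - 1 / (n : ℝ) with hV
  have hxpos : ∀ j, 0 < x j := by
    intro j
    have h2 := (abs_le.1 (hx j)).1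
    have h3 : (0 : ℝ) < 0.94 / n := by positivity
    have e : 0.94 / (n : ℝ) = 1 / n - 0.06 / n := by ring
    linarith
  have hV0 : 0 ≤ V := by
    have e : V = ∑ j, (x j - 1 / n) ^ 2 := by
      have e1 : ∀ j, (x j - 1 / (n : ℝ)) ^ 2 = x j ^ 2 - 2 / n * x j + (1 / n) ^ 2 := fun j => by
        ring
      simp only [e1]
      rw [Finset.sum_add_distrib, Finset.sum_sub_distrib, ← Finset.mul_sum, h1,
        Finset.sum_const, Finset.card_univ, Fintype.card_fin, nsmul_eq_mul, hV]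
      field_simp
      ring
    rw [e]
    exact Finset.sum_nonneg fun j _ => sq_nonneg _
  set C := 0.01138 * (α - 1) * V * n ^ 4 * ((0.157 + 0.16 * n) * 0.0283 ^ k) with hC
  have hC0 : 0 ≤ C := by
    have : 0 ≤ α - 1 := by linarith
    positivity
  have hbd : ∀ s ∈ Ioi S0, ‖∏ k, Phi α (x k * s) - Phi α (s / n) ^ n‖ ≤ C * s ^ (-2 : ℝ) :=
    fun s hs => nr7_point h hk h1 hx hs
  have hI : IntegrableOn (fun s : ℝ => C * s ^ (-2 : ℝ)) (Ioi S0) :=
    (integrableOn_Ioi_rpow_of_lt (by norm_num) hS0p).const_mul C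
  have hcont : ContinuousOn (fun s => ∏ k, Phi α (x k * s) - Phi α (s / n) ^ n) (Ioi S0) := by
    have hP := Phi_continuousOn hα
    refine ContinuousOn.sub (continuousOn_finsetProd _ fun j _ => ?_) (ContinuousOn.pow ?_ n)
    · refine hP.comp (by fun_prop) fun s hs => ?_
      exact mul_nonneg (hxpos j).le (hS0p.le.trans (le_of_lt hs))
    · refine hP.comp (by fun_prop) fun s hs => ?_
      exact div_nonneg (hS0p.le.trans (le_of_lt hs)) hn0.le
  have hint : IntegrableOn (fun s => ∏ k, Phi α (x k * s) - Phi α (s / n) ^ n) (Ioi S0) :=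
    Integrable.mono' hI (hcont.aestronglyMeasurable measurableSet_Ioi)
      ((ae_restrict_mem measurableSet_Ioi).mono hbd)
  refine ⟨hint, ?_⟩
  have h2 : ∫ s in Ioi S0, (∏ k, Phi α (x k * s) - Phi α (s / n) ^ n) ≤
      ∫ s in Ioi S0, C * s ^ (-2 : ℝ) :=
    setIntegral_mono_on hint hI measurableSet_Ioi fun s hs => (le_abs_self _).trans (hbd s hs)
  refine h2.trans ?_
  rw [integral_const_mul, integral_Ioi_rpow_of_lt (by norm_num) hS0p]
  have e1 : -S0 ^ ((-2 : ℝ) + 1) / (-2 + 1) = 1 / S0 := by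
    have : (-2 : ℝ) + 1 = -1 := by norm_num
    rw [this, rpow_neg_one]
    field_simp
  rw [e1]
  have h3 : 1 / S0 ≤ 0.265 / n := by
    rw [hS0, one_div_div, div_le_div_iff₀ (by positivity) hn0]
    nlinarith
  have h4 := nr7_num k
  have e2 : ((k : ℝ) + 4) = n := by
    rw [hk]
    push_cast
    ring
  rw [e2] at h4
  calc C * (1 / S0) ≤ C * (0.265 / n) := mul_le_mul_of_nonneg_left h3 hC0
    _ = 0.01138 * 0.265 * ((α - 1) * V) * (n ^ 3 * (0.157 + 0.16 * n) * 0.0283 ^ k) := by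
        rw [hC]
        field_simp
    _ ≤ 0.01138 * 0.265 * ((α - 1) * V) * 51.1 := by
        refine mul_le_mul_of_nonneg_left h4 ?_
        have : 0 ≤ α - 1 := by linarith
        positivity
    _ ≤ 0.2 * ((α - 1) * V) := by
        have : 0 ≤ (α - 1) * V := mul_nonneg (by linarith) hV0
        nlinarith
    _ = _ := by ring

end LpSec.Nr
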