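import Mathlib
import Pool.Agent.Lib.MP_1dbab3_gt.Nr.Far
import Pool.Agent.Lib.MP_1dbab3_gt.Nr.Tail

/-!
# Near `α = 1`: near the flat point
-/

open Real MeasureTheory Set Filter Topology

namespace LpSec.Nr

variable {α : ℝ}

theorem V_pos {n : ℕ} (hn : 0 < n) {x : Fin n → ℝ} (h1 : ∑ i, x i = 1)
    (hne : x ≠ fun _ => 1 / (n : ℝ)) : 0 < ∑ k, x k ^ 2 - 1 / (n : ℝ) ∧
    ∑ k, x k ^ 2 - 1 / (n : ℝ) = ∑ k, (x k - 1 / n) ^ 2 := by
  have hn0 : (0 : ℝ) < n := by exact_mod_cast hn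
  have e : ∑ k, (x k - 1 / n) ^ 2 = ∑ k, x k ^ 2 - 1 / (n : ℝ) := by
    have e1 : ∀ k, (x k - 1 / (n : ℝ)) ^ 2 = x k ^ 2 - 2 / n * x k + (1 / n) ^ 2 := fun k => by
      ring
    simp only [e1]
    rw [Finset.sum_add_distrib, Finset.sum_sub_distrib, ← Finset.mul_sum, h1, Finset.sum_const,
      Finset.card_univ, Fintype.card_fin, nsmul_eq_mul]
    field_simp
    ring
  refine ⟨?_, e.symm⟩
  rw [← e]
  obtain ⟨k, hk⟩ := Function.ne_iff.1 hne
  refine Finset.sum_pos' (fun i _ => sq_nonneg _) ⟨k, Finset.mem_univ k, ?_⟩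
  have : x k - 1 / n ≠ 0 := sub_ne_zero.2 hk
  positivity

theorem Near.flat_lt (h : Near α) {n : ℕ} (hn : 4 ≤ n) {x : Fin n → ℝ} (hx : ∀ i, 0 ≤ x i)
    (h1 : ∑ i, x i = 1) (hlt : ∀ i, x i < 1) (hne : x ≠ fun _ => 1 / (n : ℝ))
    (hnf : ∀ k, |x k - 1 / n| ≤ 0.06 / n) : J α x < vv α n := by
  have hn4 : (4 : ℝ) ≤ n := by exact_mod_cast hn
  have hn0 : (0 : ℝ) < n := by linarith
  have hal := h.al
  have hz := h.z0
  have hz4 := h.z4
  obtain ⟨v1, v2⟩ := V_pos (by omega) h1 hne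
  set V := ∑ k, x k ^ 2 - 1 / (n : ℝ) with hV
  have hV7 : V ≤ 0.7 := by
    rw [v2]
    have h3 : ∑ k, (x k - 1 / (n : ℝ)) ^ 2 ≤ ∑ _k : Fin n, (0.06 / (n : ℝ)) ^ 2 := by
      refine Finset.sum_le_sum fun k _ => ?_
      rw [← sq_abs]
      exact pow_le_pow_left₀ (abs_nonneg _) (hnf k) 2
    rw [Finset.sum_const, Finset.card_univ, Fintype.card_fin, nsmul_eq_mul] at h3
    refine h3.trans ?_
    have e : (n : ℝ) * (0.06 / (n : ℝ)) ^ 2 = 0.0036 / n := by
      field_simp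
      norm_num
    rw [e, div_le_iff₀ hn0]
    norm_num
    linarith
  set S := n * z1 α / 1.06 with hS
  have hS1 : 16 / 3 ≤ S := by
    rw [hS, le_div_iff₀ (by norm_num)]
    have : 4 * 4 ≤ n * z1 α := mul_le_mul hn4 hz4.le (by norm_num) hn0.le
    norm_num at this ⊢
    linarith
  have hS0 : 0 ≤ S := by linarith
  have hS2 : S ≤ n * z1 α := by
    rw [hS]
    have : 0 ≤ n * z1 α := by positivity
    rw [div_le_iff₀ (by norm_num)]
    norm_num
    linarith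
  have m1 := h.main_int (by omega) hx h1 hS0 (fun s h0 hs k => by
    have h3 : x k ≤ 1.06 / n := by
      have := (abs_le.1 (hnf k)).2
      have e : (1.06 : ℝ) / n = 1 / n + 0.06 / n := by
        rw [← add_div]
        norm_num
      rw [e]
      linarith
    have h4 : x k * s ≤ 1.06 / n * s := mul_le_mul_of_nonneg_right h3 h0
    have h5 : 1.06 / n * s < 1.06 / n * S := mul_lt_mul_of_pos_left hs (by positivity)
    have h6 : 1.06 / n * S = z1 α := by
      rw [hS]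
      field_simp
    linarith)
  rw [← hV] at m1
  have g1 := h.gain_S hn v1.le hV7 hS1 hS2
  obtain ⟨t1, t2⟩ := h.tail_flat hn h1 hnf
  rw [← hV, ← hS] at t2
  rw [← hS] at t1
  have hfi := J_integrable h.one_lt hx h1 hlt
  obtain ⟨gi, gv⟩ := flat_int h.one_lt (n := n) (by omega)
  have e1 := intervalIntegral.integral_interval_add_Ioi hfi (hfi.mono_set (Ioi_subset_Ioi hS0))
  have e2 := intervalIntegral.integral_interval_add_Ioi gi (gi.mono_set (Ioi_subset_Ioi hS0))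
  have e3 := integral_sub (hfi.mono_set (Ioi_subset_Ioi hS0)) (gi.mono_set (Ioi_subset_Ioi hS0))
  rw [e3] at t2
  have hJ : J α x = ∫ s in Ioi (0 : ℝ), ∏ k, Phi α (x k * s) := rfl
  rw [hJ, gv]
  have k1 : 0 < (α - 1) * V := mul_pos hal v1
  norm_num at g1 t2 ⊢
  linarith

end LpSec.Nr
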