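import Mathlib
import Pool.Agent.Lib.MP_1dbab3_gt.Nr.Big
import Pool.Agent.Lib.MP_1dbab3_gt.Nr.Flat

/-!
# Near `α = 1`, dimension at least four
-/

open Real MeasureTheory Set Filter Topology

namespace LpSec

variable {α : ℝ}

/-- `Core` for `1 < α ≤ 10/9` in dimension at least four -/
theorem core_ge4_near (hα : 1 < α) (h2 : α ≤ 10 / 9) {n : ℕ} (hn : 4 ≤ n) : Core α n := by
  intro x hx h1 hlt _ hne
  refine lt_of_lt_of_le ?_ (le_max_right _ _)
  have h := Nr.near hα h2
  by_cases hnf : ∀ k, |x k - 1 / (n : ℝ)| ≤ 0.06 / n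
  · exact h.flat_lt hn hx h1 hlt hne hnf
  · have : Nonempty (Fin n) := ⟨⟨0, by omega⟩⟩
    obtain ⟨i, -, hi⟩ := Finset.exists_max_image Finset.univ x Finset.univ_nonempty
    have hcard : (Finset.univ.erase i).Nonempty := by
      rw [← Finset.card_pos, Finset.card_erase_of_mem (Finset.mem_univ i), Finset.card_univ,
        Fintype.card_fin]
      omega
    obtain ⟨j, hj, hjm⟩ := Finset.exists_max_image (Finset.univ.erase i) x hcard
    have hij : i ≠ j := (Finset.mem_erase.1 hj).1.symm
    have hk : ∀ k, k ≠ i → x k ≤ x j := fun k hk =>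
      hjm k (Finset.mem_erase.2 ⟨hk, Finset.mem_univ k⟩)
    have hji : x j ≤ x i := hi j (Finset.mem_univ j)
    have hz0 : 0 < x j := by
      by_contra hcon
      push Not at hcon
      have h3 := Nr.sum_erase1 h1 i
      have h4 : ∑ k ∈ Finset.univ.erase i, x k ≤ 0 := Finset.sum_nonpos fun k hkm =>
        (hk k (Finset.mem_erase.1 hkm).1).trans hcon
      have := hlt i
      linarith
    rcases le_total (x i) (3 / 4) with hy | hy
    · exact h.far_lt hn hx h1 hij hz0 hji hk hy hnf
    · exact h.big_lt hn hx h1 hij hz0 hji hk hy (hlt i)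

end LpSec
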